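import Pool.Agent.Helper87.CC.SOps
import Pool.Agent.Helper87.CC.Ring
import Pool.Agent.Helper87.CC.LC
import Pool.Agent.Helper87.CC.LowDeg
import Pool.Agent.Helper29.CQ.Defs

/-!
# Cyclic covers of the plane: reduction to double planes
-/

set_option autoImplicit false

namespace Pool.Agent.Helper67.CQ

open Polynomial
open Pool.Agent.Helper87.CC (IsLC isLC_std ft_of_surj ft_of_hom ft_loc ft_alg)
open Pool.Agent.Helper29.CQ (FormalClass Cyc Thr Cyl)

variable {p : ℕ} {P : ∀ (A : Type) [CommRing A], Prop}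

theorem isLC_quot {A : Type} [CommRing A] (f : A) :
    IsLC (Ideal.Quotient.mk (Ideal.span {f})) (Ideal.span {f}) 1 where
  zero b hb := Ideal.Quotient.eq_zero_iff_mem.2 hb
  unit := by rw [map_one]; exact isUnit_one
  ex E _ v hv _ := ⟨Ideal.Quotient.lift _ v hv, Ideal.Quotient.lift_comp_mk _ _ hv⟩
  uniq E _ h h' hh := Ideal.Quotient.ringHom_ext hh

theorem isLC_away {A : Type} [CommRing A] (f : A) :
    IsLC (algebraMap A (Localization.Away f)) ⊥ f where
  zero b hb := by rw [Ideal.mem_bot.1 hb, map_zero]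
  unit := IsLocalization.Away.algebraMap_isUnit f
  ex E _ v _ hu := ⟨IsLocalization.Away.lift f hu, IsLocalization.Away.lift_comp f hu⟩
  uniq E _ h h' hh := IsLocalization.ringHom_ext (Submonoid.powers f) hh

theorem isLC_equiv {A B : Type} [CommRing A] [CommRing B] (q : A →+* B) (hq : IsLC q ⊥ 1) :
    Nonempty (A ≃+* B) := by
  have h : IsLC (RingHom.id A) ⊥ (1 : A) :=
    ⟨fun b hb => Ideal.mem_bot.1 hb, isUnit_one, fun E _ v _ _ => ⟨v, RingHom.comp_id v⟩, fun E _ h h' hh => hh⟩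
  exact h.equiv hq

/-- gluing, with models of the closed and of the open part -/
theorem glue' (hP : FormalClass p P) {A Y Z : Type} [CommRing A] [CommRing Y] [CommRing Z] (f : A)
    (hft : Algebra.FiniteType ℤ A) (hp : (p : A) = 0) {q : A →+* Y} (hq : IsLC q (Ideal.span {f}) 1)
    {r : A →+* Z} (hr : IsLC r ⊥ f) (hY : P Y) (hZ : P Z) : P A := by
  obtain ⟨e1⟩ := hq.equiv (isLC_quot f)
  obtain ⟨e2⟩ := hr.equiv (isLC_away f)
  exact hP.glue A f hft hp (hP.iso _ _ e1 hY) (hP.iso _ _ e2 hZ)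

theorem opn' (hP : FormalClass p P) {A Y Z : Type} [CommRing A] [CommRing Y] [CommRing Z] (f : A) {q : A →+* Y} (hq : IsLC q (Ideal.span {f}) 1)
    {r : A →+* Z} (hr : IsLC r ⊥ f) (hA : P A) (hY : P Y) : P Z := by
  obtain ⟨e1⟩ := hq.equiv (isLC_quot f)
  obtain ⟨e2⟩ := (isLC_away f).equiv hr
  exact hP.iso _ _ e2 (hP.opn A f hA (hP.iso _ _ e1 hY))

/-! ### Kummer extensions -/

/-- `B = R[w]/(w ^ n - a)` -/
structure IsKum {R B : Type} [CommRing R] [CommRing B] (i : R →+* B) (w : B) (n : ℕ) (a : R) : Prop where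
  rel : w ^ n = i a
  ex : ∀ (E : Type) [CommRing E] (v : R →+* E) (c : E), c ^ n = v a → ∃ h : B →+* E, h.comp i = v ∧ h w = c
  uniq : ∀ (E : Type) [CommRing E] (h h' : B →+* E), h.comp i = h'.comp i → h w = h' w → h = h'

theorem isKum_std {R : Type} [CommRing R] (n : ℕ) (a : R) :
    IsKum (AdjoinRoot.of (X ^ n - C a : R[X])) (AdjoinRoot.root (X ^ n - C a : R[X])) n a where
  rel := by
    have h := AdjoinRoot.eval₂_root (X ^ n - C a : R[X])
    rw [eval₂_sub, eval₂_X_pow, eval₂_C, sub_eq_zero] at h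
    exact h
  ex E _ v c h := by
    have h1 : (X ^ n - C a : R[X]).eval₂ v c = 0 := by
      rw [eval₂_sub, eval₂_X_pow, eval₂_C, h, sub_self]
    exact ⟨AdjoinRoot.lift v c h1, AdjoinRoot.lift_comp_of h1, AdjoinRoot.lift_root h1⟩
  uniq E _ h h' h1 h2 := by
    refine AdjoinRoot.ringHom_ext ?_ h2
    exact h1

theorem IsKum.closed {R B : Type} [CommRing R] [CommRing B] {i : R →+* B} {w : B} {n : ℕ} {a : R}
    (hB : IsKum i w n a) (hn : n ≠ 0) :
    ∃ q : B →+* R ⧸ Ideal.span {a}, q.comp i = Ideal.Quotient.mk _ ∧ q w = 0 ∧ IsLC q (Ideal.span {w}) 1 := by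
  have ha : Ideal.Quotient.mk (Ideal.span {a}) a = 0 :=
    Ideal.Quotient.eq_zero_iff_mem.2 (Ideal.mem_span_singleton_self a)
  obtain ⟨q, hq1, hq2⟩ := hB.ex (R ⧸ Ideal.span {a}) (Ideal.Quotient.mk _) 0 (by rw [ha, zero_pow hn])
  refine ⟨q, hq1, hq2, ?_, ?_, ?_, ?_⟩
  · intro b hb
    obtain ⟨c, rfl⟩ := Ideal.mem_span_singleton'.1 hb
    rw [map_mul, hq2, mul_zero]
  · rw [map_one]; exact isUnit_one
  · intro E _ v hv _
    have hw : v w = 0 := hv w (Ideal.mem_span_singleton_self w)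
    have h1 : ∀ b ∈ Ideal.span {a}, (v.comp i) b = 0 := by
      intro b hb
      obtain ⟨c, rfl⟩ := Ideal.mem_span_singleton'.1 hb
      rw [RingHom.comp_apply, map_mul, map_mul, ← hB.rel, map_pow, hw, zero_pow hn, mul_zero]
    refine ⟨Ideal.Quotient.lift _ (v.comp i) h1, ?_⟩
    refine hB.uniq E _ _ ?_ ?_
    · rw [RingHom.comp_assoc, hq1, Ideal.Quotient.lift_comp_mk]
    · rw [RingHom.comp_apply, hq2, map_zero, hw]
  · intro E _ h h' hh
    apply Ideal.Quotient.ringHom_ext
    rw [← hq1, ← RingHom.comp_assoc, hh, RingHom.comp_assoc]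

theorem IsKum.open {R B R' B' : Type} [CommRing R] [CommRing B] [CommRing R'] [CommRing B'] {i : R →+* B}
    {w : B} {n : ℕ} {a : R} (hB : IsKum i w n a) (hn : n ≠ 0) {φ : R →+* R'} (hφ : IsLC φ ⊥ a)
    {i' : R' →+* B'} {w' : B'} (hB' : IsKum i' w' n (φ a)) :
    ∃ r : B →+* B', IsLC r ⊥ w := by
  obtain ⟨r, hr1, hr2⟩ := hB.ex B' (i'.comp φ) w' hB'.rel
  refine ⟨r, ?_, ?_, ?_, ?_⟩
  · intro b hb
    rw [Ideal.mem_bot.1 hb, map_zero]
  · rw [hr2]
    have h1 : IsUnit (w' ^ n) := by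
      rw [hB'.rel]
      exact hφ.unit.map i'
    exact (isUnit_pow_iff hn).1 h1
  · intro E _ v _ hu
    have h1 : IsUnit ((v.comp i) a) := by
      rw [RingHom.comp_apply, ← hB.rel, map_pow]
      exact hu.pow n
    obtain ⟨g, hg⟩ := hφ.ex E (v.comp i) (fun b hb => by rw [Ideal.mem_bot.1 hb, map_zero]) h1
    have h2 : v w ^ n = g (φ a) := by
      rw [← RingHom.comp_apply, hg, RingHom.comp_apply, ← hB.rel, map_pow]
    obtain ⟨h, hh1, hh2⟩ := hB'.ex E g (v w) h2
    refine ⟨h, hB.uniq E _ _ ?_ ?_⟩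
    · rw [RingHom.comp_assoc, hr1, ← RingHom.comp_assoc, hh1, hg]
    · rw [RingHom.comp_apply, hr2, hh2]
  · intro E _ h h' hh
    refine hB'.uniq E _ _ ?_ ?_
    · apply hφ.uniq
      rw [RingHom.comp_assoc, ← hr1, ← RingHom.comp_assoc, hh, RingHom.comp_assoc, hr1, ← RingHom.comp_assoc]
    · rw [← hr2]
      exact RingHom.congr_fun hh w

theorem IsKum.equiv {R R' B B' : Type} [CommRing R] [CommRing R'] [CommRing B] [CommRing B'] {i : R →+* B}
    {w : B} {n : ℕ} {a : R} (hB : IsKum i w n a) {i' : R' →+* B'} {w' : B'} (e : R ≃+* R')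
    (hB' : IsKum i' w' n (e a)) : Nonempty (B ≃+* B') := by
  obtain ⟨r, hr1, hr2⟩ := hB.ex B' (i'.comp e) w' hB'.rel
  refine isLC_equiv r ⟨?_, ?_, ?_, ?_⟩
  · intro b hb
    rw [Ideal.mem_bot.1 hb, map_zero]
  · rw [map_one]; exact isUnit_one
  · intro E _ v _ _
    have h2 : v w ^ n = ((v.comp i).comp (e.symm : R' →+* R)) (e a) := by
      rw [RingHom.comp_apply, RingEquiv.coe_toRingHom, e.symm_apply_apply, RingHom.comp_apply, ← hB.rel, map_pow]
    obtain ⟨h, hh1, hh2⟩ := hB'.ex E _ (v w) h2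
    refine ⟨h, hB.uniq E _ _ ?_ ?_⟩
    · rw [RingHom.comp_assoc, hr1, ← RingHom.comp_assoc, hh1, RingHom.comp_assoc]
      ext x
      simp
    · rw [RingHom.comp_apply, hr2, hh2]
  · intro E _ h h' hh
    refine hB'.uniq E _ _ ?_ ?_
    · ext x
      have h1 := RingHom.congr_fun hh (i (e.symm x))
      rw [RingHom.comp_apply, RingHom.comp_apply] at h1
      have h2 : r (i (e.symm x)) = i' x := by
        have := RingHom.congr_fun hr1 (e.symm x)
        simpa using this
      rw [h2] at h1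
      exact h1
    · rw [← hr2]
      exact RingHom.congr_fun hh w

theorem IsKum.ft {R B : Type} [CommRing R] [CommRing B] {i : R →+* B} {w : B} {n : ℕ} {a : R}
    (hB : IsKum i w n a) (hR : Algebra.FiniteType ℤ R) : Algebra.FiniteType ℤ B := by
  have h1 : Algebra.FiniteType ℤ R[X] := ft_alg hR inferInstance
  have h2 : Algebra.FiniteType ℤ (AdjoinRoot (X ^ n - C a : R[X])) :=
    ft_of_surj h1 (AdjoinRoot.mk _) AdjoinRoot.mk_surjective
  obtain ⟨e⟩ := (isKum_std n a).equiv (RingEquiv.refl R) hB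
  exact ft_of_surj h2 (e : _ →+* B) e.surjective

theorem IsKum.char {R B : Type} [CommRing R] [CommRing B] {i : R →+* B} {w : B} {n : ℕ} {a : R}
    (_ : IsKum i w n a) (hR : (p : R) = 0) : (p : B) = 0 := by
  rw [← map_natCast i, hR, map_zero]

/-- a Kummer extension over `R` from the one over `R[1/a]` -/
theorem kum_glue (hP : FormalClass p P) {R B R' B' : Type} [CommRing R] [CommRing B] [CommRing R'] [CommRing B']
    (hft : Algebra.FiniteType ℤ R) (hp : (p : R) = 0) {i : R →+* B} {w : B} {n : ℕ} {a : R} (hB : IsKum i w n a)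
    (hn : n ≠ 0) {φ : R →+* R'} (hφ : IsLC φ ⊥ a) {i' : R' →+* B'} {w' : B'} (hB' : IsKum i' w' n (φ a))
    (h0 : P (R ⧸ Ideal.span {a})) (h1 : P B') : P B := by
  obtain ⟨q, -, -, hq⟩ := hB.closed hn
  obtain ⟨r, hr⟩ := hB.open hn hφ hB'
  exact glue' hP w (hB.ft hft) (hB.char hp) hq hr h0 h1

/-- a Kummer extension over `R[1/a]` from the one over `R` -/
theorem kum_open (hP : FormalClass p P) {R B R' B' : Type} [CommRing R] [CommRing B] [CommRing R'] [CommRing B'] {i : R →+* B} {w : B} {n : ℕ} {a : R} (hB : IsKum i w n a)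
    (hn : n ≠ 0) {φ : R →+* R'} (hφ : IsLC φ ⊥ a) {i' : R' →+* B'} {w' : B'} (hB' : IsKum i' w' n (φ a))
    (h0 : P (R ⧸ Ideal.span {a})) (h1 : P B) : P B' := by
  obtain ⟨q, -, -, hq⟩ := hB.closed hn
  obtain ⟨r, hr⟩ := hB.open hn hφ hB'
  exact opn' hP w hq hr h1 h0

/-! ### The quotient threefold -/

/-- `D = R[z,v]/(a z ^ n - v (1 - v))` -/
structure IsDbl {R D : Type} [CommRing R] [CommRing D] (i : R →+* D) (z v : D) (n : ℕ) (a : R) : Prop where
  rel : i a * z ^ n = v * (1 - v)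
  ex : ∀ (E : Type) [CommRing E] (u : R →+* E) (c d : E), u a * c ^ n = d * (1 - d) →
    ∃ h : D →+* E, h.comp i = u ∧ h z = c ∧ h v = d
  uniq : ∀ (E : Type) [CommRing E] (h h' : D →+* E), h.comp i = h'.comp i → h z = h' z → h v = h' v → h = h'

/-- the standard model -/
abbrev Dbl (R : Type) [CommRing R] (n : ℕ) (a : R) : Type :=
  AdjoinRoot (C (C a * X ^ n) - X * (1 - X) : R[X][X])

theorem isDbl_std {R : Type} [CommRing R] (n : ℕ) (a : R) :
    IsDbl ((AdjoinRoot.of (C (C a * X ^ n) - X * (1 - X) : R[X][X])).comp C)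
      (AdjoinRoot.of (C (C a * X ^ n) - X * (1 - X) : R[X][X]) X)
      (AdjoinRoot.root (C (C a * X ^ n) - X * (1 - X) : R[X][X])) n a where
  rel := by
    have h := AdjoinRoot.eval₂_root (C (C a * X ^ n) - X * (1 - X) : R[X][X])
    rw [eval₂_sub, eval₂_C, eval₂_mul, eval₂_sub, eval₂_X, eval₂_one, sub_eq_zero] at h
    refine Eq.trans ?_ h
    rw [RingHom.comp_apply, ← map_pow, ← map_mul]
  ex E _ u c d h := by
    have h1 : (C (C a * X ^ n) - X * (1 - X) : R[X][X]).eval₂ (eval₂RingHom u c) d = 0 := by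
      rw [eval₂_sub, eval₂_C, eval₂_mul, eval₂_sub, eval₂_X, eval₂_one, sub_eq_zero, map_mul, map_pow,
        coe_eval₂RingHom, eval₂_C, eval₂_X]
      exact h
    refine ⟨AdjoinRoot.lift (eval₂RingHom u c) d h1, ?_, ?_, ?_⟩
    · rw [← RingHom.comp_assoc, AdjoinRoot.lift_comp_of]
      ext x
      simp
    · rw [AdjoinRoot.lift_of, coe_eval₂RingHom, eval₂_X]
    · rw [AdjoinRoot.lift_root]
  uniq E _ h h' h1 h2 h3 := by
    refine AdjoinRoot.ringHom_ext ?_ h3
    refine Polynomial.ringHom_ext' ?_ h2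
    rw [RingHom.comp_assoc, h1, RingHom.comp_assoc]

theorem IsDbl.equiv {R D D' : Type} [CommRing R] [CommRing D] [CommRing D'] {i : R →+* D} {z v : D} {n : ℕ} {a : R}
    (hD : IsDbl i z v n a) {i' : R →+* D'} {z' v' : D'} (hD' : IsDbl i' z' v' n a) : Nonempty (D ≃+* D') := by
  obtain ⟨f, f1, f2, f3⟩ := hD.ex D' i' z' v' hD'.rel
  obtain ⟨g, g1, g2, g3⟩ := hD'.ex D i z v hD.rel
  refine ⟨RingEquiv.ofRingHom f g ?_ ?_⟩
  · refine hD'.uniq _ _ _ ?_ ?_ ?_
    · rw [RingHom.comp_assoc, g1, f1, RingHom.id_comp]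
    · rw [RingHom.comp_apply, g2, f2, RingHom.id_apply]
    · rw [RingHom.comp_apply, g3, f3, RingHom.id_apply]
  · refine hD.uniq _ _ _ ?_ ?_ ?_
    · rw [RingHom.comp_assoc, f1, g1, RingHom.id_comp]
    · rw [RingHom.comp_apply, f2, g2, RingHom.id_apply]
    · rw [RingHom.comp_apply, f3, g3, RingHom.id_apply]

theorem IsDbl.ft {R D : Type} [CommRing R] [CommRing D] {i : R →+* D} {z v : D} {n : ℕ} {a : R}
    (hD : IsDbl i z v n a) (hR : Algebra.FiniteType ℤ R) : Algebra.FiniteType ℤ D := by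
  have h1 : Algebra.FiniteType ℤ R[X] := ft_alg hR inferInstance
  have h1' : Algebra.FiniteType ℤ R[X][X] := ft_alg h1 inferInstance
  have h2 : Algebra.FiniteType ℤ (Dbl R n a) := ft_of_surj h1' (AdjoinRoot.mk _) AdjoinRoot.mk_surjective
  obtain ⟨e⟩ := (isDbl_std n a).equiv hD
  exact ft_of_surj h2 (e : _ →+* D) e.surjective

/-- base change to a locally closed subscheme -/
theorem IsDbl.lc {R D R' D' : Type} [CommRing R] [CommRing D] [CommRing R'] [CommRing D'] {i : R →+* D} {z v : D}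
    {n : ℕ} {a b c : R} (hD : IsDbl i z v n a) {φ : R →+* R'} (hφ : IsLC φ (Ideal.span {b}) c) {i' : R' →+* D'}
    {z' v' : D'} (hD' : IsDbl i' z' v' n (φ a)) :
    ∃ r : D →+* D', IsLC r (Ideal.span {i b}) (i c) := by
  obtain ⟨r, r1, r2, r3⟩ := hD.ex D' (i'.comp φ) z' v' hD'.rel
  refine ⟨r, ?_, ?_, ?_, ?_⟩
  · intro x hx
    obtain ⟨t, rfl⟩ := Ideal.mem_span_singleton'.1 hx
    have h1 : r (i b) = 0 := by
      have := RingHom.congr_fun r1 b
      rw [RingHom.comp_apply] at this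
      rw [this, RingHom.comp_apply, hφ.zero b (Ideal.mem_span_singleton_self b), map_zero]
    rw [map_mul, h1, mul_zero]
  · have := RingHom.congr_fun r1 c
    rw [RingHom.comp_apply] at this
    rw [this]
    exact hφ.unit.map i'
  · intro E _ u hu hu'
    obtain ⟨g, hg⟩ := hφ.ex E (u.comp i) (fun x hx => by
      obtain ⟨t, rfl⟩ := Ideal.mem_span_singleton'.1 hx
      rw [RingHom.comp_apply, map_mul, map_mul, hu (i b) (Ideal.mem_span_singleton_self _), mul_zero]) hu'
    have h2 : g (φ a) * u z ^ n = u v * (1 - u v) := by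
      rw [← RingHom.comp_apply, hg, RingHom.comp_apply, ← map_pow, ← map_mul, hD.rel, map_mul, map_sub, map_one]
    obtain ⟨h, hh1, hh2, hh3⟩ := hD'.ex E g (u z) (u v) h2
    refine ⟨h, hD.uniq E _ _ ?_ ?_ ?_⟩
    · rw [RingHom.comp_assoc, r1, ← RingHom.comp_assoc, hh1, hg]
    · rw [RingHom.comp_apply, r2, hh2]
    · rw [RingHom.comp_apply, r3, hh3]
  · intro E _ h h' hh
    refine hD'.uniq E _ _ ?_ ?_ ?_
    · apply hφ.uniq
      rw [RingHom.comp_assoc, ← r1, ← RingHom.comp_assoc, hh, RingHom.comp_assoc, r1, ← RingHom.comp_assoc]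
    · rw [← r2]
      exact RingHom.congr_fun hh z
    · rw [← r3]
      exact RingHom.congr_fun hh v

/-- the threefold over the locus `a = 0` -/
theorem dbl_zero (hP : FormalClass p P) {R D : Type} [CommRing R] [CommRing D] (hft : Algebra.FiniteType ℤ R)
    (hp : (p : R) = 0) (hR : P R) {i : R →+* D} {z v : D} {n : ℕ} (hD : IsDbl i z v n 0) : P D := by
  have hX : P R[X] := hP.poly R hR
  obtain ⟨q, q1, q2, q3⟩ := hD.ex R[X] C X 0 (by rw [map_zero, zero_mul, zero_mul])
  obtain ⟨r, r1, r2, r3⟩ := hD.ex R[X] C X 1 (by rw [map_zero, zero_mul, sub_self, mul_zero])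
  have hpD : (p : D) = 0 := by rw [← map_natCast i, hp, map_zero]
  have hv : v * (1 - v) = 0 := by rw [← hD.rel, map_zero, zero_mul]
  have hq : IsLC q (Ideal.span {v}) 1 := by
    refine ⟨?_, ?_, ?_, ?_⟩
    · intro b hb
      obtain ⟨c, rfl⟩ := Ideal.mem_span_singleton'.1 hb
      rw [map_mul, q3, mul_zero]
    · rw [map_one]; exact isUnit_one
    · intro E _ u hu _
      refine ⟨eval₂RingHom (u.comp i) (u z), hD.uniq E _ _ ?_ ?_ ?_⟩
      · rw [RingHom.comp_assoc, q1]
        ext x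
        simp
      · rw [RingHom.comp_apply, q2]
        simp
      · rw [RingHom.comp_apply, q3, map_zero, hu v (Ideal.mem_span_singleton_self v)]
    · intro E _ h h' hh
      refine Polynomial.ringHom_ext' ?_ ?_
      · rw [← q1, ← RingHom.comp_assoc, hh, RingHom.comp_assoc]
      · rw [← q2]
        exact RingHom.congr_fun hh z
  have hr : IsLC r ⊥ v := by
    refine ⟨?_, ?_, ?_, ?_⟩
    · intro b hb
      rw [Ideal.mem_bot.1 hb, map_zero]
    · rw [r3]; exact isUnit_one
    · intro E _ u _ hu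
      have h1 : u v = 1 := by
        have h2 : u v * (1 - u v) = 0 := by rw [← map_one u, ← map_sub, ← map_mul, hv, map_zero]
        have h3 := (hu.mul_right_eq_zero).1 h2
        rw [sub_eq_zero] at h3
        exact h3.symm
      refine ⟨eval₂RingHom (u.comp i) (u z), hD.uniq E _ _ ?_ ?_ ?_⟩
      · rw [RingHom.comp_assoc, r1]
        ext x
        simp
      · rw [RingHom.comp_apply, r2]
        simp
      · rw [RingHom.comp_apply, r3, map_one, h1]
    · intro E _ h h' hh
      refine Polynomial.ringHom_ext' ?_ ?_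
      · rw [← r1, ← RingHom.comp_assoc, hh, RingHom.comp_assoc]
      · rw [← r2]
        exact RingHom.congr_fun hh z
  exact glue' hP v (hD.ft hft) hpD hq hr hX hX

/-- the threefold over `R[1/a]` from the one over `R` -/
theorem dbl_open (hP : FormalClass p P) {R D R' D' : Type} [CommRing R] [CommRing D] [CommRing R'] [CommRing D']
    (hft : Algebra.FiniteType ℤ R) (hp : (p : R) = 0) {i : R →+* D} {z v : D} {n : ℕ} {a : R}
    (hD : IsDbl i z v n a) {φ : R →+* R'} (hφ : IsLC φ ⊥ a) {i' : R' →+* D'} {z' v' : D'}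
    (hD' : IsDbl i' z' v' n (φ a)) (h0 : P (R ⧸ Ideal.span {a})) (h1 : P D) : P D' := by
  have hpD : (p : D) = 0 := by rw [← map_natCast i, hp, map_zero]
  have hφ' : IsLC φ (Ideal.span {0}) a := by
    rwa [Set.singleton_zero, Ideal.span_zero]
  obtain ⟨r, hr⟩ := hD.lc hφ' hD'
  rw [map_zero, Set.singleton_zero, Ideal.span_zero] at hr
  have ha : Ideal.Quotient.mk (Ideal.span {a}) a = 0 :=
    Ideal.Quotient.eq_zero_iff_mem.2 (Ideal.mem_span_singleton_self a)
  have hS := isDbl_std n (Ideal.Quotient.mk (Ideal.span {a}) a)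
  obtain ⟨q, hq⟩ := hD.lc (isLC_quot a) hS
  rw [map_one] at hq
  have hft' : Algebra.FiniteType ℤ (R ⧸ Ideal.span {a}) :=
    ft_of_surj hft (Ideal.Quotient.mk _) Ideal.Quotient.mk_surjective
  have hp' : (p : R ⧸ Ideal.span {a}) = 0 := by
    rw [← map_natCast (Ideal.Quotient.mk (Ideal.span {a})), hp, map_zero]
  have hY : P (Dbl (R ⧸ Ideal.span {a}) n (Ideal.Quotient.mk (Ideal.span {a}) a)) := by
    rw [ha] at hS ⊢
    exact dbl_zero hP hft' hp' h0 hS
  exact opn' hP (i a) hq hr h1 hY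

theorem iso_kum (hP : FormalClass p P) {R B B' : Type} [CommRing R] [CommRing B] [CommRing B'] {i : R →+* B}
    {w : B} {n : ℕ} {a : R} (hB : IsKum i w n a) {i' : R →+* B'} {w' : B'} (hB' : IsKum i' w' n a) (h : P B) :
    P B' := by
  obtain ⟨e⟩ := hB.equiv (RingEquiv.refl R) hB'
  exact hP.iso _ _ e h

/-- the twist rule without the hypothesis that `a` is a unit -/
theorem kum (hP : FormalClass p P) {R : Type} [CommRing R] (hft : Algebra.FiniteType ℤ R)
    (hp : (p : R) = 0) {n : ℕ} (hn : ¬ p ∣ n) {a : R} (h0 : P (R ⧸ Ideal.span {a}))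
    (h3 : P (Dbl R n a)) : P (AdjoinRoot (X ^ n - C a : R[X])) := by
  have hn0 : n ≠ 0 := by
    rintro rfl
    exact hn (dvd_zero p)
  have hφ := isLC_away a
  have e3 : P (Dbl (Localization.Away a) n (algebraMap R (Localization.Away a) a)) :=
    dbl_open hP hft hp (isDbl_std n a) hφ (isDbl_std n (algebraMap R _ a)) h0 h3
  have e4 := hP.twist _ (algebraMap R (Localization.Away a) a) n hφ.unit hn e3
  exact kum_glue hP hft hp (isKum_std n a) hn0 hφ (isKum_std n (algebraMap R _ a)) h0 e4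

/-! ### The plane -/

open MvPolynomial (eval₂Hom)

section plane

variable {k : Type} [Field k]

theorem ft_plane [Finite k] : Algebra.FiniteType ℤ (MvPolynomial (Fin 2) k) := by
  have h1 : Algebra.FiniteType ℤ k := by
    have : Module.Finite ℤ k := Module.Finite.of_finite
    infer_instance
  exact ft_alg h1 inferInstance

theorem char_plane (hk : (p : k) = 0) : (p : MvPolynomial (Fin 2) k) = 0 := by
  rw [← map_natCast (MvPolynomial.C : k →+* MvPolynomial (Fin 2) k), hk, map_zero]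

theorem dim_quot {f : MvPolynomial (Fin 2) k} (hf : f ≠ 0) : ringKrullDim (MvPolynomial (Fin 2) k ⧸ Ideal.span {f}) ≤ 1 := by
  have h1 : ringKrullDim (MvPolynomial (Fin 2) k) = 2 := by
    rw [MvPolynomial.ringKrullDim_of_isNoetherianRing, ringKrullDim_eq_zero_of_field]
    simp
  have h2 := ringKrullDim_quotient_succ_le_of_nonZeroDivisor (mem_nonZeroDivisors_of_ne_zero hf)
  rw [h1] at h2
  exact Pool.Agent.Helper87.CC.dim_le_one h2

theorem plane [Finite k] (hP : FormalClass p P) (hk : (p : k) = 0) : P (MvPolynomial (Fin 2) k) := by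
  have hfk : Algebra.FiniteType ℤ k := by
    have : Module.Finite ℤ k := Module.Finite.of_finite
    infer_instance
  have h1 : Algebra.FiniteType ℤ (MvPolynomial (Fin 1) k) := ft_alg hfk inferInstance
  have h2 : (p : MvPolynomial (Fin 1) k) = 0 := by
    rw [← map_natCast (MvPolynomial.C : k →+* MvPolynomial (Fin 1) k), hk, map_zero]
  have h3 : ringKrullDim (MvPolynomial (Fin 1) k) ≤ 1 := by
    rw [MvPolynomial.ringKrullDim_of_isNoetherianRing, ringKrullDim_eq_zero_of_field]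
    simp
  have h4 : P (MvPolynomial (Fin 1) k)[X] := hP.poly _ (hP.curve _ h1 h2 h3)
  exact hP.iso _ _ (MvPolynomial.finSuccEquiv k 1).symm.toRingEquiv h4

theorem plane_curve [Finite k] (hP : FormalClass p P) (hk : (p : k) = 0) {f : MvPolynomial (Fin 2) k} (hf : f ≠ 0) :
    P (MvPolynomial (Fin 2) k ⧸ Ideal.span {f}) := by
  refine hP.curve _ (ft_of_surj ft_plane (Ideal.Quotient.mk _) Ideal.Quotient.mk_surjective) ?_ (dim_quot hf)
  rw [← map_natCast (Ideal.Quotient.mk (Ideal.span {f})), char_plane hk, map_zero]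

theorem kum_plane [Finite k] (hP : FormalClass p P) (hk : (p : k) = 0) {n : ℕ} (hn : ¬ p ∣ n)
    {f : MvPolynomial (Fin 2) k} (hf : f ≠ 0) (h3 : P (Thr n f)) : P (Cyc n f) :=
  kum hP ft_plane (char_plane hk) hn (plane_curve hP hk hf) h3

/-! ### inseparable covers -/

/-- the Frobenius base change of the plane: `c ↦ c`, `x ↦ x ^ p`, `y ↦ y ^ p` -/
noncomputable def ex (p : ℕ) (k : Type) [Field k] : MvPolynomial (Fin 2) k →+* MvPolynomial (Fin 2) k :=
  eval₂Hom MvPolynomial.C fun i => MvPolynomial.X i ^ p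

theorem ex_root [Finite k] [hpp : Fact p.Prime] (hk : (p : k) = 0) (f : MvPolynomial (Fin 2) k) :
    ∃ φ : k →+* k, ex p k f = MvPolynomial.map φ f ^ p := by
  have hch : CharP k p := (CharP.charP_iff_prime_eq_zero hpp.out).2 hk
  have hbij : Function.Bijective (frobenius k p) := by
    have hinj : Function.Injective (frobenius k p) := frobenius_inj k p
    exact Finite.injective_iff_bijective.1 hinj
  set e : k ≃+* k := RingEquiv.ofBijective (frobenius k p) hbij with he
  have hes : ∀ c, e.symm c ^ p = c := by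
    intro c
    have h1 := e.apply_symm_apply c
    rw [he, RingEquiv.ofBijective_apply, frobenius_def] at h1
    exact h1
  have hA : ExpChar (MvPolynomial (Fin 2) k) p := by
    have : CharP (MvPolynomial (Fin 2) k) p := inferInstance
    exact ExpChar.prime hpp.out
  refine ⟨(e.symm : k →+* k), ?_⟩
  have h1 : ex p k = (frobenius (MvPolynomial (Fin 2) k) p).comp (MvPolynomial.map (e.symm : k →+* k)) := by
    apply MvPolynomial.ringHom_ext
    · intro c
      rw [ex, MvPolynomial.eval₂Hom_C, RingHom.comp_apply, MvPolynomial.map_C, frobenius_def, ← map_pow]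
      congr 1
      exact (hes c).symm
    · intro i
      rw [ex, MvPolynomial.eval₂Hom_X', RingHom.comp_apply, MvPolynomial.map_X, frobenius_def]
  rw [h1, RingHom.comp_apply, frobenius_def]

end plane

end Pool.Agent.Helper67.CQ
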