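import Pool.Agent.Helper67.CQ.Z

/-!
# Cyclic covers of the plane: inseparable covers and cylinders
-/

set_option autoImplicit false

namespace Pool.Agent.Helper67.CQ

open Polynomial
open Pool.Agent.Helper87.CC (IsLC isLC_std ft_of_surj ft_of_hom ft_loc ft_alg)
open Pool.Agent.Helper29.CQ (FormalClass Cyc Thr Cyl)
open MvPolynomial (eval₂Hom)

variable {p : ℕ} {P : ∀ (A : Type) [CommRing A], Prop}

theorem p_zero (hP : FormalClass p P) {A : Type} [CommRing A] (h0 : Subsingleton A) : P A := by
  refine hP.curve A ?_ (Subsingleton.elim _ _) ?_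
  · exact ft_of_surj (inferInstance : Algebra.FiniteType ℤ ℤ) (Int.castRingHom A)
      fun a => ⟨0, Subsingleton.elim _ _⟩
  · rw [ringKrullDim_eq_bot_of_subsingleton]
    exact bot_le

/-- transfer from `B[S]/(S ^ n - b)` to `B` -/
theorem adjoin_transfer (hP : FormalClass p P) {B : Type} [CommRing B] (hft : Algebra.FiniteType ℤ B)
    {n : ℕ} (hn : n ≠ 0) (b : B) (h : P (AdjoinRoot (X ^ n - C b : B[X]))) : P B := by
  rcases subsingleton_or_nontrivial B with h0 | h0
  · exact p_zero hP h0
  · have hm : (X ^ n - C b : B[X]).Monic := monic_X_pow_sub_C b hn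
    have := hm.free_adjoinRoot
    have := hm.finite_adjoinRoot
    have hd : 0 < (X ^ n - C b : B[X]).natDegree := by
      rw [natDegree_X_pow_sub_C]
      exact Nat.pos_of_ne_zero hn
    have : Nontrivial (AdjoinRoot (X ^ n - C b : B[X])) :=
      ⟨⟨AdjoinRoot.powerBasisAux' hm ⟨0, hd⟩, 0, (AdjoinRoot.powerBasisAux' hm).ne_zero _⟩⟩
    exact hP.transfer B (AdjoinRoot (X ^ n - C b : B[X])) hft h

theorem insep {k : Type} [Field k] [Finite k] (hP : FormalClass p P) [hpp : Fact p.Prime] (hk : (p : k) = 0) {m : ℕ}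
    (f g : MvPolynomial (Fin 2) k) (hfg : ex p k f = g ^ p) (h : P (Cyc m g)) : P (Cyc (p * m) f) := by
  have hp0 : p ≠ 0 := hpp.out.ne_zero
  obtain ⟨B, hB0, i, w, hB⟩ : ∃ (B : Type) (_ : CommRing B) (i : MvPolynomial (Fin 2) k →+* B) (w : B), IsKum i w (p * m) f ∧
      Nonempty (B ≃+* Cyc (p * m) f) := ⟨Cyc (p * m) f, inferInstance, _, _, isKum_std (p * m) f, ⟨RingEquiv.refl _⟩⟩
  obtain ⟨hB, ⟨eB⟩⟩ := hB
  obtain ⟨K, hK0, iK, wK, hK, ⟨eK⟩⟩ : ∃ (K : Type) (_ : CommRing K) (iK : MvPolynomial (Fin 2) k →+* K) (wK : K), IsKum iK wK m g ∧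
      Nonempty (Cyc m g ≃+* K) := ⟨Cyc m g, inferInstance, _, _, isKum_std m g, ⟨RingEquiv.refl _⟩⟩
  have hPK : P K := hP.iso _ _ eK h
  refine hP.iso _ _ eB ?_
  obtain ⟨B', hB'0, j', S', hB', h1⟩ : ∃ (B' : Type) (_ : CommRing B') (j' : B →+* B') (S : B'),
      IsKum j' S p (i (MvPolynomial.X 0)) ∧ (P B' → P B) :=
    ⟨AdjoinRoot (X ^ p - C (i (MvPolynomial.X 0)) : B[X]), inferInstance, _, _, isKum_std p _,
      adjoin_transfer hP (hB.ft ft_plane) hp0 _⟩
  obtain ⟨D, hD0, j'', T, hD, h2⟩ : ∃ (D : Type) (_ : CommRing D) (j'' : B' →+* D) (T : D),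
      IsKum j'' T p (j' (i (MvPolynomial.X 1))) ∧ (P D → P B') :=
    ⟨AdjoinRoot (X ^ p - C (j' (i (MvPolynomial.X 1))) : B'[X]), inferInstance, _, _, isKum_std p _,
      adjoin_transfer hP (hB'.ft (hB.ft ft_plane)) hp0 _⟩
  apply h1
  apply h2
  -- the ring `D = k[S, T, w]/(w ^ (p m) - f(S ^ p, T ^ p))`
  have hftD : Algebra.FiniteType ℤ D := hD.ft (hB'.ft (hB.ft ft_plane))
  have hpD : (p : D) = 0 := hD.char (hB'.char (hB.char (char_plane hk)))
  obtain ⟨j, hj⟩ : ∃ j : B →+* D, j = j''.comp j' := ⟨_, rfl⟩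
  obtain ⟨S, hS⟩ : ∃ S : D, S = j'' S' := ⟨_, rfl⟩
  have hSp : S ^ p = j (i (MvPolynomial.X 0)) := by rw [hS, ← map_pow, hB'.rel, hj, RingHom.comp_apply]
  have hTp : T ^ p = j (i (MvPolynomial.X 1)) := by rw [hD.rel, hj, RingHom.comp_apply]
  obtain ⟨e, he⟩ : ∃ e : MvPolynomial (Fin 2) k →+* D, e = eval₂Hom (j.comp (i.comp MvPolynomial.C)) ![S, T] := ⟨_, rfl⟩
  have he0 : e (MvPolynomial.X 0) = S := by rw [he, MvPolynomial.eval₂Hom_X']; rfl
  have he1 : e (MvPolynomial.X 1) = T := by rw [he, MvPolynomial.eval₂Hom_X']; rfl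
  have heC : ∀ c, e (MvPolynomial.C c) = j (i (MvPolynomial.C c)) := fun c => by
    rw [he, MvPolynomial.eval₂Hom_C]; rfl
  have hee : e.comp (ex p k) = j.comp i := by
    apply MvPolynomial.ringHom_ext
    · intro c
      rw [RingHom.comp_apply, ex, MvPolynomial.eval₂Hom_C, heC, RingHom.comp_apply]
    · intro a
      rw [RingHom.comp_apply, ex, MvPolynomial.eval₂Hom_X', map_pow, RingHom.comp_apply]
      fin_cases a
      · exact (congrArg (· ^ p) he0).trans hSp
      · exact (congrArg (· ^ p) he1).trans hTp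
  have hnil : (j w ^ m - e g) ^ p = 0 := by
    rcases subsingleton_or_nontrivial D with h0 | h0
    · exact Subsingleton.elim _ _
    · have hch : CharP D p := (CharP.charP_iff_prime_eq_zero hpp.out).2 hpD
      rw [sub_pow_char, ← pow_mul, mul_comm m p, ← map_pow, hB.rel, ← map_pow e, ← hfg, ← RingHom.comp_apply e, hee,
        RingHom.comp_apply, sub_self]
  -- the reduced ring
  have hexC : ∀ c, ex p k (MvPolynomial.C c) = MvPolynomial.C c := fun c => by rw [ex, MvPolynomial.eval₂Hom_C]
  have hexX : ∀ a, ex p k (MvPolynomial.X a) = MvPolynomial.X a ^ p := fun a => by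
    rw [ex, MvPolynomial.eval₂Hom_X']
  obtain ⟨q0, q01, q02⟩ := hB.ex K (iK.comp (ex p k)) wK (by
    rw [mul_comm, pow_mul, hK.rel, ← map_pow, ← hfg, RingHom.comp_apply])
  obtain ⟨q1, q11, q12⟩ := hB'.ex K q0 (iK (MvPolynomial.X 0)) (by
    rw [← RingHom.comp_apply q0, q01, RingHom.comp_apply, hexX, map_pow])
  obtain ⟨q, q21, q22⟩ := hD.ex K q1 (iK (MvPolynomial.X 1)) (by
    rw [← RingHom.comp_apply q1, q11, ← RingHom.comp_apply q0, q01, RingHom.comp_apply, hexX, map_pow])
  have hqj : q.comp j = q0 := by rw [hj, ← RingHom.comp_assoc, q21, q11]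
  have hqji : ∀ a, q (j (i a)) = iK (ex p k a) := fun a => by
    have h3 := RingHom.congr_fun hqj (i a)
    rw [RingHom.comp_apply] at h3
    rw [h3, ← RingHom.comp_apply q0, q01, RingHom.comp_apply]
  have hqw : q (j w) = wK := by
    have h3 := RingHom.congr_fun hqj w
    rw [RingHom.comp_apply] at h3
    rw [h3, q02]
  have hqS : q S = iK (MvPolynomial.X 0) := by
    have h3 := RingHom.congr_fun q21 S'
    rw [RingHom.comp_apply] at h3
    rw [hS, h3, q12]
  have hqe : q.comp e = iK := by
    apply MvPolynomial.ringHom_ext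
    · intro c
      rw [RingHom.comp_apply, heC, hqji, hexC]
    · intro a
      rw [RingHom.comp_apply]
      fin_cases a
      · exact (congrArg q he0).trans hqS
      · exact (congrArg q he1).trans q22
  have hqe' : ∀ a, q (e a) = iK a := fun a => RingHom.congr_fun hqe a
  have hLC : IsLC q (Ideal.span {j w ^ m - e g}) 1 := by
    refine ⟨?_, ?_, ?_, ?_⟩
    · intro b hb
      obtain ⟨c, rfl⟩ := Ideal.mem_span_singleton'.1 hb
      rw [map_mul, map_sub, map_pow, hqw, hqe', hK.rel, sub_self, mul_zero]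
    · rw [map_one]; exact isUnit_one
    · intro E _ u hu _
      have h3 : u (j w) ^ m = (u.comp e) g := by
        have h4 := hu _ (Ideal.mem_span_singleton_self _)
        rw [map_sub, map_pow, sub_eq_zero] at h4
        exact h4
      obtain ⟨t, t1, t2⟩ := hK.ex E (u.comp e) (u (j w)) h3
      have t3 : ∀ a, t (iK a) = u (e a) := fun a => RingHom.congr_fun t1 a
      refine ⟨t, ?_⟩
      refine hD.uniq E _ _ ?_ ?_
      · refine hB'.uniq E _ _ ?_ ?_
        · have h5 : ((t.comp q).comp j'').comp j' = t.comp q0 := by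
            rw [RingHom.comp_assoc, RingHom.comp_assoc, ← hj, hqj]
          have h6 : (u.comp j'').comp j' = u.comp j := by rw [RingHom.comp_assoc, ← hj]
          rw [h5, h6]
          refine hB.uniq E _ _ ?_ ?_
          · rw [RingHom.comp_assoc, q01]
            refine RingHom.ext fun a => ?_
            rw [RingHom.comp_apply, RingHom.comp_apply, t3, ← RingHom.comp_apply e, hee, RingHom.comp_apply,
              RingHom.comp_apply, RingHom.comp_apply]
          · rw [RingHom.comp_apply, q02, t2, RingHom.comp_apply]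
        · rw [RingHom.comp_apply, RingHom.comp_apply, RingHom.comp_apply, ← hS, hqS, t3, he0]
      · rw [RingHom.comp_apply, q22, t3, he1]
    · intro E _ h3 h4 h5
      refine hK.uniq E _ _ ?_ ?_
      · rw [← hqe, ← RingHom.comp_assoc, h5, RingHom.comp_assoc]
      · rw [← hqw]
        exact RingHom.congr_fun h5 (j w)
  obtain ⟨e1⟩ := hLC.equiv (isLC_quot (j w ^ m - e g))
  refine hP.glue D (j w ^ m - e g) hftD hpD (hP.iso _ _ e1 hPK) (p_zero hP ?_)
  exact (IsLocalization.subsingleton_iff (M := Submonoid.powers (j w ^ m - e g))).2 ⟨p, hnil⟩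

/-! ### cylinders -/

theorem isKum_poly {R B : Type} [CommRing R] [CommRing B] {i : R →+* B} {w : B} {n : ℕ} {a : R}
    (hB : IsKum i w n a) : IsKum (mapRingHom i) (C w) n (C a) where
  rel := by rw [← C_pow, hB.rel, coe_mapRingHom, map_C]
  ex E _ v c h := by
    obtain ⟨t, t1, t2⟩ := hB.ex E (v.comp C) c h
    refine ⟨eval₂RingHom t (v X), ?_, ?_⟩
    · refine Polynomial.ringHom_ext' ?_ ?_
      · ext x
        have := RingHom.congr_fun t1 x
        simpa using this
      · simp
    · rw [coe_eval₂RingHom, eval₂_C, t2]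
  uniq E _ h h' h1 h2 := by
    refine Polynomial.ringHom_ext' ?_ ?_
    · refine hB.uniq E _ _ ?_ h2
      ext x
      have := RingHom.congr_fun h1 (C x)
      simpa using this
    · have := RingHom.congr_fun h1 X
      simpa using this

theorem cyl {k : Type} [Field k] [Finite k] (hP : FormalClass p P) (hk : (p : k) = 0) {n : ℕ} (hn : 0 < n)
    (g : k[X]) (e : k[X][X] ≃+* MvPolynomial (Fin 2) k) : P (Cyc n (e (C g))) := by
  have hfk : Algebra.FiniteType ℤ k := by
    have : Module.Finite ℤ k := Module.Finite.of_finite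
    infer_instance
  have hfX : Algebra.FiniteType ℤ k[X] := ft_alg hfk inferInstance
  have hpX : (p : k[X]) = 0 := by rw [← map_natCast (C : k →+* k[X]), hk, map_zero]
  have h1 : ringKrullDim k[X][X] = 2 := by
    rw [Polynomial.ringKrullDim_of_isNoetherianRing, Polynomial.ringKrullDim_of_isNoetherianRing,
      ringKrullDim_eq_zero_of_field]
    rfl
  have hm : (X ^ n - C g : k[X][X]).Monic := monic_X_pow_sub_C g hn.ne'
  have h2 := ringKrullDim_quotient_succ_le_of_nonZeroDivisor (mem_nonZeroDivisors_of_ne_zero hm.ne_zero)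
  rw [h1] at h2
  have h3 : ringKrullDim (AdjoinRoot (X ^ n - C g : k[X][X])) ≤ 1 := Pool.Agent.Helper87.CC.dim_le_one h2
  have hK := isKum_std n g
  have h4 : P (AdjoinRoot (X ^ n - C g : k[X][X])) := hP.curve _ (hK.ft hfX) (hK.char hpX) h3
  obtain ⟨e1⟩ := (isKum_poly hK).equiv e (isKum_std n (e (C g)))
  exact hP.iso _ _ e1 (hP.poly _ h4)

section coord

variable {k : Type} [Field k]

/-- the coordinates `y - c x`, `x` -/
noncomputable def eA (c : k) : k[X][X] ≃+* MvPolynomial (Fin 2) k :=
  RingEquiv.ofRingHom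
    (eval₂RingHom (eval₂RingHom MvPolynomial.C (MvPolynomial.X 1 - MvPolynomial.C c * MvPolynomial.X 0))
      (MvPolynomial.X 0))
    (eval₂Hom ((C : k[X] →+* k[X][X]).comp C) ![X, C X + C (C c) * X])
    (by
      apply MvPolynomial.ringHom_ext
      · intro a; simp
      · intro i
        fin_cases i
        · simp
        · simp)
    (by
      refine Polynomial.ringHom_ext' (Polynomial.ringHom_ext' ?_ ?_) ?_
      · ext a; simp
      · simp
      · simp)

/-- the coordinates `x`, `y` -/
noncomputable def eB : k[X][X] ≃+* MvPolynomial (Fin 2) k :=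
  RingEquiv.ofRingHom
    (eval₂RingHom (eval₂RingHom MvPolynomial.C (MvPolynomial.X 0)) (MvPolynomial.X 1))
    (eval₂Hom ((C : k[X] →+* k[X][X]).comp C) ![C X, X])
    (by
      apply MvPolynomial.ringHom_ext
      · intro a; simp
      · intro i
        fin_cases i
        · simp
        · simp)
    (by
      refine Polynomial.ringHom_ext' (Polynomial.ringHom_ext' ?_ ?_) ?_
      · ext a; simp
      · simp
      · simp)

theorem eA_C (c : k) (g : k[X]) : eA c (C g) =
    aeval (MvPolynomial.X 1 - MvPolynomial.C c * MvPolynomial.X 0 : MvPolynomial (Fin 2) k) g := by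
  have h : eA c (C g) = eval₂RingHom (eval₂RingHom MvPolynomial.C (MvPolynomial.X 1 -
      MvPolynomial.C c * MvPolynomial.X 0)) (MvPolynomial.X 0) (C g) := rfl
  rw [h, coe_eval₂RingHom, eval₂_C, coe_eval₂RingHom]
  rfl

theorem eB_C (g : k[X]) : (eB : k[X][X] ≃+* MvPolynomial (Fin 2) k) (C g) = aeval (MvPolynomial.X 0 : MvPolynomial (Fin 2) k) g := by
  have h : (eB : k[X][X] ≃+* MvPolynomial (Fin 2) k) (C g) = eval₂RingHom (eval₂RingHom MvPolynomial.C (MvPolynomial.X 0))
      (MvPolynomial.X 1) (C g) := rfl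
  rw [h, coe_eval₂RingHom, eval₂_C, coe_eval₂RingHom]
  rfl

theorem root_mem [Fintype k] {K : Type} [Field K] [Algebra k K] {θ : K} (h : θ ^ Fintype.card k = θ) :
    ∃ c : k, algebraMap k K c = θ := by
  have h1 : (X ^ Fintype.card k - X : k[X]) = ∏ a : k, (X - C a) := by
    have h2 := FiniteField.roots_X_pow_card_sub_X k
    have hm : (X ^ Fintype.card k - X : k[X]).Monic := by
      apply monic_X_pow_sub
      rw [degree_X]
      exact_mod_cast Fintype.one_lt_card
    have h3 : Multiset.card (X ^ Fintype.card k - X : k[X]).roots = (X ^ Fintype.card k - X : k[X]).natDegree := by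
      rw [h2, FiniteField.X_pow_card_sub_X_natDegree_eq k Fintype.one_lt_card]
      rfl
    have h4 := prod_multiset_X_sub_C_of_monic_of_roots_card_eq hm h3
    rw [h2] at h4
    exact h4.symm
  have h5 := congrArg (aeval θ) h1
  rw [map_sub, map_pow, aeval_X, h, sub_self, map_prod] at h5
  obtain ⟨a, -, ha⟩ := Finset.prod_eq_zero_iff.1 h5.symm
  rw [map_sub, aeval_X, aeval_C, sub_eq_zero] at ha
  exact ⟨a, ha.symm⟩

/-- a polynomial which is invariant under the translations in one direction -/
theorem exists_coord [Finite k] {K : Type} [Field K] [IsAlgClosed K] [Algebra k K] (f : MvPolynomial (Fin 2) k) (h : Cyl K f) :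
    ∃ (g : k[X]) (e : k[X][X] ≃+* MvPolynomial (Fin 2) k), f = e (C g) := by
  have := Fintype.ofFinite k
  obtain ⟨q, hq0, hq⟩ := h
  have hF : ∀ (x : Fin 2 → K) (t : K), MvPolynomial.aeval (fun i => x i + t * q i) f = MvPolynomial.aeval x f :=
    fun x t => hq K x t
  have hinj : Function.Injective (MvPolynomial.map (σ := Fin 2) (algebraMap k K)) :=
    MvPolynomial.map_injective _ (algebraMap k K).injective
  have hext : ∀ f₁ f₂ : MvPolynomial (Fin 2) k, (∀ x : Fin 2 → K, MvPolynomial.aeval x f₁ = MvPolynomial.aeval x f₂) → f₁ = f₂ := by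
    intro f₁ f₂ h
    apply hinj
    apply MvPolynomial.funext
    intro x
    rw [MvPolynomial.eval_map, MvPolynomial.eval_map]
    exact h x
  -- a polynomial in `y - c x`
  have caseA : ∀ c : k, (∀ (x : Fin 2 → K), MvPolynomial.aeval x f =
      MvPolynomial.aeval ![0, x 1 - algebraMap k K c * x 0] f) → ∃ (g : k[X]) (e : k[X][X] ≃+* MvPolynomial (Fin 2) k), f = e (C g) := by
    intro c hc
    refine ⟨MvPolynomial.aeval ![0, X] f, eA c, ?_⟩
    rw [eA_C]
    apply hext
    intro x
    rw [hc]
    have h1 : MvPolynomial.aeval x ((aeval (MvPolynomial.X 1 - MvPolynomial.C c * MvPolynomial.X 0 : MvPolynomial (Fin 2) k))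
        (MvPolynomial.aeval ![0, (X : k[X])] f)) =
        (((MvPolynomial.aeval x).comp (aeval (MvPolynomial.X 1 - MvPolynomial.C c * MvPolynomial.X 0 : MvPolynomial (Fin 2) k))).comp
          (MvPolynomial.aeval ![0, (X : k[X])])) f := rfl
    rw [h1]
    congr 1
    apply MvPolynomial.algHom_ext
    intro i
    fin_cases i
    · simp
    · simp
  have caseB : (∀ (x : Fin 2 → K), MvPolynomial.aeval x f = MvPolynomial.aeval ![x 0, 0] f) →
      ∃ (g : k[X]) (e : k[X][X] ≃+* MvPolynomial (Fin 2) k), f = e (C g) := by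
    intro hc
    refine ⟨MvPolynomial.aeval ![X, 0] f, eB, ?_⟩
    rw [eB_C]
    apply hext
    intro x
    rw [hc]
    have h1 : MvPolynomial.aeval x ((aeval (MvPolynomial.X 0 : MvPolynomial (Fin 2) k)) (MvPolynomial.aeval ![(X : k[X]), 0] f)) =
        (((MvPolynomial.aeval x).comp (aeval (MvPolynomial.X 0 : MvPolynomial (Fin 2) k))).comp
          (MvPolynomial.aeval ![(X : k[X]), 0])) f := rfl
    rw [h1]
    congr 1
    apply MvPolynomial.algHom_ext
    intro i
    fin_cases i
    · simp
    · simp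
  by_cases h0 : q 0 = 0
  · have h1 : q 1 ≠ 0 := by
      intro h1
      apply hq0
      funext i
      fin_cases i
      · exact h0
      · exact h1
    apply caseB
    intro x
    rw [← hF x (-(x 1 / q 1))]
    congr 1
    congr 1
    funext i
    fin_cases i
    · simp [h0]
    · simp [h1]
  · set φ : K →ₐ[k] K := FiniteField.frobeniusAlgHom k K with hφ
    have hφx : ∀ x : K, φ x = x ^ Fintype.card k := fun x => rfl
    have hsurj : ∀ x : K, ∃ y, φ y = x := fun x => by
      obtain ⟨y, hy⟩ := IsAlgClosed.exists_pow_nat_eq x (Fintype.card_pos (α := k))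
      exact ⟨y, hy⟩
    have hFφ : ∀ x : Fin 2 → K, MvPolynomial.aeval (fun i => φ (x i)) f = φ (MvPolynomial.aeval x f) := fun x => by
      rw [← AlgHom.comp_apply]
      congr 1
      apply MvPolynomial.algHom_ext
      intro i
      simp
    have hF' : ∀ (x : Fin 2 → K) (t : K), MvPolynomial.aeval (fun i => x i + t * φ (q i)) f =
        MvPolynomial.aeval x f := by
      intro x t
      obtain ⟨s, hs⟩ := hsurj t
      choose y hy using fun i => hsurj (x i)
      have h1 : (fun i => x i + t * φ (q i)) = fun i => φ (y i + s * q i) := by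
        funext i
        rw [map_add, map_mul, hy, hs]
      have h2 : x = fun i => φ (y i) := by
        funext i
        rw [hy]
      rw [h1, hFφ, hF, ← hFφ, ← h2]
    set θ : K := q 1 / q 0 with hθ
    by_cases hθ1 : θ ^ Fintype.card k = θ
    · obtain ⟨c, hc⟩ := root_mem hθ1
      apply caseA c
      intro x
      rw [← hF x (-(x 0 / q 0)), hc]
      congr 1
      congr 1
      funext i
      fin_cases i
      · simp [h0]
      · simp only [hθ, Fin.mk_one, Matrix.cons_val_one, Matrix.cons_val_zero]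
        field_simp
        ring
    · have hφ0 : φ (q 0) ≠ 0 := by
        rw [hφx]
        exact pow_ne_zero _ h0
      have hφθ : φ (q 1) = φ θ * φ (q 0) := by
        rw [← map_mul, hθ, div_mul_cancel₀ _ h0]
      apply caseB
      intro x
      -- translate by `a q + b φ(q)` with first coordinate zero and second coordinate `- x 1`
      have hd : φ θ - θ ≠ 0 := by
        rw [hφx]
        exact sub_ne_zero.2 hθ1
      set b : K := -(x 1) / ((φ θ - θ) * φ (q 0)) with hb
      set a : K := (x 1) / ((φ θ - θ) * q 0) with ha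
      rw [← hF x a, ← hF' _ b]
      congr 1
      congr 1
      funext i
      fin_cases i
      · simp only [Fin.zero_eta, Matrix.cons_val_zero, ha, hb]
        field_simp
        ring
      · simp only [Fin.mk_one, Matrix.cons_val_one, Matrix.cons_val_zero, ha, hb, hφθ]
        have hq1 : q 1 = θ * q 0 := by rw [hθ, div_mul_cancel₀ _ h0]
        rw [hq1]
        field_simp
        ring

end coord

/-- **(Z)** the reduction -/
theorem reduction {p : ℕ} (hp : p.Prime) {P : ∀ (A : Type) [CommRing A], Prop} (hP : FormalClass p P)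
    (h : ∀ (k : Type) [Field k] [Finite k] [CharP k p] (f : MvPolynomial (Fin 2) k),
      f.totalDegree ≤ 4 →
      (∀ (K : Type) [Field K] [IsAlgClosed K] [Algebra k K], ¬ Cyl K f) →
      ∀ n : ℕ, 0 < n → P (Thr n f))
    (k : Type) [Field k] [Finite k] [CharP k p] (f : MvPolynomial (Fin 2) k)
    (hf : f.totalDegree ≤ 4) (n : ℕ) (hn : 0 < n) : P (Cyc n f) := by
  have hpp : Fact p.Prime := ⟨hp⟩
  have hk : (p : k) = 0 := CharP.cast_eq_zero k p
  induction n using Nat.strong_induction_on generalizing f with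
  | _ n ih =>
  by_cases hpn : p ∣ n
  · obtain ⟨m, rfl⟩ := hpn
    have hm : 0 < m := Nat.pos_of_mul_pos_left hn
    obtain ⟨φ, hφ⟩ := ex_root hk f
    have hg : (MvPolynomial.map φ f).totalDegree ≤ 4 :=
      (Finset.sup_mono (MvPolynomial.support_map_subset φ f)).trans hf
    exact insep hP hk f _ hφ (ih m (by nlinarith [hp.two_le]) _ hg hm)
  · by_cases hc : ∀ (K : Type) [Field K] [IsAlgClosed K] [Algebra k K], ¬ Cyl K f
    · refine kum_plane hP hk hpn ?_ (h k f hf hc n hn)
      rintro rfl
      apply hc (AlgebraicClosure k)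
      refine ⟨fun _ => 1, fun h => one_ne_zero (congrFun h 0), ?_⟩
      intro R _ _ _ _ x t
      rw [map_zero, map_zero]
    · push Not at hc
      obtain ⟨K, hK1, hK2, hK3, hc⟩ := hc
      obtain ⟨g, e, rfl⟩ := exists_coord f hc
      exact cyl hP hk hn g e

end Pool.Agent.Helper67.CQ
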