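import Pool.Agent.Helper67.CQ.Comp2

/-!
# Basic hypersurfaces
-/

set_option autoImplicit false

namespace Pool.Agent.Helper67.CQ

open Pool.Agent.Helper87.CC (IsLC ft_of_surj ft_alg ft_loc Tame dim_le_one)
open Pool.Agent.Helper29.CQ (FormalClass Cyc)
open MvPolynomial (eval₂ eval₂Hom IsWeightedHomogeneous rename C X monomial)
open TensorProduct

variable {p : ℕ} {P : ∀ (A : Type) [CommRing A], Prop}

theorem subst_degree {k ι κ : Type} [Field k] [Fintype ι] (v : ι → MvPolynomial κ k) (hv : ∀ i, (v i).totalDegree ≤ 1)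
    (F : MvPolynomial ι k) : (eval₂ C v F : MvPolynomial κ k).totalDegree ≤ F.totalDegree := by
  rw [MvPolynomial.eval₂_eq']
  refine (MvPolynomial.totalDegree_finsetSum _ _).trans (Finset.sup_le fun m hm => ?_)
  refine (MvPolynomial.totalDegree_mul _ _).trans ?_
  rw [MvPolynomial.totalDegree_C, zero_add]
  refine (MvPolynomial.totalDegree_finsetProd _ _).trans ?_
  have h1 : ∀ i, (v i ^ m i).totalDegree ≤ m i := by
    intro i
    refine (MvPolynomial.totalDegree_pow _ _).trans ?_
    calc m i * (v i).totalDegree ≤ m i * 1 := Nat.mul_le_mul_left _ (hv i)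
      _ = m i := mul_one _
  refine (Finset.sum_le_sum fun i _ => h1 i).trans ?_
  have h3 := MvPolynomial.le_totalDegree hm
  rw [Finsupp.sum_fintype _ _ (fun _ => rfl)] at h3
  exact h3

theorem restr_degree {k : Type} [Field k] {s s' : ℕ} (ι : Fin s' → Fin s) (h : MvPolynomial (Fin s) k) :
    (restr ι h).totalDegree ≤ h.totalDegree := by
  refine subst_degree _ (fun i => ?_) h
  split_ifs with hi
  · exact (MvPolynomial.totalDegree_X _).le
  · rw [MvPolynomial.totalDegree_zero]
    exact Nat.zero_le 1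

theorem card_le {s s' : ℕ} {ι : Fin s' → Fin s} (hι : Function.Injective ι) : s' ≤ s := by
  have h := Fintype.card_le_of_injective ι hι
  simpa using h

section

variable {k : Type} [Field k] [Finite k]

theorem mem_three (hP : FormalClass p P) (hk : (p : k) = 0) {s : ℕ} (hs : s ≤ 3) {h : MvPolynomial (Fin s) k}
    (hh : P (MvPolynomial (Fin s) k ⧸ Ideal.span {h})) : Mem P h :=
  ⟨hh, fun _ _ hs' _ => p_two hP hk (by omega) _⟩

theorem mem_two (hP : FormalClass p P) (hk : (p : k) = 0) {s : ℕ} (hs : s ≤ 2) (h : MvPolynomial (Fin s) k) :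
    Mem P h := mem_three hP hk (by omega) (p_two hP hk hs h)

theorem mem_quadric (hp : p.Prime) (hP : FormalClass p P) (hk : (p : k) = 0) {s : ℕ} {h : MvPolynomial (Fin s) k}
    (hh : h.totalDegree ≤ 2) : Mem P h :=
  ⟨p_quadric hp hP hk h hh, fun _ ι _ _ => p_quadric hp hP hk _ ((restr_degree ι h).trans hh)⟩

theorem p_cubic (hp : p.Prime) (hP : FormalClass p P) (hk : (p : k) = 0) {s : ℕ} (hs : s ≤ 4)
    {h : MvPolynomial (Fin s) k} (hh : h.totalDegree ≤ 3) : P (MvPolynomial (Fin s) k ⧸ Ideal.span {h}) :=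
  of_tame hp hP (Pool.Agent.Helper87.CC.tameClosed_tame.cubic k s h hs hh) (char_quot (char_mv hk) _)

theorem mem_cubic (hp : p.Prime) (hP : FormalClass p P) (hk : (p : k) = 0) {s : ℕ} (hs : s ≤ 4)
    {h : MvPolynomial (Fin s) k} (hh : h.totalDegree ≤ 3) : Mem P h :=
  ⟨p_cubic hp hP hk hs hh, fun _ ι hs' _ => p_cubic hp hP hk (by omega) ((restr_degree ι h).trans hh)⟩

omit [Finite k] in
theorem prod_const [Finite k] (hp : p.Prime) (hk : (p : k) = 0) {J : Type} (cc : J → k) :
    Pool.Agent.Helper87.CC.ProductFunctions p J k cc := by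
  have hpp : Fact p.Prime := ⟨hp⟩
  have hfk : Algebra.FiniteType ℤ k := by
    have : Module.Finite ℤ k := Module.Finite.of_finite
    infer_instance
  have hd : ringKrullDim k ≤ 1 := by
    rw [ringKrullDim_eq_zero_of_field]
    exact zero_le_one
  have h4 := Pool.Agent.Helper87.CC.ProductFunctions.tensor (ZMod p) k (fun _ => 1) cc
    Pool.Agent.Helper87.CC.ProductFunctions.one hfk hd
  have hch : CharP k p := (CharP.charP_iff_prime_eq_zero hp).2 hk
  have h : Pool.Agent.Helper87.CC.IsTen (ZMod.castHom (dvd_refl p) k) (RingHom.id k) := by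
    refine ⟨?_, ?_⟩
    · intro E _ f g
      exact ⟨g, RingHom.ext_zmod _ _, RingHom.comp_id g⟩
    · intro E _ u v _ h2
      rwa [RingHom.comp_id, RingHom.comp_id] at h2
  obtain ⟨e1, h11, h12⟩ := (Pool.Agent.Helper87.CC.isTen (ZMod p) k).equiv h
  have h5 := Pool.Agent.Helper87.CC.ProductFunctions.iso _ _ _ e1 h4
  have h6 : (fun j => e1 ((1 : ZMod p) ⊗ₜ[ℤ] cc j)) = cc := by
    funext j
    exact h12 (cc j)
  rw [h6] at h5
  exact h5

theorem p_simplex (hp : p.Prime) (hP : FormalClass p P) (hk : (p : k) = 0) {r : ℕ} {J : Type} [Fintype J]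
    (α : J → Fin r →₀ ℕ) (hα : AffineIndependent ℚ (fun (j : J) (i : Fin r) => ((α j i : ℕ) : ℚ))) (cc : J → k) :
    P (MvPolynomial (Fin r) k ⧸ Ideal.span {∑ j, monomial (α j) (cc j)}) := by
  have hpp : Fact p.Prime := ⟨hp⟩
  exact of_tame hp hP (Pool.Agent.Helper87.CC.tameClosed_tame.simplex p J r α hα k cc (prod_const hp hk cc))
    (char_quot (char_mv hk) _)

/-- the exponents of `h` are affinely independent -/
def Simplex {k : Type} [Field k] {s : ℕ} (h : MvPolynomial (Fin s) k) : Prop :=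
  AffineIndependent ℚ (fun (m : h.support) (i : Fin s) => (((m : Fin s →₀ ℕ) i : ℕ) : ℚ))

omit [Finite k] in
theorem restr_eq {s s' : ℕ} {ι : Fin s' → Fin s} (hι : Function.Injective ι) (h : MvPolynomial (Fin s) k)
    {J : Type} [Fintype J] (e : J → h.support) (he : Function.Injective e)
    (he2 : ∀ m : h.support, (∃ j, e j = m) ↔ ∀ i, (¬ ∃ j, ι j = i) → (m : Fin s →₀ ℕ) i = 0)
    (α : J → Fin s' →₀ ℕ) (hα : ∀ j i, α j i = (e j : Fin s →₀ ℕ) (ι i)) :
    restr ι h = ∑ j, monomial (α j) (h.coeff (e j)) := by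
  classical
  rw [restr, MvPolynomial.eval₂_eq']
  set v : Fin s → MvPolynomial (Fin s') k := fun i => if hi : ∃ j, ι j = i then X hi.choose else 0 with hv
  have hv1 : ∀ j, v (ι j) = X j := by
    intro j
    have h2 : ∃ j', ι j' = ι j := ⟨j, rfl⟩
    rw [hv]
    simp only
    rw [dif_pos h2]
    exact congrArg X (hι h2.choose_spec)
  have hv2 : ∀ i, (¬ ∃ j, ι j = i) → v i = 0 := by
    intro i hi
    rw [hv]
    simp only
    rw [dif_neg hi]
  have h1 : ∑ m ∈ h.support, C (h.coeff m) * ∏ i, v i ^ m i =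
      ∑ m : h.support, C (h.coeff m) * ∏ i, v i ^ (m : Fin s →₀ ℕ) i :=
    (Finset.sum_coe_sort h.support (fun m => (C (h.coeff m) * ∏ i, v i ^ m i : MvPolynomial (Fin s') k))).symm
  rw [h1]
  have h2 : ∀ j : J, (C (h.coeff (e j)) * ∏ i, v i ^ (e j : Fin s →₀ ℕ) i : MvPolynomial (Fin s') k) =
      monomial (α j) (h.coeff (e j)) := by
    intro j
    have h3 : ∏ i, v i ^ (e j : Fin s →₀ ℕ) i = ∏ i : Fin s', (X i : MvPolynomial (Fin s') k) ^ α j i := by
      rw [← Finset.prod_subset (Finset.subset_univ (Finset.univ.image ι))]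
      · rw [Finset.prod_image (fun a _ b _ hab => hι hab)]
        exact Finset.prod_congr rfl fun i _ => by rw [hv1, hα]
      · intro i _ hi
        have hi' : ¬ ∃ j, ι j = i := by
          rintro ⟨j, rfl⟩
          exact hi (Finset.mem_image_of_mem _ (Finset.mem_univ j))
        rw [((he2 (e j)).1 ⟨j, rfl⟩) i hi', pow_zero]
    rw [h3, MvPolynomial.monomial_eq, Finsupp.prod_fintype _ _ (fun _ => pow_zero _)]
  rw [← Finset.sum_congr rfl fun j _ => h2 j]
  rw [← Finset.sum_subset (Finset.subset_univ (Finset.univ.image e))]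
  · rw [Finset.sum_image (fun a _ b _ hab => he hab)]
  · intro m _ hm
    have hm' : ¬ ∃ j, e j = m := by
      rintro ⟨j, rfl⟩
      exact hm (Finset.mem_image_of_mem _ (Finset.mem_univ j))
    rw [he2] at hm'
    push Not at hm'
    obtain ⟨i, hi1, hi2⟩ := hm'
    have h4 : ¬ ∃ j, ι j = i := by
      push Not
      exact hi1
    rw [Finset.prod_eq_zero (Finset.mem_univ i) (by rw [hv2 i h4, zero_pow hi2]), mul_zero]

theorem mem_simplex (hp : p.Prime) (hP : FormalClass p P) (hk : (p : k) = 0) {s : ℕ} {h : MvPolynomial (Fin s) k}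
    (hh : Simplex h) : Mem P h := by
  classical
  constructor
  · have h1 := p_simplex hp hP hk (fun m : h.support => (m : Fin s →₀ ℕ)) hh (fun m => h.coeff m)
    rw [Finset.sum_coe_sort h.support (fun m => (monomial m (h.coeff m) : MvPolynomial (Fin s) k)),
      MvPolynomial.support_sum_monomial_coeff] at h1
    exact h1
  · intro s' ι _ hι
    let J := {m : h.support // ∀ i, (¬ ∃ j, ι j = i) → (m : Fin s →₀ ℕ) i = 0}
    let α : J → Fin s' →₀ ℕ := fun j => Finsupp.equivFunOnFinite.symm fun i => (j.1 : Fin s →₀ ℕ) (ι i)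
    have hα : ∀ j i, α j i = (j.1 : Fin s →₀ ℕ) (ι i) := fun j i => rfl
    rw [restr_eq hι h (J := J) (fun j => j.1) Subtype.val_injective (fun m =>
      ⟨by rintro ⟨j, rfl⟩; exact j.2, fun hm => ⟨⟨m, hm⟩, rfl⟩⟩) α hα]
    refine p_simplex hp hP hk α ?_ _
    rw [Simplex, affineIndependent_iff] at hh
    rw [affineIndependent_iff]
    intro S w hw0 hw1 j hj
    set w' : h.support → ℚ := fun m => if hm : ∃ j : J, j.1 = m then w hm.choose else 0 with hw'
    have hw'1 : ∀ j : J, w' j.1 = w j := by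
      intro j
      have h2 : ∃ j' : J, j'.1 = j.1 := ⟨j, rfl⟩
      rw [hw']
      simp only
      rw [dif_pos h2]
      exact congrArg w (Subtype.val_injective h2.choose_spec)
    have h3 := hh (S.image fun j => j.1) w' (by
      rw [Finset.sum_image (fun a _ b _ hab => Subtype.val_injective hab)]
      exact (Finset.sum_congr rfl fun j _ => hw'1 j).trans hw0) (by
      rw [Finset.sum_image (fun a _ b _ hab => Subtype.val_injective hab)]
      funext i
      rw [Finset.sum_apply, Pi.zero_apply]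
      by_cases hi : ∃ j, ι j = i
      · obtain ⟨i', rfl⟩ := hi
        have h4 := congrFun hw1 i'
        rw [Finset.sum_apply, Pi.zero_apply] at h4
        rw [← h4]
        refine Finset.sum_congr rfl fun j _ => ?_
        rw [hw'1]
        rfl
      · refine Finset.sum_eq_zero fun j _ => ?_
        rw [Pi.smul_apply, j.2 i hi, Nat.cast_zero, smul_zero]) j.1 (Finset.mem_image_of_mem _ hj)
    rw [hw'1] at h3
    exact h3

end

end Pool.Agent.Helper67.CQ
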