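import Pool.Agent.Helper67.CQ.Join

/-!
# Adding a weighted homogeneous polynomial in new variables, integral weights
-/

set_option autoImplicit false

namespace Pool.Agent.Helper67.CQ

open Pool.Agent.Helper87.CC (IsLC ft_of_surj ft_alg ft_loc)
open Pool.Agent.Helper29.CQ (FormalClass)
open MvPolynomial (eval₂ eval₂Hom IsWeightedHomogeneous)

variable {p : ℕ} {P : ∀ (A : Type) [CommRing A], Prop}

/-- weighted homogeneity, integral weights -/
theorem whomZ {k σ E : Type} [Field k] [Fintype σ] [CommRing E] {w : σ → ℤ} {d : ℕ} {g : MvPolynomial σ k}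
    (hg : IsWeightedHomogeneous w g (d : ℤ)) (u : k →+* E) (t : Eˣ) (y : σ → E) :
    eval₂ u (fun i => ((t ^ w i : Eˣ) : E) * y i) g = (t : E) ^ d * eval₂ u y g := by
  rw [MvPolynomial.eval₂_eq', MvPolynomial.eval₂_eq', Finset.mul_sum]
  refine Finset.sum_congr rfl fun m hm => ?_
  have h1 : Finsupp.weight w m = (d : ℤ) := hg (MvPolynomial.mem_support_iff.1 hm)
  have h3 : ∏ i, (t ^ w i) ^ m i = t ^ d := by
    have h4 : ∀ i, (t ^ w i) ^ m i = t ^ (w i * (m i : ℤ)) := fun i => by
      rw [zpow_mul, zpow_natCast]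
    rw [Finset.prod_congr rfl fun i _ => h4 i]
    have h5 : ∀ s : Finset σ, ∏ i ∈ s, t ^ (w i * (m i : ℤ)) = t ^ (∑ i ∈ s, w i * (m i : ℤ)) := by
      classical
      intro s
      induction s using Finset.induction_on with
      | empty => simp
      | insert i s hi ih => rw [Finset.prod_insert hi, Finset.sum_insert hi, ih, zpow_add]
    rw [h5]
    have h6 : ∑ i, w i * (m i : ℤ) = (d : ℤ) := by
      rw [← h1, Finsupp.weight_apply, Finsupp.sum_fintype _ _ (by simp)]
      exact Finset.sum_congr rfl fun i _ => by rw [nsmul_eq_mul, mul_comm]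
    rw [h6, zpow_natCast]
  have h2 : ∏ i, (((t ^ w i : Eˣ) : E) * y i) ^ m i = (t : E) ^ d * ∏ i, y i ^ m i := by
    simp only [mul_pow, Finset.prod_mul_distrib]
    congr 1
    have h7 := congrArg (fun s : Eˣ => (s : E)) h3
    simp only [Units.coe_prod, Units.val_pow_eq_pow_val] at h7
    exact h7
  rw [h2]
  ring

/-- the open part `b ≠ 0`, after the cover `lam ^ d = - b` -/
theorem tk_openZ {k B σ J B' L J' J'' W : Type} [Field k] [CommRing B] [Algebra k B] [CommRing J] [CommRing B']
    [CommRing L] [Algebra k L] [CommRing J'] [CommRing J''] [CommRing W] [Algebra k W] [Fintype σ] {w : σ → ℤ} {d : ℕ}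
    (hd : d ≠ 0) {i : B →+* J} {x : σ → J} {b : B} {g : MvPolynomial σ k} (hg : IsWeightedHomogeneous w g (d : ℤ))
    (hJ : IsJ i x b g) {φ : B →+* B'} (hφ : IsLC φ ⊥ b) {iL : B' →+* L} {lam : L} (hL : IsKum iL lam d (φ (-b)))
    (hLk : (iL.comp φ).comp (algebraMap k B) = algebraMap k L) {r : J →+* J'} (hr : IsLC r ⊥ (i b))
    {o : J' →+* J''} {mu : J''} (ho : IsKum o mu d (r (i (-b)))) {yW : σ → W}
    (hW : IsHyp (algebraMap k W) yW (g - 1)) : ∃ (iX : L →+* J'') (jX : W →+* J''), IsTK k iX jX := by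
  have hub : IsUnit (o (r (i b))) := hr.unit.map o
  have hmu : mu ^ d = -(o (r (i b))) := by rw [ho.rel, map_neg, map_neg, map_neg]
  have hmuu : IsUnit mu := by
    refine (isUnit_pow_iff hd).1 ?_
    rw [hmu]
    exact hub.neg
  obtain ⟨Mu, hMu⟩ := hmuu
  -- `B' → J'`
  obtain ⟨s, hs⟩ := hφ.ex J' (r.comp i) (fun c hc => by rw [Ideal.mem_bot.1 hc, map_zero]) hr.unit
  obtain ⟨iX, hiX, hiX2⟩ := hL.ex J'' (o.comp s) mu (by
    rw [RingHom.comp_apply, ← RingHom.comp_apply s, hs, RingHom.comp_apply, hmu, map_neg, map_neg, map_neg])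
  have hiXφ : ∀ a, iX (iL (φ a)) = o (r (i a)) := by
    intro a
    rw [← RingHom.comp_apply iX, hiX, RingHom.comp_apply, ← RingHom.comp_apply s, hs, RingHom.comp_apply]
  set cJ : k →+* J'' := ((o.comp r).comp i).comp (algebraMap k B) with hcJ
  have hgx : eval₂ cJ (fun a => o (r (x a))) g = mu ^ d := by
    have h1 := congrArg (o.comp r) hJ.rel
    rw [map_add, map_zero, eval₂_comp_hom, ← RingHom.comp_assoc] at h1
    have h2 : (o.comp r) (i b) = o (r (i b)) := rfl
    rw [h2] at h1
    rw [hmu]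
    exact (neg_eq_of_add_eq_zero_right h1).symm
  obtain ⟨jX, hj1, hj2⟩ := hW.ex J'' cJ (fun a => (((Mu⁻¹) ^ w a : J''ˣ) : J'') * o (r (x a))) (by
    rw [MvPolynomial.eval₂_sub, whomZ hg, hgx, ← hMu, ← mul_pow, Units.inv_mul, one_pow, MvPolynomial.eval₂_one,
      sub_self])
  have hgW : eval₂ (algebraMap k W) yW g = 1 := by
    have h1 := hW.rel
    rw [MvPolynomial.eval₂_sub, MvPolynomial.eval₂_one, sub_eq_zero] at h1
    exact h1
  refine ⟨iX, jX, ?_, ?_, ?_⟩
  · intro t
    have h1 := RingHom.congr_fun hj1 t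
    rw [RingHom.comp_apply] at h1
    rw [h1, ← hLk, RingHom.comp_apply, RingHom.comp_apply, hiXφ]
    rfl
  · intro E _ u v huv
    have h2 : ((u.comp iL).comp φ).comp (algebraMap k B) = v.comp (algebraMap k W) := by
      have h3 : ((u.comp iL).comp φ).comp (algebraMap k B) = u.comp ((iL.comp φ).comp (algebraMap k B)) := rfl
      rw [h3, hLk]
      exact RingHom.ext huv
    have hlam : u lam ^ d = -(u (iL (φ b))) := by
      rw [← map_pow, hL.rel, map_neg, map_neg, map_neg]
    have hlamu : IsUnit (u lam) := by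
      refine (isUnit_pow_iff hd).1 ?_
      rw [hlam]
      exact ((hφ.unit.map iL).map u).neg
    obtain ⟨Lam, hLam⟩ := hlamu
    obtain ⟨t, t1, t2⟩ := hJ.ex E ((u.comp iL).comp φ) (fun a => ((Lam ^ w a : Eˣ) : E) * v (yW a)) (by
      rw [h2, whomZ hg, ← eval₂_comp_hom, hgW, map_one, mul_one, hLam, hlam]
      exact add_neg_cancel _)
    have htb : IsUnit (t (i b)) := by
      rw [← RingHom.comp_apply, t1]
      exact hφ.unit.map (u.comp iL)
    obtain ⟨t', ht'⟩ := hr.ex E t (fun c hc => by rw [Ideal.mem_bot.1 hc, map_zero]) htb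
    have ht'i : ∀ a, t' (r (i a)) = u (iL (φ a)) := by
      intro a
      rw [← RingHom.comp_apply t', ht', ← RingHom.comp_apply t, t1]
      rfl
    obtain ⟨h, h3, h4⟩ := ho.ex E t' (u lam) (by rw [ht'i, hlam, map_neg, map_neg, map_neg])
    have h5 : ∀ a, h (o (r a)) = t a := by
      intro a
      rw [← RingHom.comp_apply h, h3, ← RingHom.comp_apply t', ht']
    have h6 : Units.map (h : J'' →* E) Mu = Lam := by
      apply Units.ext
      rw [Units.coe_map, hLam, ← h4, ← hMu]
      rfl
    refine ⟨h, ?_, ?_⟩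
    · refine hL.uniq E _ _ ?_ ?_
      · apply hφ.uniq
        ext a
        change h (iX (iL (φ a))) = u (iL (φ a))
        rw [hiXφ, ← ht'i, ← RingHom.comp_apply h, h3]
      · rw [RingHom.comp_apply, hiX2, h4]
    · refine hW.uniq E _ _ ?_ ?_
      · rw [RingHom.comp_assoc, hj1, ← h2]
        ext a
        change h (o (r (i (algebraMap k B a)))) = u (iL (φ (algebraMap k B a)))
        rw [← ht'i, ← RingHom.comp_apply h, h3]
      · intro a
        have h7 : h (((Mu⁻¹) ^ w a : J''ˣ) : J'') = ((Lam⁻¹ ^ w a : Eˣ) : E) := by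
          have h8 : Units.map (h : J'' →* E) ((Mu⁻¹) ^ w a) = Lam⁻¹ ^ w a := by
            rw [map_zpow, map_inv, h6]
          rw [← h8]
          rfl
        rw [RingHom.comp_apply, hj2, map_mul, h7, h5, t2, ← mul_assoc, ← Units.val_mul, ← mul_zpow, inv_mul_cancel,
          one_zpow, Units.val_one, one_mul]
  · intro E _ h h' h1 h2
    have h3 : ∀ a, h (iX a) = h' (iX a) := fun a => RingHom.congr_fun h1 a
    have h4 : h mu = h' mu := by rw [← hiX2, h3]
    refine ho.uniq E _ _ ?_ h4
    apply hr.uniq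
    refine hJ.uniq E _ _ ?_ ?_
    · ext a
      change h (o (r (i a))) = h' (o (r (i a)))
      rw [← hiXφ, h3]
    · intro a
      change h (o (r (x a))) = h' (o (r (x a)))
      have h5 : o (r (x a)) = ((Mu ^ w a : J''ˣ) : J'') * jX (yW a) := by
        rw [hj2, ← mul_assoc, ← Units.val_mul, ← mul_zpow, mul_inv_cancel, one_zpow, Units.val_one, one_mul]
      have h6 : h (jX (yW a)) = h' (jX (yW a)) := RingHom.congr_fun h2 (yW a)
      have h9 : Units.map (h : J'' →* E) Mu = Units.map (h' : J'' →* E) Mu := by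
        apply Units.ext
        rw [Units.coe_map, Units.coe_map, hMu]
        exact h4
      have h7 : h ((Mu ^ w a : J''ˣ) : J'') = h' ((Mu ^ w a : J''ˣ) : J'') := by
        have h8 : Units.map (h : J'' →* E) (Mu ^ w a) = Units.map (h' : J'' →* E) (Mu ^ w a) := by
          rw [map_zpow, map_zpow, h9]
        exact congrArg (fun s : Eˣ => (s : E)) h8
      rw [h5, map_mul, map_mul, h7, h6]

/-- adding a weighted homogeneous polynomial in new variables -/
theorem joinZ (hP : FormalClass p P) {k : Type} [Field k] [Finite k] {B : Type} [CommRing B] [Algebra k B]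
    (hft : Algebra.FiniteType ℤ B) (hp : (p : B) = 0) (b : B) {σ : Type} [Fintype σ] {w : σ → ℤ} {d : ℕ} (hd : d ≠ 0)
    {g : MvPolynomial σ k} (hg : IsWeightedHomogeneous w g (d : ℤ)) (h0 : P (MvPolynomial σ k ⧸ Ideal.span {g}))
    (h1 : P (MvPolynomial σ k ⧸ Ideal.span {g - 1})) (hb : P (B ⧸ Ideal.span {b}))
    (hL : P (AdjoinRoot (Polynomial.X ^ d - Polynomial.C (-b) : Polynomial B))) {J : Type} [CommRing J] {i : B →+* J}
    {x : σ → J} (hJ : IsJ i x b g) : P J := by
  have hftJ : Algebra.FiniteType ℤ J := by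
    have h2 : Algebra.FiniteType ℤ (MvPolynomial σ B) := ft_alg hft inferInstance
    obtain ⟨r, r1, r2⟩ := (isJ_std b g).ex J i x hJ.rel
    refine ft_of_surj h2 (r.comp (Ideal.Quotient.mk _)) ?_
    obtain ⟨t, t1, t2⟩ := hJ.ex _ _ _ (isJ_std b g).rel
    have h3 : r.comp t = RingHom.id J := by
      refine hJ.uniq _ _ _ ?_ ?_
      · rw [RingHom.comp_assoc, t1, r1, RingHom.id_comp]
      · intro a
        rw [RingHom.comp_apply, t2, r2, RingHom.id_apply]
    intro y
    obtain ⟨z, hz⟩ := Ideal.Quotient.mk_surjective (t y)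
    refine ⟨z, ?_⟩
    rw [RingHom.comp_apply, hz]
    exact RingHom.congr_fun h3 y
  have hpJ : (p : J) = 0 := by rw [← map_natCast i, hp, map_zero]
  have hW0 : IsHyp (algebraMap k (MvPolynomial σ k ⧸ Ideal.span {g})) _ g := isHyp_std g
  have hW1 : IsHyp (algebraMap k (MvPolynomial σ k ⧸ Ideal.span {g - 1})) _ (g - 1) := isHyp_std (g - 1)
  -- the closed part `b = 0`
  have hclosed : P (J ⧸ Ideal.span {i b}) := by
    obtain ⟨iX, jX, hX⟩ := tk_closed hJ (φ := Ideal.Quotient.mk (Ideal.span {b})) rfl (isLC_quot b) hW0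
      (isLC_quot (i b))
    exact p_tk hP hX hb h0
  -- the open part `b ≠ 0`
  have hφ := isLC_away b
  have hφn : IsLC (algebraMap B (Localization.Away b)) ⊥ (-b) := by
    refine ⟨hφ.zero, ?_, ?_, hφ.uniq⟩
    · rw [map_neg]
      exact hφ.unit.neg
    · intro E _ v hv hvu
      refine hφ.ex E v hv ?_
      rw [map_neg] at hvu
      exact neg_neg (v b) ▸ hvu.neg
  have hbn : P (B ⧸ Ideal.span {-b}) := by
    rw [Ideal.span_singleton_neg]
    exact hb
  have hLK := isKum_std d (algebraMap B (Localization.Away b) (-b))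
  have hL' := kum_open hP (isKum_std d (-b)) hd hφn hLK hbn hL
  have hr := isLC_away (i b)
  have htr := adjoin_transfer hP (ft_loc hftJ (i b)) hd (algebraMap J (Localization.Away (i b)) (i (-b)))
  have hopen : P (Localization.Away (i b)) := by
    apply htr
    let _ : Algebra k (AdjoinRoot (Polynomial.X ^ d - Polynomial.C (algebraMap B (Localization.Away b) (-b)) :
      Polynomial (Localization.Away b))) := (((AdjoinRoot.of (Polynomial.X ^ d - Polynomial.C
        (algebraMap B (Localization.Away b) (-b)) : Polynomial (Localization.Away b))).comp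
        (algebraMap B (Localization.Away b))).comp (algebraMap k B)).toAlgebra
    obtain ⟨iX, jX, hX⟩ := tk_openZ hd hg hJ hφ hLK rfl hr (isKum_std d _) hW1
    exact p_tk hP hX hL' h1
  exact hP.glue J (i b) hftJ hpJ hclosed hopen

end Pool.Agent.Helper67.CQ
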