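import Pool.Agent.Helper67.CQ.Join2
import Pool.Agent.Helper67.CQ.JoinZ

/-!
# Affine spaces, plane curves, quadrics, dehomogenisation
-/

set_option autoImplicit false

namespace Pool.Agent.Helper67.CQ

open Pool.Agent.Helper87.CC (IsLC ft_of_surj ft_alg ft_loc Tame dim_le_one)
open Pool.Agent.Helper29.CQ (FormalClass Cyc)
open MvPolynomial (eval₂ eval₂Hom IsWeightedHomogeneous IsHomogeneous rename C X monomial)

variable {p : ℕ} {P : ∀ (A : Type) [CommRing A], Prop}

section

variable {k : Type} [Field k] [Finite k]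

/-- affine spaces -/
theorem p_mv (hP : FormalClass p P) (hk : (p : k) = 0) (r : ℕ) : P (MvPolynomial (Fin r) k) := by
  induction r with
  | zero =>
    refine hP.curve _ ft_mv (char_mv hk) ?_
    rw [MvPolynomial.ringKrullDim_of_isNoetherianRing, ringKrullDim_eq_zero_of_field]
    simp
  | succ r ih => exact hP.iso _ _ (MvPolynomial.finSuccEquiv k r).symm.toRingEquiv (hP.poly _ ih)

/-- plane curves -/
theorem p_two (hP : FormalClass p P) (hk : (p : k) = 0) {r : ℕ} (hr : r ≤ 2) (G : MvPolynomial (Fin r) k) :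
    P (MvPolynomial (Fin r) k ⧸ Ideal.span {G}) := by
  have hft : Algebra.FiniteType ℤ (MvPolynomial (Fin r) k ⧸ Ideal.span {G}) :=
    ft_of_surj ft_mv (Ideal.Quotient.mk _) Ideal.Quotient.mk_surjective
  by_cases hG : G = 0
  · subst hG
    obtain ⟨e⟩ := isLC_equiv (Ideal.Quotient.mk (Ideal.span {(0 : MvPolynomial (Fin r) k)})) (by
      have h := isLC_quot (0 : MvPolynomial (Fin r) k)
      rw [Set.singleton_zero, Ideal.span_zero] at h ⊢
      exact h)
    exact hP.iso _ _ e (p_mv hP hk r)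
  · refine hP.curve _ hft (char_quot (char_mv hk) _) ?_
    have h1 : ringKrullDim (MvPolynomial (Fin r) k) ≤ 2 := by
      rw [MvPolynomial.ringKrullDim_of_isNoetherianRing, ringKrullDim_eq_zero_of_field]
      simp only [zero_add, Nat.card_eq_fintype_card, Fintype.card_fin]
      exact_mod_cast hr
    exact dim_le_one ((ringKrullDim_quotient_succ_le_of_nonZeroDivisor
      (mem_nonZeroDivisors_of_ne_zero hG)).trans h1)

theorem p_quadric (hp : p.Prime) (hP : FormalClass p P) (hk : (p : k) = 0) {r : ℕ}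
    (G : MvPolynomial (Fin r) k) (hG : G.totalDegree ≤ 2) : P (MvPolynomial (Fin r) k ⧸ Ideal.span {G}) := by
  classical
  have hfk : Algebra.FiniteType ℤ k := by
    have : Module.Finite ℤ k := Module.Finite.of_finite
    infer_instance
  have h1 := Pool.Agent.Helper87.CC.tameClosed_tame.lowDegree k hfk (by
    intro q hq hlt
    exfalso
    have h2 : ringKrullDim (k ⧸ q) ≤ ringKrullDim k :=
      ringKrullDim_le_of_surjective (Ideal.Quotient.mk q) Ideal.Quotient.mk_surjective
    rw [ringKrullDim_eq_zero_of_field] at h2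
    exact absurd (hlt.trans_le h2) (by decide)) r ∅ {G} (by simp) (by simpa using hG) (by
      rw [ringKrullDim_eq_zero_of_field, Finset.card_singleton]
      decide)
  rw [Finset.coe_empty, Set.empty_union, Finset.coe_singleton] at h1
  exact of_tame hp hP h1 (char_quot (char_mv hk) _)

/-! ### ternary forms -/

/-- `F(x, y, 1)` -/
noncomputable def deh (F : MvPolynomial (Fin 3) k) : MvPolynomial (Fin 2) k := eval₂ C ![X 0, X 1, 1] F

omit [Finite k] in
theorem eval_deh {E : Type} [CommRing E] (u : k →+* E) (y : Fin 2 → E) (F : MvPolynomial (Fin 3) k) :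
    eval₂ u y (deh F) = eval₂ u ![y 0, y 1, 1] F := by
  rw [deh, ← MvPolynomial.coe_eval₂Hom u y, eval₂_comp_hom]
  congr 1
  · ext r
    rw [RingHom.comp_apply, MvPolynomial.eval₂Hom_C]
  · funext i
    fin_cases i
    · simp
    · simp
    · simp

omit [Finite k] in
theorem deh_degree (F : MvPolynomial (Fin 3) k) : (deh F).totalDegree ≤ F.totalDegree := by
  rw [deh, MvPolynomial.eval₂_eq']
  refine (MvPolynomial.totalDegree_finsetSum _ _).trans (Finset.sup_le fun m hm => ?_)
  refine (MvPolynomial.totalDegree_mul _ _).trans ?_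
  rw [MvPolynomial.totalDegree_C, zero_add]
  refine (MvPolynomial.totalDegree_finsetProd _ _).trans ?_
  have h1 : ∀ i : Fin 3, ((![X 0, X 1, 1] : Fin 3 → MvPolynomial (Fin 2) k) i ^ m i).totalDegree ≤ m i := by
    intro i
    refine (MvPolynomial.totalDegree_pow _ _).trans ?_
    have h2 : ((![X 0, X 1, 1] : Fin 3 → MvPolynomial (Fin 2) k) i).totalDegree ≤ 1 := by
      fin_cases i
      · simp
      · simp
      · simp
    calc m i * ((![X 0, X 1, 1] : Fin 3 → MvPolynomial (Fin 2) k) i).totalDegree ≤ m i * 1 :=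
          Nat.mul_le_mul_left _ h2
      _ = m i := mul_one _
  refine (Finset.sum_le_sum fun i _ => h1 i).trans ?_
  have h3 := MvPolynomial.le_totalDegree hm
  rw [Finsupp.sum_fintype _ _ (fun _ => rfl)] at h3
  exact h3

omit [Finite k] in
theorem hom_deh {E : Type} [CommRing E] {w : Fin 3 → ℤ} (hw : w 2 = 1) {F : MvPolynomial (Fin 3) k} {d : ℕ}
    (hF : IsWeightedHomogeneous w F (d : ℤ)) (u : k →+* E) (t : Eˣ) (a b : E) :
    eval₂ u ![((t ^ w 0 : Eˣ) : E) * a, ((t ^ w 1 : Eˣ) : E) * b, (t : E)] F =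
      (t : E) ^ d * eval₂ u ![a, b] (deh F) := by
  have h1 := whomZ hF u t ![a, b, 1]
  rw [eval_deh]
  have h2 : (fun i => ((t ^ w i : Eˣ) : E) * (![a, b, 1] : Fin 3 → E) i) =
      ![((t ^ w 0 : Eˣ) : E) * a, ((t ^ w 1 : Eˣ) : E) * b, (t : E)] := by
    funext i
    fin_cases i
    · rfl
    · rfl
    · change ((t ^ w 2 : Eˣ) : E) * 1 = t
      rw [hw, zpow_one, mul_one]
  rw [h2] at h1
  rw [h1]
  rfl

omit [Finite k] in
/-- the part `z = 0` of `H(x, y, z) = 0` -/
theorem z_closed {R : Type} [CommRing R] {c : k →+* R} {x : Fin 3 → R} {H : MvPolynomial (Fin 3) k}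
    (hR : IsHyp c x H) : ∃ q : R →+* (MvPolynomial (Fin 2) k ⧸ Ideal.span {(eval₂ C ![X 0, X 1, 0] H :
      MvPolynomial (Fin 2) k)}), IsLC q (Ideal.span {x 2}) 1 := by
  set H0 : MvPolynomial (Fin 2) k := eval₂ C ![X 0, X 1, 0] H with hH0
  have hY := isHyp_std H0
  have h0 : ∀ (E : Type) [CommRing E] (u : k →+* E) (y : Fin 2 → E), eval₂ u y H0 = eval₂ u ![y 0, y 1, 0] H := by
    intro E _ u y
    rw [hH0, ← MvPolynomial.coe_eval₂Hom u y, eval₂_comp_hom]
    congr 1
    · ext r
      rw [RingHom.comp_apply, MvPolynomial.eval₂Hom_C]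
    · funext i
      fin_cases i
      · simp
      · simp
      · simp
  obtain ⟨Y, hY0, cY, yY, hY⟩ : ∃ (Y : Type) (_ : CommRing Y) (cY : k →+* Y) (yY : Fin 2 → Y), IsHyp cY yY H0 ∧
      Nonempty (Y ≃+* (MvPolynomial (Fin 2) k ⧸ Ideal.span {H0})) := ⟨_, inferInstance, _, _, hY, ⟨RingEquiv.refl _⟩⟩
  obtain ⟨hY, ⟨eY⟩⟩ := hY
  obtain ⟨q, q1, q2⟩ := hR.ex Y cY ![yY 0, yY 1, 0] (by rw [← h0]; exact hY.rel)
  have hq : IsLC q (Ideal.span {x 2}) 1 := by
    refine ⟨?_, ?_, ?_, ?_⟩
    · intro b hb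
      obtain ⟨t, rfl⟩ := Ideal.mem_span_singleton'.1 hb
      rw [map_mul, q2]
      simp
    · rw [map_one]; exact isUnit_one
    · intro E _ v hv _
      have hv2 : v (x 2) = 0 := hv _ (Ideal.mem_span_singleton_self _)
      have h1 : eval₂ (v.comp c) ![v (x 0), v (x 1)] H0 = 0 := by
        rw [h0]
        have h2 := congrArg v hR.rel
        rw [map_zero, eval₂_comp_hom] at h2
        have h5 : (![v (x 0), v (x 1), 0] : Fin 3 → E) = fun i => v (x i) := by
          funext i
          fin_cases i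
          · rfl
          · rfl
          · exact hv2.symm
        rw [← h5] at h2
        exact h2
      obtain ⟨h, h3, h4⟩ := hY.ex E (v.comp c) ![v (x 0), v (x 1)] h1
      refine ⟨h, hR.uniq E _ _ ?_ ?_⟩
      · rw [RingHom.comp_assoc, q1, h3]
      · intro i
        rw [RingHom.comp_apply, q2]
        fin_cases i
        · simpa using h4 0
        · simpa using h4 1
        · simp [hv2]
    · intro E _ h h' hh
      refine hY.uniq E _ _ ?_ ?_
      · rw [← q1, ← RingHom.comp_assoc, hh, RingHom.comp_assoc]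
      · intro i
        fin_cases i
        · have h5 := RingHom.congr_fun hh (x 0)
          rw [RingHom.comp_apply, RingHom.comp_apply, q2] at h5
          exact h5
        · have h5 := RingHom.congr_fun hh (x 1)
          rw [RingHom.comp_apply, RingHom.comp_apply, q2] at h5
          exact h5
  refine ⟨(eY : Y →+* _).comp q, ?_, ?_, ?_, ?_⟩
  · intro b hb
    rw [RingHom.comp_apply, hq.zero b hb, map_zero]
  · rw [map_one]; exact isUnit_one
  · intro E _ v hv hu
    obtain ⟨h, hh⟩ := hq.ex E v hv hu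
    refine ⟨h.comp (eY.symm : _ →+* Y), ?_⟩
    rw [← hh]
    refine RingHom.ext fun a => ?_
    simp
  · intro E _ h h' hh
    have h6 : h.comp (eY : Y →+* _) = h'.comp (eY : Y →+* _) := by
      apply hq.uniq
      rw [RingHom.comp_assoc, hh, RingHom.comp_assoc]
    refine RingHom.ext fun a => ?_
    have h7 := RingHom.congr_fun h6 (eY.symm a)
    simpa using h7

end

end Pool.Agent.Helper67.CQ
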