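import Pool.Agent.Helper67.CQ.Tern

/-!
# Compositions with quasi-homogeneous polynomials
-/

set_option autoImplicit false

namespace Pool.Agent.Helper67.CQ

open Pool.Agent.Helper87.CC (IsLC ft_of_surj ft_alg ft_loc Tame dim_le_one)
open Pool.Agent.Helper29.CQ (FormalClass Cyc)
open MvPolynomial (eval₂ eval₂Hom IsWeightedHomogeneous rename C X monomial)

variable {p : ℕ} {P : ∀ (A : Type) [CommRing A], Prop}

/-- `R` represents the points `(x, t)` with `b(x, t ^ d) = 0` and `t_i = 0` for `i ∈ K` -/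
structure IsRep {k τ R : Type} [Field k] [CommRing R] {s : ℕ} (c : k →+* R) (x : τ → R) (t : Fin s → R)
    (d : Fin s → ℕ) (b : MvPolynomial (τ ⊕ Fin s) k) (K : Set (Fin s)) : Prop where
  rel : eval₂ c (Sum.elim x fun i => t i ^ d i) b = 0
  zero : ∀ i ∈ K, t i = 0
  ex : ∀ (E : Type) [CommRing E] (u : k →+* E) (y : τ → E) (z : Fin s → E),
    eval₂ u (Sum.elim y fun i => z i ^ d i) b = 0 → (∀ i ∈ K, z i = 0) →
      ∃ h : R →+* E, h.comp c = u ∧ (∀ a, h (x a) = y a) ∧ ∀ i, h (t i) = z i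
  uniq : ∀ (E : Type) [CommRing E] (h h' : R →+* E), h.comp c = h'.comp c → (∀ a, h (x a) = h' (x a)) →
    (∀ i, h (t i) = h' (t i)) → h = h'

theorem IsRep.equiv {k τ R R' : Type} [Field k] [CommRing R] [CommRing R'] {s : ℕ} {c : k →+* R} {x : τ → R}
    {t : Fin s → R} {d : Fin s → ℕ} {b : MvPolynomial (τ ⊕ Fin s) k} {K : Set (Fin s)} (hR : IsRep c x t d b K)
    {c' : k →+* R'} {x' : τ → R'} {t' : Fin s → R'} (hR' : IsRep c' x' t' d b K) : Nonempty (R ≃+* R') := by
  obtain ⟨f, f1, f2, f3⟩ := hR.ex R' c' x' t' hR'.rel hR'.zero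
  obtain ⟨g, g1, g2, g3⟩ := hR'.ex R c x t hR.rel hR.zero
  refine ⟨RingEquiv.ofRingHom f g ?_ ?_⟩
  · refine hR'.uniq _ _ _ ?_ ?_ ?_
    · rw [RingHom.comp_assoc, g1, f1, RingHom.id_comp]
    · intro i
      rw [RingHom.comp_apply, g2, f2, RingHom.id_apply]
    · intro i
      rw [RingHom.comp_apply, g3, f3, RingHom.id_apply]
  · refine hR.uniq _ _ _ ?_ ?_ ?_
    · rw [RingHom.comp_assoc, f1, g1, RingHom.id_comp]
    · intro i
      rw [RingHom.comp_apply, f2, g2, RingHom.id_apply]
    · intro i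
      rw [RingHom.comp_apply, f3, g3, RingHom.id_apply]

theorem hom_eval {k ι E : Type} [Field k] [CommRing E] (h : MvPolynomial ι k →+* E) (F : MvPolynomial ι k) :
    eval₂ (h.comp C) (fun i => h (X i)) F = h F := by
  have h9 : eval₂Hom (h.comp C) (fun i => h (X i)) = h := by
    apply MvPolynomial.ringHom_ext
    · intro r
      rw [MvPolynomial.eval₂Hom_C]
      rfl
    · intro i
      rw [MvPolynomial.eval₂Hom_X']
  exact RingHom.congr_fun h9 F

theorem rep_exists {k τ : Type} [Field k] [Finite k] (hk : (p : k) = 0) [Finite τ] {s : ℕ} (d : Fin s → ℕ)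
    (b : MvPolynomial (τ ⊕ Fin s) k) (K : Set (Fin s)) :
    ∃ (R : Type) (_ : CommRing R) (c : k →+* R) (x : τ → R) (t : Fin s → R), IsRep c x t d b K ∧
      Algebra.FiniteType ℤ R ∧ (p : R) = 0 := by
  set bd : MvPolynomial (τ ⊕ Fin s) k := eval₂ C (Sum.elim (fun a => X (Sum.inl a)) fun i => X (Sum.inr i) ^ d i) b
    with hbd
  have hev : ∀ (E : Type) [CommRing E] (h : MvPolynomial (τ ⊕ Fin s) k →+* E), h bd =
      eval₂ (h.comp C) (Sum.elim (fun a => h (X (Sum.inl a))) fun i => h (X (Sum.inr i)) ^ d i) b := by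
    intro E _ h
    rw [hbd, eval₂_comp_hom]
    congr 1
    funext i
    rcases i with i | i
    · rfl
    · rw [Sum.elim_inr, Sum.elim_inr, map_pow]
  set I : Ideal (MvPolynomial (τ ⊕ Fin s) k) := Ideal.span ({bd} ∪ {q | ∃ i ∈ K, q = X (Sum.inr i)}) with hI
  have hb : bd ∈ I := Ideal.subset_span (Or.inl rfl)
  have hK : ∀ i ∈ K, X (Sum.inr i) ∈ I := fun i hi => Ideal.subset_span (Or.inr ⟨i, hi, rfl⟩)
  refine ⟨MvPolynomial (τ ⊕ Fin s) k ⧸ I, inferInstance, (Ideal.Quotient.mk I).comp C,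
    fun a => Ideal.Quotient.mk I (X (Sum.inl a)), fun i => Ideal.Quotient.mk I (X (Sum.inr i)), ⟨?_, ?_, ?_, ?_⟩,
    ft_of_surj ft_mv (Ideal.Quotient.mk _) Ideal.Quotient.mk_surjective, char_quot (char_mv hk) _⟩
  · rw [← hev]
    exact Ideal.Quotient.eq_zero_iff_mem.2 hb
  · intro i hi
    exact Ideal.Quotient.eq_zero_iff_mem.2 (hK i hi)
  · intro E _ u y z h1 h2
    have h3 : ∀ q ∈ I, eval₂Hom u (Sum.elim y z) q = 0 := by
      have h4 : I ≤ RingHom.ker (eval₂Hom u (Sum.elim y z)) := by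
        rw [hI, Ideal.span_le]
        rintro q (hq | ⟨i, hi, rfl⟩)
        · rw [Set.mem_singleton_iff.1 hq, SetLike.mem_coe, RingHom.mem_ker, hev]
          have h5 : (eval₂Hom u (Sum.elim y z)).comp C = u := by
            ext r
            rw [RingHom.comp_apply, MvPolynomial.eval₂Hom_C]
          rw [h5]
          simp only [MvPolynomial.eval₂Hom_X', Sum.elim_inl, Sum.elim_inr]
          exact h1
        · rw [SetLike.mem_coe, RingHom.mem_ker, MvPolynomial.eval₂Hom_X']
          exact h2 i hi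
      exact h4
    refine ⟨Ideal.Quotient.lift I _ h3, ?_, ?_, ?_⟩
    · ext r
      change eval₂Hom u (Sum.elim y z) (C r) = u r
      rw [MvPolynomial.eval₂Hom_C]
    · intro a
      change eval₂Hom u (Sum.elim y z) (X (Sum.inl a)) = y a
      rw [MvPolynomial.eval₂Hom_X', Sum.elim_inl]
    · intro i
      change eval₂Hom u (Sum.elim y z) (X (Sum.inr i)) = z i
      rw [MvPolynomial.eval₂Hom_X', Sum.elim_inr]
  · intro E _ h h' h1 h2 h3
    apply Ideal.Quotient.ringHom_ext
    apply MvPolynomial.ringHom_ext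
    · intro r
      exact RingHom.congr_fun h1 r
    · intro i
      rcases i with i | i
      · exact h2 i
      · exact h3 i

/-- the polynomial `b(x, t ^ d)` and its restrictions to the coordinate subspaces define members of the class -/
def T (P : ∀ (A : Type) [CommRing A], Prop) {k τ : Type} [Field k] {s : ℕ} (d : Fin s → ℕ)
    (b : MvPolynomial (τ ⊕ Fin s) k) : Prop :=
  ∀ (K : Set (Fin s)) (R : Type) [CommRing R] (c : k →+* R) (x : τ → R) (t : Fin s → R), IsRep c x t d b K → P R

/-- the step: the last variable is replaced by `g` -/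
theorem T.step (hP : FormalClass p P) {k : Type} [Field k] [Finite k] (hk : (p : k) = 0) {τ σ : Type}
    [Finite τ] [Fintype σ] {s : ℕ} {d : Fin (s + 1) → ℕ} {b : MvPolynomial (τ ⊕ Fin (s + 1)) k} (hb : T P d b)
    {w : σ → ℤ} (hd : d (Fin.last s) ≠ 0) {g : MvPolynomial σ k}
    (hg : IsWeightedHomogeneous w g ((d (Fin.last s) : ℕ) : ℤ))
    (h0 : P (MvPolynomial σ k ⧸ Ideal.span {g})) (h1 : P (MvPolynomial σ k ⧸ Ideal.span {g - 1}))
    {b' : MvPolynomial ((τ ⊕ σ) ⊕ Fin s) k}
    (hb' : ∀ (E : Type) [CommRing E] (u : k →+* E) (y : τ → E) (v : σ → E) (z : Fin s → E),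
      eval₂ u (Sum.elim (Sum.elim y v) z) b' = eval₂ u (Sum.elim y (Fin.snoc z (eval₂ u v g) : Fin (s + 1) → E)) b) :
    T P (fun i => d i.castSucc) b' := by
  intro K R' _ c' x' t' hR'
  set K' : Set (Fin (s + 1)) := {i | ∃ j ∈ K, i = j.castSucc} with hK'
  set d1 : Fin (s + 1) → ℕ := Fin.snoc (fun i => d i.castSucc) 1 with hd1
  obtain ⟨B, _, c, x, t, hB, hft, hpB⟩ := rep_exists hk d1 b K'
  let _ : Algebra k B := c.toAlgebra
  have hp1 : ∀ {E : Type} [CommRing E] (z : Fin s → E) (a : E),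
      (fun i => (Fin.snoc z a : Fin (s + 1) → E) i ^ d1 i) = (Fin.snoc (fun i => z i ^ d i.castSucc) a :
        Fin (s + 1) → E) := by
    intro E _ z a
    funext i
    refine Fin.lastCases ?_ (fun i => ?_) i
    · rw [hd1, Fin.snoc_last, Fin.snoc_last, Fin.snoc_last, pow_one]
    · rw [hd1, Fin.snoc_castSucc, Fin.snoc_castSucc, Fin.snoc_castSucc]
  have hp2 : ∀ {E : Type} [CommRing E] (z : Fin s → E) (a : E),
      (fun i => (Fin.snoc z a : Fin (s + 1) → E) i ^ d i) = (Fin.snoc (fun i => z i ^ d i.castSucc)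
        (a ^ d (Fin.last s)) : Fin (s + 1) → E) := by
    intro E _ z a
    funext i
    refine Fin.lastCases ?_ (fun i => ?_) i
    · rw [Fin.snoc_last, Fin.snoc_last]
    · rw [Fin.snoc_castSucc, Fin.snoc_castSucc]
  have hsn : ∀ {E : Type} (z : Fin (s + 1) → E), (Fin.snoc (fun i => z i.castSucc) (z (Fin.last s)) :
      Fin (s + 1) → E) = z := by
    intro E z
    funext i
    refine Fin.lastCases ?_ (fun i => ?_) i
    · rw [Fin.snoc_last]
    · rw [Fin.snoc_castSucc]
  have hp3 : ∀ {E : Type} [CommRing E] (z : Fin (s + 1) → E), (fun i => z i ^ d1 i) =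
      (Fin.snoc (fun i => z i.castSucc ^ d i.castSucc) (z (Fin.last s)) : Fin (s + 1) → E) := by
    intro E _ z
    have h := hp1 (fun i => z i.castSucc) (z (Fin.last s))
    rw [hsn] at h
    exact h
  have hp4 : ∀ {E : Type} [CommRing E] (z : Fin (s + 1) → E), (fun i => z i ^ d i) =
      (Fin.snoc (fun i => z i.castSucc ^ d i.castSucc) (z (Fin.last s) ^ d (Fin.last s)) : Fin (s + 1) → E) := by
    intro E _ z
    have h := hp2 (fun i => z i.castSucc) (z (Fin.last s))
    rw [hsn] at h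
    exact h
  set γ : R' := eval₂ c' (fun a => x' (Sum.inr a)) g with hγ
  obtain ⟨i, i1, i2, i3⟩ := hB.ex R' c' (fun a => x' (Sum.inl a)) (Fin.snoc t' γ) (by
    rw [hp1, hγ, ← hb']
    have h2 : Sum.elim (fun a => x' (Sum.inl a)) (fun a => x' (Sum.inr a)) = x' := by
      funext a
      rcases a with a | a
      · rfl
      · rfl
    rw [h2]
    exact hR'.rel) (by
    rintro i ⟨j, hj, rfl⟩
    rw [Fin.snoc_castSucc]
    exact hR'.zero j hj)
  have hil : i (t (Fin.last s)) = γ := by rw [i3, Fin.snoc_last]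
  have hcomp : ∀ {E : Type} [CommRing E] (u : B →+* E), eval₂ (u.comp c) (Sum.elim (fun a => u (x a))
      (Fin.snoc (fun i => u (t i.castSucc) ^ d i.castSucc) (u (t (Fin.last s))) : Fin (s + 1) → E)) b = 0 := by
    intro E _ u
    have h2 := congrArg u hB.rel
    rw [map_zero, eval₂_comp_hom] at h2
    rw [← h2]
    congr 1
    funext a
    rcases a with a | a
    · rfl
    · rw [Sum.elim_inr, Sum.elim_inr, map_pow]
      exact (congrFun (hp3 (fun i => u (t i))) a).symm
  have hJ : IsJ i (fun a => x' (Sum.inr a)) (-(t (Fin.last s))) g := by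
    refine ⟨?_, ?_, ?_⟩
    · have h2 : i.comp (algebraMap k B) = c' := i1
      rw [h2, map_neg, hil, hγ, neg_add_cancel]
    · intro E _ u y hy
      have hy' : u (t (Fin.last s)) = eval₂ (u.comp c) y g := by
        rw [map_neg, neg_add_eq_zero] at hy
        exact hy
      obtain ⟨h, h3, h4, h5⟩ := hR'.ex E (u.comp c) (Sum.elim (fun a => u (x a)) y)
        (fun i => u (t i.castSucc)) (by
          rw [hb', ← hy']
          exact hcomp u) (fun i hi => by
          rw [hB.zero _ ⟨i, hi, rfl⟩, map_zero])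
      refine ⟨h, ?_, fun a => h4 (Sum.inr a)⟩
      refine hB.uniq E _ _ ?_ ?_ ?_
      · rw [RingHom.comp_assoc, i1, h3]
      · intro a
        rw [RingHom.comp_apply, i2]
        exact h4 (Sum.inl a)
      · intro j
        rw [RingHom.comp_apply, i3]
        refine Fin.lastCases ?_ (fun j => ?_) j
        · rw [Fin.snoc_last, hγ, eval₂_comp_hom, h3, hy']
          congr 1
          funext a
          exact h4 (Sum.inr a)
        · rw [Fin.snoc_castSucc, h5]
    · intro E _ h h' h6 h7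
      refine hR'.uniq E _ _ ?_ ?_ ?_
      · rw [← i1, ← RingHom.comp_assoc, h6, RingHom.comp_assoc]
      · intro a
        rcases a with a | a
        · rw [← i2]
          exact RingHom.congr_fun h6 (x a)
        · exact h7 a
      · intro j
        have h8 := RingHom.congr_fun h6 (t j.castSucc)
        rw [RingHom.comp_apply, RingHom.comp_apply, i3, Fin.snoc_castSucc] at h8
        exact h8
  refine joinZ hP hft hpB (-(t (Fin.last s))) hd hg h0 h1 ?_ ?_ hJ
  · -- the closed part
    have hq := isLC_quot (-(t (Fin.last s)))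
    obtain ⟨D, _, q, hq, hPD⟩ : ∃ (D : Type) (_ : CommRing D) (q : B →+* D),
        IsLC q (Ideal.span {-(t (Fin.last s))}) 1 ∧ (P D → P (B ⧸ Ideal.span {-(t (Fin.last s))})) :=
      ⟨_, inferInstance, _, hq, id⟩
    apply hPD
    have hql : q (t (Fin.last s)) = 0 := by
      have h2 := hq.zero _ (Ideal.mem_span_singleton_self _)
      rw [map_neg, neg_eq_zero] at h2
      exact h2
    refine hb (K' ∪ {Fin.last s}) D (q.comp c) (fun a => q (x a))
      (Fin.snoc (fun i => q (t i.castSucc)) 0) ⟨?_, ?_, ?_, ?_⟩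
    · have h2 := hcomp q
      rw [hql] at h2
      rw [hp2, zero_pow hd]
      exact h2
    · rintro i (⟨j, hj, rfl⟩ | hi)
      · rw [Fin.snoc_castSucc, hB.zero _ ⟨j, hj, rfl⟩, map_zero]
      · rw [Set.mem_singleton_iff.1 hi, Fin.snoc_last]
    · intro E _ u y z h2 h3
      have hz : z (Fin.last s) = 0 := h3 _ (Or.inr rfl)
      obtain ⟨v, v1, v2, v3⟩ := hB.ex E u y z (by
        rw [hp3]
        rw [hp4, hz, zero_pow hd] at h2
        rw [hz]
        exact h2) (fun i hi => h3 i (Or.inl hi))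
      obtain ⟨h, hh⟩ := hq.ex E v (by
        intro a ha
        obtain ⟨a', rfl⟩ := Ideal.mem_span_singleton'.1 ha
        rw [map_mul, map_neg, v3, hz, neg_zero, mul_zero]) (by rw [map_one]; exact isUnit_one)
      refine ⟨h, ?_, ?_, ?_⟩
      · rw [← RingHom.comp_assoc, hh, v1]
      · intro a
        rw [← RingHom.comp_apply, hh, v2]
      · intro j
        refine Fin.lastCases ?_ (fun j => ?_) j
        · rw [Fin.snoc_last, map_zero, hz]
        · rw [Fin.snoc_castSucc, ← RingHom.comp_apply, hh, v3]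
    · intro E _ h h' h4 h5 h6
      apply hq.uniq
      refine hB.uniq E _ _ ?_ h5 ?_
      · rw [RingHom.comp_assoc, h4, RingHom.comp_assoc]
      · intro j
        refine Fin.lastCases ?_ (fun j => ?_) j
        · rw [RingHom.comp_apply, RingHom.comp_apply, hql, map_zero, map_zero]
        · have h7 := h6 j.castSucc
          rw [Fin.snoc_castSucc] at h7
          exact h7
  · -- the cover
    obtain ⟨D, _, o, mu, hK, hPD⟩ : ∃ (D : Type) (_ : CommRing D) (o : B →+* D) (mu : D),
        IsKum o mu (d (Fin.last s)) (-(-(t (Fin.last s)))) ∧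
          (P D → P (AdjoinRoot (Polynomial.X ^ d (Fin.last s) - Polynomial.C (-(-(t (Fin.last s)))) :
            Polynomial B))) := ⟨_, inferInstance, _, _, isKum_std _ _, id⟩
    apply hPD
    rw [neg_neg] at hK
    refine hb K' D (o.comp c) (fun a => o (x a)) (Fin.snoc (fun i => o (t i.castSucc)) mu) ⟨?_, ?_, ?_, ?_⟩
    · rw [hp2, hK.rel]
      exact hcomp o
    · rintro i ⟨j, hj, rfl⟩
      rw [Fin.snoc_castSucc, hB.zero _ ⟨j, hj, rfl⟩, map_zero]
    · intro E _ u y z h2 h3
      obtain ⟨v, v1, v2, v3⟩ := hB.ex E u y (Fin.snoc (fun i => z i.castSucc) (z (Fin.last s) ^ d (Fin.last s)))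
        (by
          rw [hp1]
          rw [hp4] at h2
          exact h2) (by
          rintro i ⟨j, hj, rfl⟩
          rw [Fin.snoc_castSucc]
          exact h3 _ ⟨j, hj, rfl⟩)
      obtain ⟨h, hh1, hh2⟩ := hK.ex E v (z (Fin.last s)) (by rw [v3, Fin.snoc_last])
      refine ⟨h, ?_, ?_, ?_⟩
      · rw [← RingHom.comp_assoc, hh1, v1]
      · intro a
        rw [← RingHom.comp_apply, hh1, v2]
      · intro j
        refine Fin.lastCases ?_ (fun j => ?_) j
        · rw [Fin.snoc_last, hh2]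
        · rw [Fin.snoc_castSucc, ← RingHom.comp_apply, hh1, v3, Fin.snoc_castSucc]
    · intro E _ h h' h4 h5 h6
      have h8 : h mu = h' mu := by
        have h7 := h6 (Fin.last s)
        rw [Fin.snoc_last] at h7
        exact h7
      refine hK.uniq E _ _ ?_ h8
      refine hB.uniq E _ _ ?_ h5 ?_
      · rw [RingHom.comp_assoc, h4, RingHom.comp_assoc]
      · intro j
        refine Fin.lastCases ?_ (fun j => ?_) j
        · rw [RingHom.comp_apply, RingHom.comp_apply, ← hK.rel, map_pow, map_pow, h8]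
        · have h7 := h6 j.castSucc
          rw [Fin.snoc_castSucc] at h7
          exact h7

end Pool.Agent.Helper67.CQ
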