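import Pool.Agent.Helper29.CQ.Defs

/-!
# Forms and their compositions: definitions
-/

set_option autoImplicit false

namespace Pool.Agent.Helper67.CQ

open MvPolynomial

/-- The composition `H(F_1, ..., F_s)` of polynomials `F_j` in disjoint sets of variables. -/
noncomputable def comp {k : Type} [Field k] {s : ℕ} {σ : Fin s → Type} (H : MvPolynomial (Fin s) k)
    (F : ∀ j, MvPolynomial (σ j) k) : MvPolynomial (Σ j, σ j) k :=
  aeval (fun j => rename (Sigma.mk j) (F j)) H

/-- The polynomial `H(t_1 ^ d_1, ..., t_s ^ d_s)`. -/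
noncomputable def pows {k : Type} [Field k] {s : ℕ} (H : MvPolynomial (Fin s) k) (d : Fin s → ℕ) :
    MvPolynomial (Fin s) k :=
  aeval (fun j => X j ^ d j) H

/-- Polynomials `f(x, y)` of degree at most four, or of weighted degree at most six for the
weights `1` and `2`. -/
def Low {k : Type} [Field k] (f : MvPolynomial (Fin 2) k) : Prop :=
  f.totalDegree ≤ 4 ∨ ∀ m ∈ f.support, m 0 + 2 * m 1 ≤ 6

/-- Basic polynomials in `s` variables. -/
inductive Basic (P : ∀ (A : Type) [CommRing A], Prop) {k : Type} [Field k] :
    ∀ {s : ℕ}, MvPolynomial (Fin s) k → Prop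
  /-- the exponents lie in a plane, for example if `s ≤ 2` -/
  | planar {s : ℕ} (h : MvPolynomial (Fin s) k) :
      Module.finrank ℚ (vectorSpan ℚ (Set.range fun (m : h.support) (i : Fin s) =>
        ((m.1 i : ℕ) : ℚ))) ≤ 2 → Basic P h
  /-- the exponents are affinely independent -/
  | simplex {s : ℕ} (h : MvPolynomial (Fin s) k) :
      AffineIndependent ℚ (fun (m : h.support) (i : Fin s) => ((m.1 i : ℕ) : ℚ)) → Basic P h
  /-- at most four monomials -/
  | four {s : ℕ} (h : MvPolynomial (Fin s) k) : h.support.card ≤ 4 → Basic P h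
  /-- degree at most two -/
  | quadric {s : ℕ} (h : MvPolynomial (Fin s) k) : h.totalDegree ≤ 2 → Basic P h
  /-- degree at most three, at most four variables -/
  | cubic {s : ℕ} (h : MvPolynomial (Fin s) k) : s ≤ 4 → h.totalDegree ≤ 3 → Basic P h
  /-- level sets of the quasi-homogeneous polynomials `G = z ^ d f(x / z ^ a, y / z ^ b)` with a
  polynomial `f` of low degree, for example of the ternary forms of degree at most four -/
  | level (G : MvPolynomial (Fin 3) k) (a b d : ℕ) (c : k) : 0 < a → 0 < b → 0 < d →
      IsWeightedHomogeneous ![a, b, 1] G d →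
      Low (aeval (![X 0, X 1, 1] : Fin 3 → MvPolynomial (Fin 2) k) G) → Basic P (G - C c)
  /-- the restrictions of `h` to the coordinate subspaces of dimension at least three belong
  to `P` -/
  | member {s : ℕ} (h : MvPolynomial (Fin s) k) :
      (∀ S : Finset (Fin s), S.card + 3 ≤ s →
        P (MvPolynomial (Fin s) k ⧸ Ideal.span (insert h ((fun i => X i) '' (S : Set (Fin s)))))) →
      Basic P h

/-- Forms of degree `d`: the smallest class of polynomials containing the basic polynomials and
closed under compositions in disjoint variables, all quasi-homogeneous for some integral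
weights. -/
inductive Form (P : ∀ (A : Type) [CommRing A], Prop) {k : Type} [Field k] :
    ∀ {σ : Type}, MvPolynomial σ k → ℕ → Prop
  /-- basic polynomials -/
  | basic {s : ℕ} (G : MvPolynomial (Fin s) k) (w : Fin s → ℤ) (d : ℕ) : 0 < d →
      IsWeightedHomogeneous w G (d : ℤ) → Basic P G → Basic P (G - 1) → Form P G d
  /-- compositions -/
  | comp {s : ℕ} {σ : Fin s → Type} [∀ j, Fintype (σ j)] (F : ∀ j, MvPolynomial (σ j) k)
      (d : Fin s → ℕ) (H : MvPolynomial (Fin s) k) (w : Fin s → ℤ) (e : ℕ) :
      (∀ j, Form P (F j) (d j)) → 0 < e →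
      IsWeightedHomogeneous (fun j => (d j : ℤ) * w j) H (e : ℤ) →
      Basic P (pows H d) → Basic P (pows H d - 1) → Form P (CQ.comp H F) e

end Pool.Agent.Helper67.CQ
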