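import Pool.Agent.Helper67.CQ.Comp
import Pool.Agent.Helper67.CQ.FormDefs

/-!
# Compositions with quasi-homogeneous polynomials: all variables
-/

set_option autoImplicit false

namespace Pool.Agent.Helper67.CQ

open Pool.Agent.Helper87.CC (IsLC ft_of_surj ft_alg ft_loc Tame dim_le_one)
open Pool.Agent.Helper29.CQ (FormalClass Cyc)
open MvPolynomial (eval₂ eval₂Hom IsWeightedHomogeneous rename C X monomial)

variable {p : ℕ} {P : ∀ (A : Type) [CommRing A], Prop}

/-- quasi-homogeneous of degree `d`, and the zeros and the level set `1` define members of the class -/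
def GoodD (P : ∀ (A : Type) [CommRing A], Prop) {k σ : Type} [Field k] (g : MvPolynomial σ k) (d : ℕ) : Prop :=
  d ≠ 0 ∧ (∃ w : σ → ℤ, IsWeightedHomogeneous w g (d : ℤ)) ∧ P (MvPolynomial σ k ⧸ Ideal.span {g}) ∧
    P (MvPolynomial σ k ⧸ Ideal.span {g - 1})

/-- `R` represents the points `(x, y)` with `b(x, F_j(y_j)) = 0` -/
structure IsComp {k τ R : Type} [Field k] [CommRing R] {s : ℕ} (c : k →+* R) (x : τ → R) {σ : Fin s → Type}
    (y : ∀ j, σ j → R) (F : ∀ j, MvPolynomial (σ j) k) (b : MvPolynomial (τ ⊕ Fin s) k) : Prop where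
  rel : eval₂ c (Sum.elim x fun j => eval₂ c (y j) (F j)) b = 0
  ex : ∀ (E : Type) [CommRing E] (u : k →+* E) (x' : τ → E) (y' : ∀ j, σ j → E),
    eval₂ u (Sum.elim x' fun j => eval₂ u (y' j) (F j)) b = 0 →
      ∃ h : R →+* E, h.comp c = u ∧ (∀ a, h (x a) = x' a) ∧ ∀ j a, h (y j a) = y' j a
  uniq : ∀ (E : Type) [CommRing E] (h h' : R →+* E), h.comp c = h'.comp c → (∀ a, h (x a) = h' (x a)) →
    (∀ j a, h (y j a) = h' (y j a)) → h = h'

/-- the polynomial with the last variable replaced by `g` -/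
theorem exists_step {k τ σ : Type} [Field k] {s : ℕ} (b : MvPolynomial (τ ⊕ Fin (s + 1)) k) (g : MvPolynomial σ k) :
    ∃ b' : MvPolynomial ((τ ⊕ σ) ⊕ Fin s) k, ∀ (E : Type) [CommRing E] (u : k →+* E) (y : τ → E) (v : σ → E)
      (z : Fin s → E), eval₂ u (Sum.elim (Sum.elim y v) z) b' =
        eval₂ u (Sum.elim y (Fin.snoc z (eval₂ u v g) : Fin (s + 1) → E)) b := by
  refine ⟨eval₂ C (Sum.elim (fun a => X (Sum.inl (Sum.inl a))) (Fin.snoc (fun i => X (Sum.inr i))
    (rename (fun a => Sum.inl (Sum.inr a)) g) : Fin (s + 1) → MvPolynomial ((τ ⊕ σ) ⊕ Fin s) k)) b, ?_⟩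
  intro E _ u y v z
  rw [← MvPolynomial.coe_eval₂Hom u, eval₂_comp_hom]
  have h1 : (eval₂Hom u (Sum.elim (Sum.elim y v) z)).comp C = u := by
    ext r
    rw [RingHom.comp_apply, MvPolynomial.eval₂Hom_C]
  rw [h1]
  congr 1
  funext i
  rcases i with i | i
  · rw [Sum.elim_inl, Sum.elim_inl, MvPolynomial.eval₂Hom_X']
    rfl
  · rw [Sum.elim_inr, Sum.elim_inr]
    refine Fin.lastCases ?_ (fun i => ?_) i
    · rw [Fin.snoc_last, Fin.snoc_last, MvPolynomial.coe_eval₂Hom, MvPolynomial.eval₂_rename]
      rfl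
    · rw [Fin.snoc_castSucc, Fin.snoc_castSucc, MvPolynomial.eval₂Hom_X']
      rfl

theorem T.comp (hP : FormalClass p P) {k : Type} [Field k] [Finite k] (hk : (p : k) = 0) : ∀ (s : ℕ) (τ : Type)
    [Finite τ] (d : Fin s → ℕ) (b : MvPolynomial (τ ⊕ Fin s) k) (σ : Fin s → Type) [∀ j, Fintype (σ j)]
    (F : ∀ j, MvPolynomial (σ j) k), T P d b → (∀ j, GoodD P (F j) (d j)) → ∀ (R : Type) [CommRing R] (c : k →+* R)
    (x : τ → R) (y : ∀ j, σ j → R), IsComp c x y F b → P R := by
  intro s
  induction s with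
  | zero =>
    intro τ _ d b σ _ F hb hF R _ c x y hR
    refine hb ∅ R c x Fin.elim0 ⟨?_, ?_, ?_, ?_⟩
    · have h1 := hR.rel
      have h2 : (Sum.elim x fun i => (Fin.elim0 : Fin 0 → R) i ^ d i) =
          (Sum.elim x fun j => eval₂ c (y j) (F j)) := by
        funext a
        rcases a with a | a
        · rfl
        · exact a.elim0
      rw [h2]
      exact h1
    · intro i hi
      exact absurd hi (Set.notMem_empty i)
    · intro E _ u y' z h1 _
      obtain ⟨h, h2, h3, -⟩ := hR.ex E u y' (fun j => j.elim0) (by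
        have h2 : (Sum.elim y' fun i => z i ^ d i) =
            (Sum.elim y' fun j : Fin 0 => eval₂ u ((fun j => j.elim0 : ∀ j : Fin 0, σ j → E) j) (F j)) := by
          funext a
          rcases a with a | a
          · rfl
          · exact a.elim0
        rw [← h2]
        exact h1)
      exact ⟨h, h2, h3, fun i => i.elim0⟩
    · intro E _ h h' h1 h2 _
      exact hR.uniq E h h' h1 h2 fun j => j.elim0
  | succ s ih =>
    intro τ _ d b σ _ F hb hF R _ c x y hR
    obtain ⟨hd, ⟨w, hw⟩, h0, h1⟩ := hF (Fin.last s)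
    obtain ⟨b', hb'⟩ := exists_step b (F (Fin.last s))
    have hs := T.step hP hk hb hd hw h0 h1 hb'
    have hxy : ∀ {E : Type} [CommRing E] (u : k →+* E) (y' : ∀ j, σ j → E), (fun j => eval₂ u (y' j) (F j)) =
        (Fin.snoc (fun j : Fin s => eval₂ u (y' j.castSucc) (F j.castSucc)) (eval₂ u (y' (Fin.last s))
          (F (Fin.last s))) : Fin (s + 1) → E) := by
      intro E _ u y'
      funext j
      refine Fin.lastCases ?_ (fun j => ?_) j
      · rw [Fin.snoc_last]
      · rw [Fin.snoc_castSucc]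
    refine ih (τ ⊕ σ (Fin.last s)) (fun j => d j.castSucc) b' (fun j => σ j.castSucc) (fun j => F j.castSucc) hs
      (fun j => hF j.castSucc) R c (Sum.elim x (y (Fin.last s))) (fun j => y j.castSucc) ⟨?_, ?_, ?_⟩
    · rw [hb', ← hxy]
      exact hR.rel
    · intro E _ u x' y' h2
      have hx' : x' = Sum.elim (fun a => x' (Sum.inl a)) (fun a => x' (Sum.inr a)) := by
        funext a
        rcases a with a | a
        · rfl
        · rfl
      obtain ⟨h, h3, h4, h5⟩ := hR.ex E u (fun a => x' (Sum.inl a))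
        (Fin.lastCases (motive := fun j => σ j → E) (fun a => x' (Sum.inr a)) y') (by
          rw [hx', hb'] at h2
          rw [hxy]
          simp only [Fin.lastCases_last, Fin.lastCases_castSucc]
          exact h2)
      refine ⟨h, h3, ?_, ?_⟩
      · intro a
        rcases a with a | a
        · exact h4 a
        · have h6 := h5 (Fin.last s) a
          rw [Fin.lastCases_last] at h6
          exact h6
      · intro j a
        have h6 := h5 j.castSucc a
        rw [Fin.lastCases_castSucc] at h6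
        exact h6
    · intro E _ h h' h2 h3 h4
      refine hR.uniq E h h' h2 (fun a => h3 (Sum.inl a)) ?_
      intro j
      refine Fin.lastCases ?_ (fun j => ?_) j
      · exact fun a => h3 (Sum.inr a)
      · exact h4 j

theorem eval_comp {k E : Type} [Field k] [CommRing E] {s : ℕ} {σ : Fin s → Type} (H : MvPolynomial (Fin s) k)
    (F : ∀ j, MvPolynomial (σ j) k) (u : k →+* E) (y : (Σ j, σ j) → E) :
    eval₂ u y (comp H F) = eval₂ u (fun j => eval₂ u (fun a => y ⟨j, a⟩) (F j)) H := by
  rw [comp, MvPolynomial.aeval_def, ← MvPolynomial.coe_eval₂Hom u y, eval₂_comp_hom]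
  congr 1
  · ext r
    change eval₂Hom u y (C r) = u r
    rw [MvPolynomial.eval₂Hom_C]
  · funext j
    rw [MvPolynomial.coe_eval₂Hom, MvPolynomial.eval₂_rename]
    rfl

theorem eval_pows {k E : Type} [Field k] [CommRing E] {s : ℕ} (H : MvPolynomial (Fin s) k)
    (d : Fin s → ℕ) (u : k →+* E) (y : Fin s → E) :
    eval₂ u y (pows H d) = eval₂ u (fun j => y j ^ d j) H := by
  rw [pows, MvPolynomial.aeval_def, ← MvPolynomial.coe_eval₂Hom u y, eval₂_comp_hom]
  congr 1
  · ext r
    change eval₂Hom u y (C r) = u r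
    rw [MvPolynomial.eval₂Hom_C]
  · funext j
    rw [map_pow, MvPolynomial.eval₂Hom_X']

/-- the restriction of `h` to the coordinate subspace given by the injection `ι` -/
noncomputable def restr {k : Type} [Field k] {s s' : ℕ} (ι : Fin s' → Fin s) (h : MvPolynomial (Fin s) k) :
    MvPolynomial (Fin s') k := by
  classical
  exact eval₂ C (fun i => if hi : ∃ j, ι j = i then X hi.choose else 0) h

/-- `h` and its restrictions to the coordinate subspaces define members of the class -/
def Mem (P : ∀ (A : Type) [CommRing A], Prop) {k : Type} [Field k] {s : ℕ} (h : MvPolynomial (Fin s) k) : Prop :=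
  P (MvPolynomial (Fin s) k ⧸ Ideal.span {h}) ∧
    ∀ (s' : ℕ) (ι : Fin s' → Fin s), s' < s → Function.Injective ι →
      P (MvPolynomial (Fin s') k ⧸ Ideal.span {restr ι h})

theorem eval_restr {k E : Type} [Field k] [CommRing E] {s s' : ℕ} {ι : Fin s' → Fin s}
    (h : MvPolynomial (Fin s) k) (u : k →+* E) (y : Fin s' → E) (z : Fin s → E)
    (hι : Function.Injective ι) (hz : ∀ j, z (ι j) = y j) (hz0 : ∀ i, (¬ ∃ j, ι j = i) → z i = 0) :
    eval₂ u y (restr ι h) = eval₂ u z h := by
  rw [restr, ← MvPolynomial.coe_eval₂Hom u y, eval₂_comp_hom]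
  congr 1
  · ext r
    change eval₂Hom u y (C r) = u r
    rw [MvPolynomial.eval₂Hom_C]
  · funext i
    split_ifs with hi
    · rw [MvPolynomial.eval₂Hom_X', ← hz, hi.choose_spec]
    · rw [map_zero, hz0 i hi]

theorem T.of_mem (hP : FormalClass p P) {k : Type} [Field k] {s : ℕ} {d : Fin s → ℕ}
    {H : MvPolynomial (Fin s) k} (hH : Mem P (pows H d)) {τ : Type} [IsEmpty τ] :
    T P d (rename Sum.inr H : MvPolynomial (τ ⊕ Fin s) k) := by
  intro K R _ c x t hR
  have hev : ∀ {E : Type} [CommRing E] (u : k →+* E) (y : τ → E) (z : Fin s → E),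
      eval₂ u (Sum.elim y fun i => z i ^ d i) (rename Sum.inr H) = eval₂ u z (pows H d) := by
    intro E _ u y z
    rw [MvPolynomial.eval₂_rename, eval_pows]
    rfl
  by_cases hK : K = ∅
  · subst hK
    have h1 : IsHyp c t (pows H d) := by
      refine ⟨?_, ?_, ?_⟩
      · rw [← hev c x]
        exact hR.rel
      · intro E _ u z hz
        obtain ⟨h, h1, -, h2⟩ := hR.ex E u (fun a => isEmptyElim a) z (by rw [hev]; exact hz)
          (fun i hi => absurd hi (Set.notMem_empty i))
        exact ⟨h, h1, h2⟩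
      · intro E _ h h' h2 h3
        exact hR.uniq E h h' h2 (fun a => isEmptyElim a) h3
    obtain ⟨e⟩ := (isHyp_std (pows H d)).equiv' h1
    exact hP.iso _ _ e hH.1
  · classical
    set s' := Fintype.card {i : Fin s // i ∉ K} with hs'
    let e := (Fintype.equivFin {i : Fin s // i ∉ K}).symm
    set ι : Fin s' → Fin s := fun j => (e j : Fin s) with hι
    have hinj : Function.Injective ι := fun a b h => e.injective (Subtype.ext h)
    have hmem : ∀ j, ι j ∉ K := fun j => (e j).2
    have hsurj : ∀ i, i ∉ K → ∃ j, ι j = i := fun i hi => ⟨e.symm ⟨i, hi⟩, by simp [hι]⟩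
    have hlt : s' < s := by
      obtain ⟨i, hi⟩ := Set.nonempty_iff_ne_empty.2 hK
      have h1 : Fintype.card {i : Fin s // i ∉ K} < Fintype.card (Fin s) :=
        Fintype.card_subtype_lt (x := i) (not_not.2 hi)
      rw [Fintype.card_fin] at h1
      exact h1
    have h1 : IsHyp c (fun j => t (ι j)) (restr ι (pows H d)) := by
      refine ⟨?_, ?_, ?_⟩
      · rw [eval_restr _ c _ t hinj (fun j => rfl) (fun i hi => ?_), ← hev c x]
        · exact hR.rel
        · refine hR.zero i ?_
          by_contra h2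
          exact hi (hsurj i h2)
      · intro E _ u y hy
        set z : Fin s → E := fun i => if hi : ∃ j, ι j = i then y hi.choose else 0 with hz
        have hz1 : ∀ j, z (ι j) = y j := by
          intro j
          have h2 : ∃ j', ι j' = ι j := ⟨j, rfl⟩
          rw [hz]
          simp only
          rw [dif_pos h2]
          exact congrArg y (hinj h2.choose_spec)
        have hz2 : ∀ i, (¬ ∃ j, ι j = i) → z i = 0 := by
          intro i hi
          rw [hz]
          simp only
          rw [dif_neg hi]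
        rw [eval_restr _ u y z hinj hz1 hz2] at hy
        obtain ⟨h, h1, -, h2⟩ := hR.ex E u (fun a => isEmptyElim a) z (by rw [hev]; exact hy) (by
          intro i hi
          refine hz2 i ?_
          rintro ⟨j, rfl⟩
          exact hmem j hi)
        exact ⟨h, h1, fun j => by rw [h2, hz1]⟩
      · intro E _ h h' h2 h3
        refine hR.uniq E h h' h2 (fun a => isEmptyElim a) fun i => ?_
        by_cases hi : i ∈ K
        · rw [hR.zero i hi, map_zero, map_zero]
        · obtain ⟨j, rfl⟩ := hsurj i hi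
          exact h3 j
    obtain ⟨e⟩ := (isHyp_std (restr ι (pows H d))).equiv' h1
    exact hP.iso _ _ e (hH.2 s' ι hlt hinj)

/-- **composition principle** -/
theorem comp_mem (hP : FormalClass p P) {k : Type} [Field k] [Finite k] (hk : (p : k) = 0) {s : ℕ}
    {σ : Fin s → Type} [∀ j, Fintype (σ j)] {F : ∀ j, MvPolynomial (σ j) k} {d : Fin s → ℕ}
    (hF : ∀ j, GoodD P (F j) (d j)) {H : MvPolynomial (Fin s) k} (hH : Mem P (pows H d)) :
    P (MvPolynomial (Σ j, σ j) k ⧸ Ideal.span {comp H F}) := by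
  have h1 : T P d (rename Sum.inr H : MvPolynomial (Empty ⊕ Fin s) k) := T.of_mem hP hH
  have hR := isHyp_std (comp H F)
  refine T.comp hP hk s Empty d _ σ F h1 hF _ ((Ideal.Quotient.mk (Ideal.span {comp H F})).comp C)
    (fun a => isEmptyElim a) (fun j a => Ideal.Quotient.mk (Ideal.span {comp H F}) (X ⟨j, a⟩)) ⟨?_, ?_, ?_⟩
  · rw [MvPolynomial.eval₂_rename]
    have h2 := hR.rel
    rw [eval_comp] at h2
    exact h2
  · intro E _ u x' y' h2
    obtain ⟨h, h3, h4⟩ := hR.ex E u (fun a => y' a.1 a.2) (by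
      rw [eval_comp]
      rw [MvPolynomial.eval₂_rename] at h2
      exact h2)
    exact ⟨h, h3, fun a => isEmptyElim a, fun j a => h4 ⟨j, a⟩⟩
  · intro E _ h h' h2 _ h3
    exact hR.uniq E h h' h2 fun a => h3 a.1 a.2

end Pool.Agent.Helper67.CQ
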