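import Pool.Agent.Helper67.CQ.Unc

/-!
# Examples of forms
-/

set_option autoImplicit false

namespace Pool.Agent.Helper67.CQ

open Pool.Agent.Helper29.CQ (FormalClass Cyc)
open MvPolynomial (eval₂ eval₂Hom IsWeightedHomogeneous IsHomogeneous rename C X monomial)

variable {P : ∀ (A : Type) [CommRing A], Prop} {k : Type} [Field k]

theorem whom_of_hom {s : ℕ} {G : MvPolynomial (Fin s) k} {d : ℕ} (hG : G.IsHomogeneous d) :
    IsWeightedHomogeneous (fun _ => (1 : ℤ)) G (d : ℤ) :=
  whom_cast (w := fun _ => 1) hG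

/-- ternary forms of degree at most four -/
theorem form_ternary {G : MvPolynomial (Fin 3) k} {d : ℕ} (hG : G.IsHomogeneous d) (hd : 0 < d) (hd4 : d ≤ 4) :
    Form P G d := by
  have hw : IsWeightedHomogeneous ![1, 1, 1] G d := by
    have h1 : (![1, 1, 1] : Fin 3 → ℕ) = fun _ => 1 := by
      funext i
      fin_cases i
      · rfl
      · rfl
      · rfl
    rw [h1]
    exact hG
  have hL : Low (MvPolynomial.aeval (![X 0, X 1, 1] : Fin 3 → MvPolynomial (Fin 2) k) G) :=
    Or.inl ((deh_degree G).trans (hG.totalDegree_le.trans hd4))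
  refine Form.basic G _ d hd (whom_of_hom hG) ?_ ?_
  · have h2 := Basic.level (P := P) G 1 1 d 0 Nat.one_pos Nat.one_pos hd hw hL
    rw [map_zero, sub_zero] at h2
    exact h2
  · have h2 := Basic.level (P := P) G 1 1 d 1 Nat.one_pos Nat.one_pos hd hw hL
    rw [map_one] at h2
    exact h2

/-- forms of degree at most three in at most four variables -/
theorem form_cubic {s : ℕ} (hs : s ≤ 4) {G : MvPolynomial (Fin s) k} {d : ℕ} (hG : G.IsHomogeneous d) (hd : 0 < d)
    (hd3 : d ≤ 3) : Form P G d := by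
  have h1 : G.totalDegree ≤ 3 := hG.totalDegree_le.trans hd3
  refine Form.basic G _ d hd (whom_of_hom hG) (Basic.cubic G hs h1) (Basic.cubic _ hs ?_)
  refine (MvPolynomial.totalDegree_sub _ _).trans ?_
  rw [MvPolynomial.totalDegree_one]
  exact max_le h1 (Nat.zero_le _)

/-- quadratic and linear forms -/
theorem form_quadric {s : ℕ} {G : MvPolynomial (Fin s) k} {d : ℕ} (hG : G.IsHomogeneous d) (hd : 0 < d)
    (hd2 : d ≤ 2) : Form P G d := by
  have h1 : G.totalDegree ≤ 2 := hG.totalDegree_le.trans hd2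
  refine Form.basic G _ d hd (whom_of_hom hG) (Basic.quadric G h1) (Basic.quadric _ ?_)
  refine (MvPolynomial.totalDegree_sub _ _).trans ?_
  rw [MvPolynomial.totalDegree_one]
  exact max_le h1 (Nat.zero_le _)

theorem basic_two {s : ℕ} (hs : s ≤ 2) (h : MvPolynomial (Fin s) k) : Basic P h := by
  refine Basic.planar h ?_
  refine (Submodule.finrank_le _).trans ?_
  rw [Module.finrank_fin_fun]
  exact hs

/-- quasi-homogeneous polynomials in at most two variables -/
theorem form_binary {s : ℕ} (hs : s ≤ 2) {G : MvPolynomial (Fin s) k} {w : Fin s → ℤ} {d : ℕ}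
    (hG : IsWeightedHomogeneous w G (d : ℤ)) (hd : 0 < d) : Form P G d :=
  Form.basic G w d hd hG (basic_two hs _) (basic_two hs _)

/-- diagonal polynomials have affinely independent exponents -/
theorem basic_diag {s : ℕ} (d : Fin s → ℕ) (hd : ∀ j, 0 < d j) (c : k) :
    Basic P (∑ j, X j ^ d j - C c : MvPolynomial (Fin s) k) := by
  classical
  refine Basic.simplex _ ?_
  set h : MvPolynomial (Fin s) k := ∑ j, X j ^ d j - C c with hh
  have hsup : ∀ m ∈ h.support, m = 0 ∨ ∃ j, m = Finsupp.single j (d j) := by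
    intro m hm
    by_contra hcon
    push Not at hcon
    rw [MvPolynomial.mem_support_iff, hh, MvPolynomial.coeff_sub, MvPolynomial.coeff_sum, MvPolynomial.coeff_C,
      if_neg (Ne.symm hcon.1), sub_zero] at hm
    refine hm (Finset.sum_eq_zero fun j _ => ?_)
    rw [MvPolynomial.coeff_X_pow, if_neg (Ne.symm (hcon.2 j))]
  rw [affineIndependent_iff]
  intro S w hw0 hw1
  have h2 : ∀ m ∈ S, m.1 ≠ 0 → w m = 0 := by
    intro m hm hm0
    obtain ⟨j, hj⟩ := (hsup m.1 m.2).resolve_left hm0
    have h3 := congrFun hw1 j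
    rw [Finset.sum_apply, Finset.sum_eq_single_of_mem m hm] at h3
    · rw [Pi.smul_apply, hj, Finsupp.single_eq_same, smul_eq_mul, Pi.zero_apply, mul_eq_zero] at h3
      rcases h3 with h3 | h3
      · exact h3
      · exact absurd h3 (by exact_mod_cast (hd j).ne')
    · intro m' _ hne
      rcases hsup m'.1 m'.2 with h4 | ⟨j', h4⟩
      · rw [Pi.smul_apply, h4, Finsupp.coe_zero, Pi.zero_apply, Nat.cast_zero, smul_zero]
      · have h5 : j' ≠ j := by
          rintro rfl
          exact hne (Subtype.ext (h4.trans hj.symm))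
        rw [Pi.smul_apply, h4, Finsupp.single_eq_of_ne' h5, Nat.cast_zero, smul_zero]
  intro m hm
  by_cases hm0 : m.1 = 0
  · rw [Finset.sum_eq_single_of_mem m hm] at hw0
    · exact hw0
    · intro m' hm' hne
      refine h2 m' hm' fun h0 => hne (Subtype.ext (h0.trans hm0.symm))
  · exact h2 m hm hm0

/-- sums of forms in disjoint variables -/
theorem sums {p : ℕ} (hp : p.Prime) (hp2 : p ≠ 2) (hP : FormalClass p P) [Finite k] [CharP k p] {s : ℕ}
    {σ : Fin s → Type} [∀ j, Fintype (σ j)] {F : ∀ j, MvPolynomial (σ j) k} {d : Fin s → ℕ}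
    (hF : ∀ j, Form P (F j) (d j)) (c : k) :
    P (MvPolynomial (Σ j, σ j) k ⧸ Ideal.span {∑ j, rename (Sigma.mk j) (F j) - C c}) := by
  have hd : ∀ j, 0 < d j := fun j => Nat.pos_of_ne_zero
    ((hF j).good hp hP (CharP.cast_eq_zero k p) (fun f hf n hn => low_mem hp hp2 hP f hf n hn)).1
  have h1 := compositions_main hp hp2 hP hF (H := ∑ j, X j - C c) (by
    have h2 : pows (∑ j, X j - C c : MvPolynomial (Fin s) k) d = ∑ j, X j ^ d j - C c := by
      rw [pows, map_sub, map_sum, MvPolynomial.algHom_C]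
      congr 1
      exact Finset.sum_congr rfl fun j _ => by rw [MvPolynomial.aeval_X]
    rw [h2]
    exact basic_diag d hd c)
  have h3 : comp (∑ j, X j - C c : MvPolynomial (Fin s) k) F = ∑ j, rename (Sigma.mk j) (F j) - C c := by
    rw [comp, map_sub, map_sum, MvPolynomial.algHom_C]
    congr 1
    exact Finset.sum_congr rfl fun j _ => by rw [MvPolynomial.aeval_X]
  rw [h3] at h1
  exact h1

end Pool.Agent.Helper67.CQ
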