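import Pool.Agent.Helper67.CQ.Basic
import Pool.Agent.Helper9.FT.Main

/-!
# Polynomials with few monomials
-/

set_option autoImplicit false

namespace Pool.Agent.Helper67.CQ

open Pool.Agent.Helper87.CC (IsLC ft_of_surj ft_alg ft_loc Tame dim_le_one)
open Pool.Agent.Helper29.CQ (FormalClass Cyc)
open Pool.Agent.Helper62.RO (KClass Cls Fun Crd Act Rep UG Aff crd VS bt map_bt um Ft good_ft_aff)
open Pool.Agent.Helper9.FT (ug_mem rep_quot)
open MvPolynomial (eval₂ eval₂Hom IsWeightedHomogeneous rename C X monomial)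
open TensorProduct

variable {p : ℕ} {P : ∀ (A : Type) [CommRing A], Prop}

section

variable {k : Type} [Field k] [Finite k]

theorem ft_of_k {A : Type} [CommRing A] [Algebra k A] (h : Algebra.FiniteType k A) : Algebra.FiniteType ℤ A := by
  have h1 : Algebra.FiniteType ℤ k := by
    have : Module.Finite ℤ k := Module.Finite.of_finite
    infer_instance
  exact ft_alg h1 h

omit [Finite k] in
theorem char_of_k (hk : (p : k) = 0) (A : Type) [CommRing A] [Algebra k A] : (p : A) = 0 := by
  rw [← map_natCast (algebraMap k A), hk, map_zero]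

/-- the algebras over `k` in the class -/
theorem kclass (hP : FormalClass p P) (hk : (p : k) = 0) : KClass k (fun d => d ≠ 0) (fun A _ _ => P A) where
  adm_ne d h := h
  adm_one := one_ne_zero
  adm_mul d e hd he := mul_ne_zero hd he
  ft A _ _ h := by
    have := hP.ft A h
    exact Algebra.FiniteType.of_restrictScalars_finiteType ℤ k A
  iso A B _ _ _ _ e h := hP.iso A B e.toRingEquiv h
  glue A _ _ a hA h1 h2 := hP.glue A a (ft_of_k hA) (char_of_k hk A) h1 h2
  kummer A _ _ a d hA _ hd h := adjoin_transfer hP (ft_of_k hA) hd a h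
  tensor A B _ _ _ _ hA hB := by
    have h : IsTK k (Algebra.TensorProduct.includeLeftRingHom : A →+* A ⊗[k] B)
        ((Algebra.TensorProduct.includeRight : B →ₐ[k] A ⊗[k] B) : B →+* A ⊗[k] B) := by
      refine ⟨?_, ?_, ?_⟩
      · intro s
        change (algebraMap k A s) ⊗ₜ[k] (1 : B) = (1 : A) ⊗ₜ[k] (algebraMap k B s)
        rw [Algebra.algebraMap_eq_smul_one, Algebra.algebraMap_eq_smul_one, TensorProduct.smul_tmul]
      · intro E _ u v huv
        let _ : Algebra k E := (u.comp (algebraMap k A)).toAlgebra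
        let u' : A →ₐ[k] E := ⟨u, fun _ => rfl⟩
        let v' : B →ₐ[k] E := ⟨v, fun s => (huv s).symm⟩
        let T : A ⊗[k] B →ₐ[k] E := Algebra.TensorProduct.lift u' v' (fun _ _ => Commute.all _ _)
        refine ⟨(T : A ⊗[k] B →+* E), ?_, ?_⟩
        · ext a
          change T (a ⊗ₜ[k] (1 : B)) = u a
          rw [Algebra.TensorProduct.lift_tmul, map_one, mul_one]
          rfl
        · ext b
          change T ((1 : A) ⊗ₜ[k] b) = v b
          rw [Algebra.TensorProduct.lift_tmul, map_one, one_mul]
          rfl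
      · intro E _ h h' h1 h2
        refine RingHom.ext fun z => ?_
        induction z using TensorProduct.induction_on with
        | zero => rw [map_zero, map_zero]
        | tmul a b =>
          have h3 : a ⊗ₜ[k] b = (a ⊗ₜ[k] (1 : B)) * ((1 : A) ⊗ₜ[k] b) := by
            rw [Algebra.TensorProduct.tmul_mul_tmul, mul_one, one_mul]
          rw [h3, map_mul, map_mul]
          congr 1
          · exact RingHom.congr_fun h1 a
          · exact RingHom.congr_fun h2 b
        | add x y hx hy => rw [map_add, map_add, hx, hy]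
    exact p_tk hP h hA hB
  curve C _ _ hC hC1 := hP.curve C (ft_of_k hC) (char_of_k hk C) hC1

omit [Finite k] in
theorem aeval_eq {W : Type} [CommRing W] [Algebra k W] {ι : Type} (x : ι → W) (f : MvPolynomial ι k) :
    MvPolynomial.aeval x f = eval₂ (algebraMap k W) x f := rfl

/-- the function `x_j` or `0` -/
noncomputable def zc {s s' : ℕ} (ι : Fin s' → Fin s) (i : Fin s) : Crd (Aff (k := k) (Fin s')) where
  val W _ _ x := by
    classical
    exact if hi : ∃ j, ι j = i then x hi.choose else 0
  nat {W V} _ _ _ _ f x := by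
    by_cases hi : ∃ j, ι j = i
    · rw [dif_pos hi, dif_pos hi]
    · rw [dif_neg hi, dif_neg hi, map_zero]

omit [Finite k] in
theorem zc_pos {s s' : ℕ} {ι : Fin s' → Fin s} (hι : Function.Injective ι) (j : Fin s') {W : Type} [CommRing W]
    [Algebra k W] (x : Fin s' → W) : (zc (k := k) ι (ι j)).val W x = x j := by
  have h2 : ∃ j', ι j' = ι j := ⟨j, rfl⟩
  change (if hi : ∃ j', ι j' = ι j then x hi.choose else 0) = x j
  rw [dif_pos h2]
  exact congrArg x (hι h2.choose_spec)

omit [Finite k] in
theorem zc_neg {s s' : ℕ} {ι : Fin s' → Fin s} {i : Fin s} (hi : ¬ ∃ j, ι j = i) {W : Type} [CommRing W]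
    [Algebra k W] (x : Fin s' → W) : (zc (k := k) ι i).val W x = 0 := by
  change (if hi : ∃ j', ι j' = i then x hi.choose else 0) = 0
  rw [dif_neg hi]

theorem mem_of_ug (hP : FormalClass p P) (hk : (p : k) = 0) {s : ℕ} {h : MvPolynomial (Fin s) k}
    (hh : UG (fun d => d ≠ 0) (fun (A : Type) [CommRing A] [Algebra k A] => P A) {h}) : Mem P h := by
  classical
  have hM := kclass (k := k) hP hk
  refine ⟨ug_mem hM hh, fun s' ι _ hι => ?_⟩
  have h1 := hh (Aff (Fin s')) (fun _ _ _ _ => True) (zc ι) (fun _ => 1) (good_ft_aff (Fin s'))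
    (fun _ => hM.adm_one) ⟨{
      act := fun W _ _ u x => fun j => (u (ι j) : W) * x j
      nat := by
        intro W V _ _ _ _ f u x _
        funext j
        change f ((u (ι j) : W) * x j) = f (u (ι j) : W) * f (x j)
        rw [map_mul]
      pres := fun _ _ _ _ _ _ => trivial
      inv := by
        intro W _ _ u x _
        funext j
        change ((u⁻¹ : Fin s → Wˣ) (ι j) : W) * ((u (ι j) : W) * x j) = x j
        rw [Pi.inv_apply, Units.inv_mul_cancel_left]
      eq := by
        intro W _ _ u x _ l
        rw [pow_one]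
        by_cases hl : ∃ j, ι j = l
        · obtain ⟨j, rfl⟩ := hl
          rw [zc_pos hι, zc_pos hι]
        · rw [zc_neg hl, zc_neg hl, mul_zero] }⟩ (fun ε => by
      let I : Ideal k := Ideal.span {c | ∃ l, (¬ ∃ j, ι j = l) ∧ c = bt k (ε l)}
      have h2 : Rep (Aff (k := k) (Fin s')) (fun W _ _ x => True ∧ ∀ l, (zc ι l).val W x = bt W (ε l)) (k ⧸ I)
          (fun j => algebraMap k (k ⧸ I) (bt k (ε (ι j)))) := by
        refine ⟨?_, ?_, ?_⟩
        · intro W _ _ f
          refine ⟨trivial, fun l => ?_⟩
          by_cases hl : ∃ j, ι j = l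
          · obtain ⟨j, rfl⟩ := hl
            rw [zc_pos hι]
            change f (algebraMap k (k ⧸ I) (bt k (ε (ι j)))) = _
            rw [AlgHom.commutes]
            exact map_bt (Algebra.ofId k W) (ε (ι j))
          · rw [zc_neg hl]
            have h3 : algebraMap k (k ⧸ I) (bt k (ε l)) = 0 :=
              Ideal.Quotient.eq_zero_iff_mem.2 (Ideal.subset_span ⟨l, hl, rfl⟩)
            have h4 : f (algebraMap k (k ⧸ I) (bt k (ε l))) = 0 := by rw [h3, map_zero]
            rw [AlgHom.commutes] at h4
            rw [← h4]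
            exact map_bt (Algebra.ofId k W) (ε l)
        · rintro W _ _ x ⟨-, hx⟩
          have h3 : ∀ c ∈ I, Algebra.ofId k W c = 0 := by
            have h4 : I ≤ RingHom.ker (Algebra.ofId k W) := by
              rw [Ideal.span_le]
              rintro c ⟨l, hl, rfl⟩
              rw [SetLike.mem_coe, RingHom.mem_ker, map_bt, ← hx l, zc_neg hl]
            exact h4
          refine ⟨Ideal.Quotient.liftₐ I (Algebra.ofId k W) h3, ?_⟩
          funext j
          change Ideal.Quotient.liftₐ I (Algebra.ofId k W) h3 (algebraMap k (k ⧸ I) (bt k (ε (ι j)))) = x j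
          rw [AlgHom.commutes, ← zc_pos (k := k) hι j x, hx]
          exact map_bt (Algebra.ofId k W) (ε (ι j))
        · intro W _ _ f g _
          exact Ideal.Quotient.algHom_ext k (Subsingleton.elim _ _)
      refine ⟨k ⧸ I, _, _, _, h2, hM.curve (k ⧸ I) inferInstance ?_⟩
      refine (ringKrullDim_quotient_le I).trans ?_
      rw [ringKrullDim_eq_zero_of_field]
      exact zero_le_one)
  have h2 : Pool.Agent.Helper62.RO.Good (fun (A : Type) [CommRing A] [Algebra k A] => P A) (Aff (Fin s'))
      (VS {restr ι h}) := h1.congr (fun W _ _ x => by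
    have h3 : MvPolynomial.aeval x (restr ι h) = MvPolynomial.aeval (fun l => (zc ι l).val W x) h := by
      rw [aeval_eq, aeval_eq]
      exact eval_restr h _ x _ hι (fun j => zc_pos hι j x) (fun i hi => zc_neg hi x)
    constructor
    · rintro ⟨-, h4⟩ f hf
      rw [Set.mem_singleton_iff.1 hf, h3]
      exact h4 h rfl
    · intro h4
      refine ⟨trivial, ?_⟩
      intro f hf
      rw [Set.mem_singleton_iff.1 hf, ← h3]
      exact h4 _ rfl)
  exact h2.mem hM (rep_quot _)

/-- polynomials with at most four monomials -/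
theorem mem_four (hP : FormalClass p P) (hk : (p : k) = 0) {s : ℕ} {h : MvPolynomial (Fin s) k}
    (hh : h.support.card ≤ 4) : Mem P h :=
  mem_of_ug hP hk (Pool.Agent.Helper9.FT.ug_four (kclass hP hk) (fun _ => Iff.rfl) h hh)

/-- polynomials with coplanar exponents -/
theorem mem_planar (hP : FormalClass p P) (hk : (p : k) = 0) {s : ℕ} {h : MvPolynomial (Fin s) k}
    (hh : Module.finrank ℚ (vectorSpan ℚ (Set.range fun d : h.support => fun i => ((d.1 i : ℕ) : ℚ))) ≤ 2) :
    Mem P h :=
  mem_of_ug hP hk (Pool.Agent.Helper9.FT.ug_planar (kclass hP hk) h hh)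

end

end Pool.Agent.Helper67.CQ
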