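import Pool.Agent.Helper67.CQ.Few

/-!
# Forms and their compositions
-/

set_option autoImplicit false

namespace Pool.Agent.Helper67.CQ

open Pool.Agent.Helper87.CC (IsLC ft_of_surj ft_alg ft_loc Tame dim_le_one)
open Pool.Agent.Helper29.CQ (FormalClass Cyc)
open MvPolynomial (eval₂ eval₂Hom IsWeightedHomogeneous rename C X monomial)

variable {p : ℕ} {P : ∀ (A : Type) [CommRing A], Prop}

section

variable {k : Type} [Field k]

theorem whom_rename {σ τ : Type} (f : σ → τ) {v : σ → ℤ} {w : τ → ℤ} {c : ℤ} (hw : ∀ a, w (f a) = c * v a) {n : ℤ}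
    {φ : MvPolynomial σ k} (hφ : IsWeightedHomogeneous v φ n) : IsWeightedHomogeneous w (rename f φ) (c * n) := by
  intro m hm
  obtain ⟨u, hu, hu'⟩ := MvPolynomial.coeff_rename_ne_zero f φ m hm
  have h1 := hφ hu'
  rw [← hu, ← h1, Finsupp.weight_apply, Finsupp.weight_apply, Finsupp.sum_mapDomain_index (by simp)
    (fun _ _ _ => by rw [add_smul]), Finsupp.sum, Finsupp.sum, Finset.mul_sum]
  refine Finset.sum_congr rfl fun a _ => ?_
  rw [hw, nsmul_eq_mul, nsmul_eq_mul]
  ring

theorem whom_cast {σ : Type} {w : σ → ℕ} {d : ℕ} {G : MvPolynomial σ k} (hG : IsWeightedHomogeneous w G d) :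
    IsWeightedHomogeneous (fun i => (w i : ℤ)) G (d : ℤ) := by
  intro m hm
  have h1 := hG hm
  rw [← h1, Finsupp.weight_apply, Finsupp.weight_apply, Finsupp.sum, Finsupp.sum, Nat.cast_sum]
  refine Finset.sum_congr rfl fun a _ => ?_
  rw [nsmul_eq_mul, smul_eq_mul, Nat.cast_mul]

theorem whom_comp {s : ℕ} {σ : Fin s → Type} {F : ∀ j, MvPolynomial (σ j) k} {d : Fin s → ℕ} (v : ∀ j, σ j → ℤ)
    (hF : ∀ j, IsWeightedHomogeneous (v j) (F j) (d j : ℤ)) {w : Fin s → ℤ} {e : ℤ} {H : MvPolynomial (Fin s) k}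
    (hH : IsWeightedHomogeneous (fun j => (d j : ℤ) * w j) H e) :
    IsWeightedHomogeneous (fun a : Σ j, σ j => w a.1 * v a.1 a.2) (comp H F) e := by
  rw [comp, MvPolynomial.aeval_def, MvPolynomial.eval₂_eq']
  refine IsWeightedHomogeneous.sum _ _ _ fun m hm => ?_
  have h1 := hH (MvPolynomial.mem_support_iff.1 hm)
  have h2 : ∀ j, IsWeightedHomogeneous (fun a : Σ j, σ j => w a.1 * v a.1 a.2) (rename (Sigma.mk j) (F j) ^ m j)
      (m j • (w j * (d j : ℤ))) := fun j =>
    (whom_rename (Sigma.mk j) (fun a => rfl) (hF j)).pow (m j)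
  have h3 := IsWeightedHomogeneous.prod Finset.univ _ _ (fun j _ => h2 j)
  have h4 := (MvPolynomial.isWeightedHomogeneous_C (R := k) (fun a : Σ j, σ j => w a.1 * v a.1 a.2)
    (H.coeff m)).mul h3
  rw [zero_add] at h4
  have h5 : ∑ j, m j • (w j * (d j : ℤ)) = e := by
    rw [← h1, Finsupp.weight_apply, Finsupp.sum_fintype _ _ (by simp)]
    exact Finset.sum_congr rfl fun j _ => by rw [mul_comm (w j)]
  rw [h5] at h4
  exact h4

theorem comp_sub_one {s : ℕ} {σ : Fin s → Type} (H : MvPolynomial (Fin s) k) (F : ∀ j, MvPolynomial (σ j) k) :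
    comp (H - 1) F = comp H F - 1 := by
  rw [comp, map_sub, map_one]
  rfl

theorem pows_sub_one {s : ℕ} (H : MvPolynomial (Fin s) k) (d : Fin s → ℕ) : pows (H - 1) d = pows H d - 1 := by
  rw [pows, map_sub, map_one]
  rfl

theorem GoodD.comp [Finite k] (hP : FormalClass p P) (hk : (p : k) = 0) {s : ℕ} {σ : Fin s → Type}
    [∀ j, Fintype (σ j)] {F : ∀ j, MvPolynomial (σ j) k} {d : Fin s → ℕ} (hF : ∀ j, GoodD P (F j) (d j))
    {H : MvPolynomial (Fin s) k} {w : Fin s → ℤ} {e : ℕ} (he : e ≠ 0)
    (hw : IsWeightedHomogeneous (fun j => (d j : ℤ) * w j) H (e : ℤ)) (h0 : Mem P (pows H d))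
    (h1 : Mem P (pows H d - 1)) : GoodD P (comp H F) e := by
  choose v hv using fun j => (hF j).2.1
  refine ⟨he, ⟨_, whom_comp v hv hw⟩, comp_mem hP hk hF h0, ?_⟩
  rw [← comp_sub_one]
  refine comp_mem hP hk hF ?_
  rw [pows_sub_one]
  exact h1

/-! ### the surfaces -/

theorem hyp_cover {n : ℕ} {f : MvPolynomial (Fin 2) k} {B : Type} [CommRing B] {i : MvPolynomial (Fin 2) k →+* B}
    {w : B} (hK : IsKum i w n f) : IsHyp (i.comp C) (![i (X 0), i (X 1), w] : Fin 3 → B)
      (X 2 ^ n - rename Fin.castSucc f) := by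
  have hev : ∀ (E : Type) [CommRing E] (u : k →+* E) (y : Fin 3 → E),
      eval₂ u y (X 2 ^ n - rename Fin.castSucc f) = y 2 ^ n - eval₂ u ![y 0, y 1] f := by
    intro E _ u y
    rw [MvPolynomial.eval₂_sub, MvPolynomial.eval₂_rename, MvPolynomial.eval₂_pow, MvPolynomial.eval₂_X]
    congr 2
    funext j
    fin_cases j
    · rfl
    · rfl
  refine ⟨?_, ?_, ?_⟩
  · rw [hev]
    have h1 := hom_eval i f
    have h2 : (![i (X 0), i (X 1)] : Fin 2 → B) = fun j => i (X j) := by
      funext j
      fin_cases j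
      · rfl
      · rfl
    change w ^ n - eval₂ (i.comp C) ![i (X 0), i (X 1)] f = 0
    rw [h2, h1, hK.rel, sub_self]
  · intro E _ u y hy
    rw [hev, sub_eq_zero] at hy
    obtain ⟨h, h1, h2⟩ := hK.ex E (eval₂Hom u ![y 0, y 1]) (y 2) (by rw [MvPolynomial.coe_eval₂Hom, hy])
    refine ⟨h, ?_, ?_⟩
    · rw [← RingHom.comp_assoc, h1]
      ext r
      rw [RingHom.comp_apply, MvPolynomial.eval₂Hom_C]
    · intro j
      fin_cases j
      · change h (i (X 0)) = y 0
        rw [← RingHom.comp_apply, h1, MvPolynomial.eval₂Hom_X']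
        rfl
      · change h (i (X 1)) = y 1
        rw [← RingHom.comp_apply, h1, MvPolynomial.eval₂Hom_X']
        rfl
      · exact h2
  · intro E _ h h' h1 h2
    refine hK.uniq E _ _ ?_ (h2 2)
    apply MvPolynomial.ringHom_ext
    · intro r
      exact RingHom.congr_fun h1 r
    · intro j
      fin_cases j
      · exact h2 0
      · exact h2 1

theorem p_cover (hP : FormalClass p P) {n : ℕ} {f : MvPolynomial (Fin 2) k} (h : P (Cyc n f)) :
    P (MvPolynomial (Fin 3) k ⧸ Ideal.span {X 2 ^ n - rename Fin.castSucc f}) := by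
  obtain ⟨e⟩ := (hyp_cover (isKum_std n f)).equiv' (isHyp_std _)
  exact hP.iso _ _ e h

theorem Low.smul {f : MvPolynomial (Fin 2) k} (hf : Low f) (c : k) : Low (C c * f) := by
  rcases hf with hf | hf
  · left
    refine (MvPolynomial.totalDegree_mul _ _).trans ?_
    rw [MvPolynomial.totalDegree_C, zero_add]
    exact hf
  · right
    intro m hm
    refine hf m ?_
    rw [MvPolynomial.mem_support_iff, MvPolynomial.coeff_C_mul] at hm
    rw [MvPolynomial.mem_support_iff]
    exact right_ne_zero_of_mul hm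

theorem p_level [Finite k] (hP : FormalClass p P) (hk : (p : k) = 0)
    (hC : ∀ (f : MvPolynomial (Fin 2) k), Low f → ∀ n : ℕ, 0 < n → P (Cyc n f)) {w : Fin 3 → ℤ} (hw : w 2 = 1)
    {d : ℕ} (hd : 0 < d) {G : MvPolynomial (Fin 3) k} (hG : IsWeightedHomogeneous w G (d : ℤ)) (hL : Low (deh G))
    (c : k) : P (MvPolynomial (Fin 3) k ⧸ Ideal.span {G - C c}) := by
  by_cases hc : c = 0
  · subst hc
    rw [map_zero, sub_zero]
    exact tern_zero hP hk hw hG
  · have h1 : deh (C c⁻¹ * G) = C c⁻¹ * deh G := by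
      rw [deh, MvPolynomial.eval₂_mul, MvPolynomial.eval₂_C]
      rfl
    have h2 := tern_one hP hk hw hd.ne' (hG.C_mul c⁻¹) (by rw [h1]; exact hC _ (hL.smul _) d hd)
    have h3 : Ideal.span {C c⁻¹ * G - 1} = Ideal.span {G - C c} := by
      have h4 : C c⁻¹ * G - 1 = (G - C c) * C c⁻¹ := by
        rw [sub_mul, ← map_mul C, mul_inv_cancel₀ hc, map_one, mul_comm]
      rw [h4]
      exact Ideal.span_singleton_mul_right_unit ((isUnit_iff_ne_zero.2 (inv_ne_zero hc)).map C) _
    rw [h3] at h2
    exact h2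

/-- restriction to coordinate subspaces -/
theorem mem_member [Finite k] (hP : FormalClass p P) (hk : (p : k) = 0) {s : ℕ} {h : MvPolynomial (Fin s) k}
    (hh : ∀ S : Finset (Fin s), S.card + 3 ≤ s →
      P (MvPolynomial (Fin s) k ⧸ Ideal.span (insert h ((fun i => X i) '' (S : Set (Fin s)))))) : Mem P h := by
  classical
  constructor
  · by_cases hs : 3 ≤ s
    · have h1 := hh ∅ (by simpa using hs)
      rw [Finset.coe_empty, Set.image_empty, insert_empty_eq] at h1
      exact h1
    · exact p_two hP hk (by omega) h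
  · intro s' ι _ hι
    by_cases hs : 3 ≤ s'
    · set S : Finset (Fin s) := Finset.univ \ Finset.univ.image ι with hS
      have hS1 : ∀ i, i ∈ S ↔ ¬ ∃ j, ι j = i := by
        intro i
        rw [hS, Finset.mem_sdiff, Finset.mem_image]
        simp
      have hcard : S.card + 3 ≤ s := by
        have h1 : S.card = s - s' := by
          rw [hS, Finset.card_sdiff_of_subset (Finset.subset_univ _), Finset.card_image_of_injective _ hι]
          simp
        have h2 := card_le hι
        omega
      have h1 := hh S hcard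
      set I : Ideal (MvPolynomial (Fin s) k) := Ideal.span (insert h ((fun i => X i) '' (S : Set (Fin s)))) with hI
      have hyp : IsHyp ((Ideal.Quotient.mk I).comp C) (fun j => Ideal.Quotient.mk I (X (ι j))) (restr ι h) := by
        refine ⟨?_, ?_, ?_⟩
        · rw [eval_restr h _ _ (fun i => Ideal.Quotient.mk I (X i)) hι (fun j => rfl) (fun i hi => by
            refine Ideal.Quotient.eq_zero_iff_mem.2 (Ideal.subset_span (Or.inr ⟨i, ?_, rfl⟩))
            exact (hS1 i).2 hi)]
          rw [hom_eval (Ideal.Quotient.mk I) h]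
          exact Ideal.Quotient.eq_zero_iff_mem.2 (Ideal.subset_span (Or.inl rfl))
        · intro E _ u y hy
          set z : Fin s → E := fun i => if hi : ∃ j, ι j = i then y hi.choose else 0 with hz
          have hz1 : ∀ j, z (ι j) = y j := by
            intro j
            have h2 : ∃ j', ι j' = ι j := ⟨j, rfl⟩
            rw [hz]
            simp only
            rw [dif_pos h2]
            exact congrArg y (hι h2.choose_spec)
          have hz2 : ∀ i, (¬ ∃ j, ι j = i) → z i = 0 := by
            intro i hi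
            rw [hz]
            simp only
            rw [dif_neg hi]
          rw [eval_restr _ u y z hι hz1 hz2] at hy
          have h2 : ∀ q ∈ I, eval₂Hom u z q = 0 := by
            have h3 : I ≤ RingHom.ker (eval₂Hom u z) := by
              rw [hI, Ideal.span_le]
              rintro q (rfl | ⟨i, hi, rfl⟩)
              · exact hy
              · rw [SetLike.mem_coe, RingHom.mem_ker, MvPolynomial.eval₂Hom_X']
                exact hz2 i ((hS1 i).1 hi)
            exact h3
          refine ⟨Ideal.Quotient.lift I _ h2, ?_, ?_⟩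
          · ext r
            change eval₂Hom u z (C r) = u r
            rw [MvPolynomial.eval₂Hom_C]
          · intro j
            change eval₂Hom u z (X (ι j)) = y j
            rw [MvPolynomial.eval₂Hom_X', hz1]
        · intro E _ g g' h2 h3
          apply Ideal.Quotient.ringHom_ext
          apply MvPolynomial.ringHom_ext
          · intro r
            exact RingHom.congr_fun h2 r
          · intro i
            by_cases hi : ∃ j, ι j = i
            · obtain ⟨j, rfl⟩ := hi
              exact h3 j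
            · have h4 : Ideal.Quotient.mk I (X i) = 0 :=
                Ideal.Quotient.eq_zero_iff_mem.2 (Ideal.subset_span (Or.inr ⟨i, (hS1 i).2 hi, rfl⟩))
              rw [RingHom.comp_apply, RingHom.comp_apply, h4, map_zero, map_zero]
      obtain ⟨e⟩ := hyp.equiv' (isHyp_std (restr ι h))
      exact hP.iso _ _ e h1
    · exact p_two hP hk (by omega) _

end

end Pool.Agent.Helper67.CQ
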