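import Pool.Agent.Helper67.CQ.TK
import Pool.Agent.Helper67.CQ.Z2

/-!
# Adding a weighted homogeneous form in new variables
-/

set_option autoImplicit false

namespace Pool.Agent.Helper67.CQ

open Pool.Agent.Helper87.CC (IsLC ft_of_surj ft_alg ft_loc)
open Pool.Agent.Helper29.CQ (FormalClass)
open MvPolynomial (eval₂ eval₂Hom IsWeightedHomogeneous)

variable {p : ℕ} {P : ∀ (A : Type) [CommRing A], Prop}

/-- `R` represents the zeros of the polynomial `F` over `k` -/
structure IsHyp {k ι R : Type} [Field k] [CommRing R] (c : k →+* R) (x : ι → R) (F : MvPolynomial ι k) : Prop where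
  rel : eval₂ c x F = 0
  ex : ∀ (E : Type) [CommRing E] (u : k →+* E) (y : ι → E), eval₂ u y F = 0 →
    ∃ h : R →+* E, h.comp c = u ∧ ∀ i, h (x i) = y i
  uniq : ∀ (E : Type) [CommRing E] (h h' : R →+* E), h.comp c = h'.comp c → (∀ i, h (x i) = h' (x i)) → h = h'

theorem isHyp_std {k ι : Type} [Field k] (F : MvPolynomial ι k) :
    IsHyp ((Ideal.Quotient.mk (Ideal.span {F})).comp MvPolynomial.C)
      (fun i => Ideal.Quotient.mk (Ideal.span {F}) (MvPolynomial.X i)) F where
  rel := by
    have h1 : Ideal.Quotient.mk (Ideal.span {F}) F = 0 :=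
      Ideal.Quotient.eq_zero_iff_mem.2 (Ideal.mem_span_singleton_self F)
    have h2 : eval₂Hom ((Ideal.Quotient.mk (Ideal.span {F})).comp MvPolynomial.C)
        (fun i => Ideal.Quotient.mk (Ideal.span {F}) (MvPolynomial.X i)) = Ideal.Quotient.mk (Ideal.span {F}) := by
      apply MvPolynomial.ringHom_ext
      · intro r; rw [MvPolynomial.eval₂Hom_C]; rfl
      · intro i; rw [MvPolynomial.eval₂Hom_X']
    have h3 := RingHom.congr_fun h2 F
    rw [h1] at h3
    exact h3
  ex E _ u y h := by
    refine ⟨Ideal.Quotient.lift _ (eval₂Hom u y) ?_, ?_, ?_⟩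
    · intro a ha
      obtain ⟨t, rfl⟩ := Ideal.mem_span_singleton'.1 ha
      rw [map_mul]
      have h1 : eval₂Hom u y F = 0 := h
      rw [h1, mul_zero]
    · ext r
      simp
    · intro i
      simp
  uniq E _ h h' h1 h2 := by
    apply Ideal.Quotient.ringHom_ext
    apply MvPolynomial.ringHom_ext
    · intro r
      exact RingHom.congr_fun h1 r
    · exact h2

theorem eval₂_comp_hom {k ι R E : Type} [Field k] [CommRing R] [CommRing E] (h : R →+* E) (c : k →+* R) (x : ι → R)
    (F : MvPolynomial ι k) : h (eval₂ c x F) = eval₂ (h.comp c) (fun i => h (x i)) F :=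
  MvPolynomial.hom_eval₂ F c h x

/-- change of coordinates -/
theorem IsHyp.equiv {k ι ι' R R' : Type} [Field k] [CommRing R] [CommRing R'] {c : k →+* R} {x : ι → R}
    {F : MvPolynomial ι k} (hR : IsHyp c x F) {c' : k →+* R'} {x' : ι' → R'} {F' : MvPolynomial ι' k}
    (hR' : IsHyp c' x' F') (e : ι' ≃ ι) (he : MvPolynomial.rename e F' = F) : Nonempty (R ≃+* R') := by
  subst he
  obtain ⟨f, f1, f2⟩ := hR.ex R' c' (fun i => x' (e.symm i)) (by
    rw [MvPolynomial.eval₂_rename]
    have h1 : (fun i => x' (e.symm i)) ∘ e = x' := by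
      funext i
      simp
    rw [h1]
    exact hR'.rel)
  obtain ⟨g, g1, g2⟩ := hR'.ex R c (fun i => x (e i)) (by
    have h1 := hR.rel
    rw [MvPolynomial.eval₂_rename] at h1
    exact h1)
  refine ⟨RingEquiv.ofRingHom f g ?_ ?_⟩
  · refine hR'.uniq _ _ _ ?_ ?_
    · rw [RingHom.comp_assoc, g1, f1, RingHom.id_comp]
    · intro i
      rw [RingHom.comp_apply, g2, f2, RingHom.id_apply, e.symm_apply_apply]
  · refine hR.uniq _ _ _ ?_ ?_
    · rw [RingHom.comp_assoc, f1, g1, RingHom.id_comp]
    · intro i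
      rw [RingHom.comp_apply, f2, g2, RingHom.id_apply, e.apply_symm_apply]

theorem IsHyp.equiv' {k ι R R' : Type} [Field k] [CommRing R] [CommRing R'] {c : k →+* R} {x : ι → R}
    {F : MvPolynomial ι k} (hR : IsHyp c x F) {c' : k →+* R'} {x' : ι → R'} (hR' : IsHyp c' x' F) :
    Nonempty (R ≃+* R') :=
  hR.equiv hR' (Equiv.refl ι) (by simp)

/-- weighted homogeneity -/
theorem whom_eval {k σ E : Type} [Field k] [Fintype σ] [CommRing E] {w : σ → ℕ} {d : ℕ} {g : MvPolynomial σ k}
    (hg : IsWeightedHomogeneous w g d) (u : k →+* E) (t : E) (y : σ → E) :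
    eval₂ u (fun i => t ^ w i * y i) g = t ^ d * eval₂ u y g := by
  rw [MvPolynomial.eval₂_eq', MvPolynomial.eval₂_eq', Finset.mul_sum]
  refine Finset.sum_congr rfl fun m hm => ?_
  have h1 : Finsupp.weight w m = d := hg (MvPolynomial.mem_support_iff.1 hm)
  have h2 : ∏ i, (t ^ w i * y i) ^ m i = t ^ d * ∏ i, y i ^ m i := by
    simp only [mul_pow, Finset.prod_mul_distrib, ← pow_mul]
    rw [Finset.prod_pow_eq_pow_sum]
    congr 2
    rw [← h1, Finsupp.weight_apply, Finsupp.sum_fintype _ _ (by simp)]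
    exact Finset.sum_congr rfl fun i _ => by rw [smul_eq_mul, mul_comm]
  rw [h2]
  ring

/-- `J` represents the zeros of `b + g` over the `k`-algebra `B` -/
structure IsJ {k B σ J : Type} [Field k] [CommRing B] [Algebra k B] [CommRing J] (i : B →+* J) (x : σ → J) (b : B)
    (g : MvPolynomial σ k) : Prop where
  rel : i b + eval₂ (i.comp (algebraMap k B)) x g = 0
  ex : ∀ (E : Type) [CommRing E] (u : B →+* E) (y : σ → E), u b + eval₂ (u.comp (algebraMap k B)) y g = 0 →
    ∃ h : J →+* E, h.comp i = u ∧ ∀ a, h (x a) = y a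
  uniq : ∀ (E : Type) [CommRing E] (h h' : J →+* E), h.comp i = h'.comp i → (∀ a, h (x a) = h' (x a)) → h = h'

/-- the standard model -/
abbrev JRing {k B σ : Type} [Field k] [CommRing B] [Algebra k B] (b : B) (g : MvPolynomial σ k) : Type :=
  MvPolynomial σ B ⧸ (Ideal.span {MvPolynomial.C b + MvPolynomial.map (algebraMap k B) g} : Ideal (MvPolynomial σ B))

/-- the projection -/
noncomputable def JRing.mk {k B σ : Type} [Field k] [CommRing B] [Algebra k B] (b : B) (g : MvPolynomial σ k) :
    MvPolynomial σ B →+* JRing b g := Ideal.Quotient.mk _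

theorem isJ_std {k B σ : Type} [Field k] [CommRing B] [Algebra k B] (b : B) (g : MvPolynomial σ k) :
    IsJ ((JRing.mk b g).comp MvPolynomial.C) (fun a => JRing.mk b g (MvPolynomial.X a)) b g where
  rel := by
    have h1 : JRing.mk b g (MvPolynomial.C b + MvPolynomial.map (algebraMap k B) g) = 0 :=
      Ideal.Quotient.eq_zero_iff_mem.2 (Ideal.mem_span_singleton_self _)
    have h2 : eval₂Hom ((JRing.mk b g).comp MvPolynomial.C) (fun i => JRing.mk b g (MvPolynomial.X i)) =
        JRing.mk b g := by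
      apply MvPolynomial.ringHom_ext
      · intro r; rw [MvPolynomial.eval₂Hom_C]; rfl
      · intro i; rw [MvPolynomial.eval₂Hom_X']
    have h3 := RingHom.congr_fun h2 (MvPolynomial.C b + MvPolynomial.map (algebraMap k B) g)
    rw [h1, map_add, MvPolynomial.eval₂Hom_C, MvPolynomial.coe_eval₂Hom, MvPolynomial.eval₂_map] at h3
    exact h3
  ex E _ u y h := by
    have h1 : eval₂Hom u y (MvPolynomial.C b + MvPolynomial.map (algebraMap k B) g) = 0 := by
      rw [map_add, MvPolynomial.eval₂Hom_C, MvPolynomial.coe_eval₂Hom, MvPolynomial.eval₂_map]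
      exact h
    refine ⟨Ideal.Quotient.lift _ (eval₂Hom u y) ?_, ?_, ?_⟩
    · intro a ha
      obtain ⟨t, rfl⟩ := Ideal.mem_span_singleton'.1 ha
      rw [map_mul, h1, mul_zero]
    · ext r
      change eval₂Hom u y (MvPolynomial.C r) = u r
      rw [MvPolynomial.eval₂Hom_C]
    · intro i
      change eval₂Hom u y (MvPolynomial.X i) = y i
      rw [MvPolynomial.eval₂Hom_X']
  uniq E _ h h' h1 h2 := by
    apply Ideal.Quotient.ringHom_ext
    apply MvPolynomial.ringHom_ext
    · intro r
      exact RingHom.congr_fun h1 r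
    · exact h2

theorem IsHyp.comap {k σ W E : Type} [Field k] [CommRing W] [Algebra k W] [CommRing E] {yW : σ → W}
    {g : MvPolynomial σ k} (hW : IsHyp (algebraMap k W) yW g) (v : W →+* E) :
    eval₂ (v.comp (algebraMap k W)) (fun a => v (yW a)) g = 0 := by
  rw [← eval₂_comp_hom, hW.rel, map_zero]

/-- the closed part `b = 0` -/
theorem tk_closed {k B σ J A W X : Type} [Field k] [CommRing B] [Algebra k B] [CommRing J] [CommRing A] [Algebra k A]
    [CommRing W] [Algebra k W] [CommRing X] {i : B →+* J} {x : σ → J} {b : B} {g : MvPolynomial σ k}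
    (hJ : IsJ i x b g) {φ : B →+* A} (hφk : φ.comp (algebraMap k B) = algebraMap k A)
    (hφ : IsLC φ (Ideal.span {b}) 1) {yW : σ → W} (hW : IsHyp (algebraMap k W) yW g) {q : J →+* X}
    (hq : IsLC q (Ideal.span {i b}) 1) : ∃ (iX : A →+* X) (jX : W →+* X), IsTK k iX jX := by
  have hb : φ b = 0 := hφ.zero b (Ideal.mem_span_singleton_self b)
  have hqb : q (i b) = 0 := hq.zero _ (Ideal.mem_span_singleton_self _)
  obtain ⟨iX, hiX⟩ := hφ.ex X (q.comp i) (by
    intro c hc
    obtain ⟨t, rfl⟩ := Ideal.mem_span_singleton'.1 hc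
    rw [RingHom.comp_apply, map_mul, map_mul, hqb, mul_zero]) (by rw [map_one]; exact isUnit_one)
  obtain ⟨jX, hj1, hj2⟩ := hW.ex X ((q.comp i).comp (algebraMap k B)) (fun a => q (x a)) (by
    have h1 := congrArg q hJ.rel
    rw [map_add, hqb, zero_add, map_zero, eval₂_comp_hom, ← RingHom.comp_assoc] at h1
    exact h1)
  refine ⟨iX, jX, ?_, ?_, ?_⟩
  · intro s
    have h1 := RingHom.congr_fun hj1 s
    rw [RingHom.comp_apply] at h1
    rw [h1, ← hφk, RingHom.comp_apply, ← RingHom.comp_apply iX, hiX, RingHom.comp_apply, RingHom.comp_apply,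
      RingHom.comp_apply]
  · intro E _ u v huv
    have h2 : (u.comp φ).comp (algebraMap k B) = v.comp (algebraMap k W) := by
      rw [RingHom.comp_assoc, hφk]
      exact RingHom.ext huv
    obtain ⟨t, t1, t2⟩ := hJ.ex E (u.comp φ) (fun a => v (yW a)) (by
      rw [RingHom.comp_apply, hb, map_zero, zero_add, h2]
      exact hW.comap v)
    obtain ⟨h, hh⟩ := hq.ex E t (by
      intro c hc
      obtain ⟨s, rfl⟩ := Ideal.mem_span_singleton'.1 hc
      have h3 : t (i b) = 0 := by
        rw [← RingHom.comp_apply, t1, RingHom.comp_apply, hb, map_zero]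
      rw [map_mul, h3, mul_zero]) (by rw [map_one]; exact isUnit_one)
    refine ⟨h, ?_, ?_⟩
    · apply hφ.uniq
      rw [RingHom.comp_assoc, hiX, ← RingHom.comp_assoc, hh, t1]
    · refine hW.uniq E _ _ ?_ ?_
      · rw [RingHom.comp_assoc, hj1, ← h2, ← t1, ← hh]
        rfl
      · intro a
        rw [RingHom.comp_apply, hj2, ← RingHom.comp_apply h, hh, t2]
  · intro E _ h h' h1 h2
    apply hq.uniq
    refine hJ.uniq E _ _ ?_ ?_
    · rw [RingHom.comp_assoc, ← hiX, ← RingHom.comp_assoc, h1, RingHom.comp_assoc, hiX, RingHom.comp_assoc]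
    · intro a
      rw [RingHom.comp_apply, RingHom.comp_apply, ← hj2, ← RingHom.comp_apply h, h2, RingHom.comp_apply]

/-- the open part `b ≠ 0`, after the cover `lam ^ d = - b` -/
theorem tk_open {k B σ J B' L J' J'' W : Type} [Field k] [CommRing B] [Algebra k B] [CommRing J] [CommRing B']
    [CommRing L] [Algebra k L] [CommRing J'] [CommRing J''] [CommRing W] [Algebra k W] [Fintype σ] {w : σ → ℕ} {d : ℕ}
    (hd : d ≠ 0) {i : B →+* J} {x : σ → J} {b : B} {g : MvPolynomial σ k} (hg : IsWeightedHomogeneous w g d)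
    (hJ : IsJ i x b g) {φ : B →+* B'} (hφ : IsLC φ ⊥ b) {iL : B' →+* L} {lam : L} (hL : IsKum iL lam d (φ (-b)))
    (hLk : (iL.comp φ).comp (algebraMap k B) = algebraMap k L) {r : J →+* J'} (hr : IsLC r ⊥ (i b))
    {o : J' →+* J''} {mu : J''} (ho : IsKum o mu d (r (i (-b)))) {yW : σ → W}
    (hW : IsHyp (algebraMap k W) yW (g - 1)) : ∃ (iX : L →+* J'') (jX : W →+* J''), IsTK k iX jX := by
  have hub : IsUnit (o (r (i b))) := hr.unit.map o
  have hmu : mu ^ d = -(o (r (i b))) := by rw [ho.rel, map_neg, map_neg, map_neg]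
  have hmuu : IsUnit mu := by
    refine (isUnit_pow_iff hd).1 ?_
    rw [hmu]
    exact hub.neg
  obtain ⟨nu, hnu⟩ := hmuu.exists_right_inv
  -- `B' → J'`
  obtain ⟨s, hs⟩ := hφ.ex J' (r.comp i) (fun c hc => by rw [Ideal.mem_bot.1 hc, map_zero]) hr.unit
  obtain ⟨iX, hiX, hiX2⟩ := hL.ex J'' (o.comp s) mu (by
    rw [RingHom.comp_apply, ← RingHom.comp_apply s, hs, RingHom.comp_apply, hmu, map_neg, map_neg, map_neg])
  have hiXφ : ∀ a, iX (iL (φ a)) = o (r (i a)) := by
    intro a
    rw [← RingHom.comp_apply iX, hiX, RingHom.comp_apply, ← RingHom.comp_apply s, hs, RingHom.comp_apply]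
  set cJ : k →+* J'' := ((o.comp r).comp i).comp (algebraMap k B) with hcJ
  have hgx : eval₂ cJ (fun a => o (r (x a))) g = mu ^ d := by
    have h1 := congrArg (o.comp r) hJ.rel
    rw [map_add, map_zero, eval₂_comp_hom, ← RingHom.comp_assoc] at h1
    have h2 : (o.comp r) (i b) = o (r (i b)) := rfl
    rw [h2] at h1
    rw [hmu]
    exact (neg_eq_of_add_eq_zero_right h1).symm
  obtain ⟨jX, hj1, hj2⟩ := hW.ex J'' cJ (fun a => nu ^ w a * o (r (x a))) (by
    rw [MvPolynomial.eval₂_sub, whom_eval hg, hgx, ← mul_pow, mul_comm nu, hnu, one_pow, MvPolynomial.eval₂_one,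
      sub_self])
  have hgW : eval₂ (algebraMap k W) yW g = 1 := by
    have h1 := hW.rel
    rw [MvPolynomial.eval₂_sub, MvPolynomial.eval₂_one, sub_eq_zero] at h1
    exact h1
  refine ⟨iX, jX, ?_, ?_, ?_⟩
  · intro t
    have h1 := RingHom.congr_fun hj1 t
    rw [RingHom.comp_apply] at h1
    rw [h1, ← hLk, RingHom.comp_apply, RingHom.comp_apply, hiXφ]
    rfl
  · intro E _ u v huv
    have h2 : ((u.comp iL).comp φ).comp (algebraMap k B) = v.comp (algebraMap k W) := by
      have h3 : ((u.comp iL).comp φ).comp (algebraMap k B) = u.comp ((iL.comp φ).comp (algebraMap k B)) := rfl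
      rw [h3, hLk]
      exact RingHom.ext huv
    have hlam : u lam ^ d = -(u (iL (φ b))) := by
      rw [← map_pow, hL.rel, map_neg, map_neg, map_neg]
    obtain ⟨t, t1, t2⟩ := hJ.ex E ((u.comp iL).comp φ) (fun a => u lam ^ w a * v (yW a)) (by
      rw [h2, whom_eval hg, ← eval₂_comp_hom, hgW, map_one, mul_one, hlam]
      exact add_neg_cancel _)
    have htb : IsUnit (t (i b)) := by
      rw [← RingHom.comp_apply, t1]
      exact hφ.unit.map (u.comp iL)
    obtain ⟨t', ht'⟩ := hr.ex E t (fun c hc => by rw [Ideal.mem_bot.1 hc, map_zero]) htb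
    have ht'i : ∀ a, t' (r (i a)) = u (iL (φ a)) := by
      intro a
      rw [← RingHom.comp_apply t', ht', ← RingHom.comp_apply t, t1]
      rfl
    obtain ⟨h, h3, h4⟩ := ho.ex E t' (u lam) (by rw [ht'i, hlam, map_neg, map_neg, map_neg])
    have h5 : ∀ a, h (o (r a)) = t a := by
      intro a
      rw [← RingHom.comp_apply h, h3, ← RingHom.comp_apply t', ht']
    have h6 : h nu * u lam = 1 := by
      rw [← h4, ← map_mul, mul_comm, hnu, map_one]
    refine ⟨h, ?_, ?_⟩
    · refine hL.uniq E _ _ ?_ ?_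
      · apply hφ.uniq
        ext a
        change h (iX (iL (φ a))) = u (iL (φ a))
        rw [hiXφ, ← ht'i, ← RingHom.comp_apply h, h3]
      · rw [RingHom.comp_apply, hiX2, h4]
    · refine hW.uniq E _ _ ?_ ?_
      · rw [RingHom.comp_assoc, hj1, ← h2]
        ext a
        change h (o (r (i (algebraMap k B a)))) = u (iL (φ (algebraMap k B a)))
        rw [← ht'i, ← RingHom.comp_apply h, h3]
      · intro a
        rw [RingHom.comp_apply, hj2, map_mul, map_pow, h5, t2, ← mul_assoc, ← mul_pow, h6, one_pow, one_mul]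
  · intro E _ h h' h1 h2
    have h3 : ∀ a, h (iX a) = h' (iX a) := fun a => RingHom.congr_fun h1 a
    have h4 : h mu = h' mu := by rw [← hiX2, h3]
    refine ho.uniq E _ _ ?_ h4
    apply hr.uniq
    refine hJ.uniq E _ _ ?_ ?_
    · ext a
      change h (o (r (i a))) = h' (o (r (i a)))
      rw [← hiXφ, h3]
    · intro a
      change h (o (r (x a))) = h' (o (r (x a)))
      have h5 : o (r (x a)) = mu ^ w a * jX (yW a) := by
        rw [hj2, ← mul_assoc, ← mul_pow, hnu, one_pow, one_mul]
      have h6 : h (jX (yW a)) = h' (jX (yW a)) := RingHom.congr_fun h2 (yW a)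
      rw [h5, map_mul, map_mul, map_pow, map_pow, h4, h6]

/-- adding a form in new variables -/
theorem join (hP : FormalClass p P) {k : Type} [Field k] [Finite k] {B : Type} [CommRing B] [Algebra k B]
    (hft : Algebra.FiniteType ℤ B) (hp : (p : B) = 0) (b : B) {σ : Type} [Fintype σ] {w : σ → ℕ} {d : ℕ} (hd : d ≠ 0)
    {g : MvPolynomial σ k} (hg : IsWeightedHomogeneous w g d) (h0 : P (MvPolynomial σ k ⧸ Ideal.span {g}))
    (h1 : P (MvPolynomial σ k ⧸ Ideal.span {g - 1})) (hb : P (B ⧸ Ideal.span {b}))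
    (hL : P (AdjoinRoot (Polynomial.X ^ d - Polynomial.C (-b) : Polynomial B))) {J : Type} [CommRing J] {i : B →+* J}
    {x : σ → J} (hJ : IsJ i x b g) : P J := by
  have hftJ : Algebra.FiniteType ℤ J := by
    have h2 : Algebra.FiniteType ℤ (MvPolynomial σ B) := ft_alg hft inferInstance
    obtain ⟨r, r1, r2⟩ := (isJ_std b g).ex J i x hJ.rel
    refine ft_of_surj h2 (r.comp (Ideal.Quotient.mk _)) ?_
    obtain ⟨t, t1, t2⟩ := hJ.ex _ _ _ (isJ_std b g).rel
    have h3 : r.comp t = RingHom.id J := by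
      refine hJ.uniq _ _ _ ?_ ?_
      · rw [RingHom.comp_assoc, t1, r1, RingHom.id_comp]
      · intro a
        rw [RingHom.comp_apply, t2, r2, RingHom.id_apply]
    intro y
    obtain ⟨z, hz⟩ := Ideal.Quotient.mk_surjective (t y)
    refine ⟨z, ?_⟩
    rw [RingHom.comp_apply, hz]
    exact RingHom.congr_fun h3 y
  have hpJ : (p : J) = 0 := by rw [← map_natCast i, hp, map_zero]
  have hW0 : IsHyp (algebraMap k (MvPolynomial σ k ⧸ Ideal.span {g})) _ g := isHyp_std g
  have hW1 : IsHyp (algebraMap k (MvPolynomial σ k ⧸ Ideal.span {g - 1})) _ (g - 1) := isHyp_std (g - 1)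
  -- the closed part `b = 0`
  have hclosed : P (J ⧸ Ideal.span {i b}) := by
    obtain ⟨iX, jX, hX⟩ := tk_closed hJ (φ := Ideal.Quotient.mk (Ideal.span {b})) rfl (isLC_quot b) hW0
      (isLC_quot (i b))
    exact p_tk hP hX hb h0
  -- the open part `b ≠ 0`
  have hφ := isLC_away b
  have hφn : IsLC (algebraMap B (Localization.Away b)) ⊥ (-b) := by
    refine ⟨hφ.zero, ?_, ?_, hφ.uniq⟩
    · rw [map_neg]
      exact hφ.unit.neg
    · intro E _ v hv hvu
      refine hφ.ex E v hv ?_
      rw [map_neg] at hvu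
      exact neg_neg (v b) ▸ hvu.neg
  have hbn : P (B ⧸ Ideal.span {-b}) := by
    rw [Ideal.span_singleton_neg]
    exact hb
  have hLK := isKum_std d (algebraMap B (Localization.Away b) (-b))
  have hL' := kum_open hP (isKum_std d (-b)) hd hφn hLK hbn hL
  have hr := isLC_away (i b)
  have htr := adjoin_transfer hP (ft_loc hftJ (i b)) hd (algebraMap J (Localization.Away (i b)) (i (-b)))
  have hopen : P (Localization.Away (i b)) := by
    apply htr
    let _ : Algebra k (AdjoinRoot (Polynomial.X ^ d - Polynomial.C (algebraMap B (Localization.Away b) (-b)) :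
      Polynomial (Localization.Away b))) := (((AdjoinRoot.of (Polynomial.X ^ d - Polynomial.C
        (algebraMap B (Localization.Away b) (-b)) : Polynomial (Localization.Away b))).comp
        (algebraMap B (Localization.Away b))).comp (algebraMap k B)).toAlgebra
    obtain ⟨iX, jX, hX⟩ := tk_open hd hg hJ hφ hLK rfl hr (isKum_std d _) hW1
    exact p_tk hP hX hL' h1
  exact hP.glue J (i b) hftJ hpJ hclosed hopen

end Pool.Agent.Helper67.CQ
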