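import Pool.Agent.Helper67.CQ.Join
import Pool.Agent.Helper9.CQ.Thr
import Pool.Agent.Helper87.CC.Tame

/-!
# Sums of forms in disjoint sets of variables
-/

set_option autoImplicit false

namespace Pool.Agent.Helper67.CQ

open Pool.Agent.Helper87.CC (IsLC ft_of_surj ft_alg ft_loc Tame)
open Pool.Agent.Helper29.CQ (FormalClass)
open MvPolynomial (eval₂ eval₂Hom IsWeightedHomogeneous rename C X monomial)
open TensorProduct

variable {p : ℕ} {P : ∀ (A : Type) [CommRing A], Prop}

/-- tame rings of characteristic `p` -/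
theorem of_tame (hp : p.Prime) (hP : FormalClass p P) {B : Type} [CommRing B] (hB : Tame B) (hpB : (p : B) = 0) :
    P B := by
  have hS := Pool.Agent.Helper9.CQ.Sops.sops hp hP
  have h1 : Pool.Agent.Helper87.CC.MultS _ B := hB _ (Pool.Agent.Helper87.CC.tameClosed_mult hS)
  have h2 := Pool.Agent.Helper87.CC.MultS.mem hS h1
  obtain ⟨e⟩ := Pool.Agent.Helper9.CQ.Thr.zmod_ten B hpB
  exact hP.iso _ _ e h2.2

theorem char_mv {k σ : Type} [Field k] (hk : (p : k) = 0) : (p : MvPolynomial σ k) = 0 := by
  rw [← map_natCast (C : k →+* MvPolynomial σ k), hk, map_zero]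

theorem char_quot {A : Type} [CommRing A] (hA : (p : A) = 0) (I : Ideal A) : (p : A ⧸ I) = 0 := by
  rw [← map_natCast (Ideal.Quotient.mk I), hA, map_zero]

theorem ft_mv {k σ : Type} [Field k] [Finite k] [Finite σ] : Algebra.FiniteType ℤ (MvPolynomial σ k) := by
  have h1 : Algebra.FiniteType ℤ k := by
    have : Module.Finite ℤ k := Module.Finite.of_finite
    infer_instance
  exact ft_alg h1 inferInstance

/-- diagonal polynomials -/
theorem diag (hp : p.Prime) (hP : FormalClass p P) {k : Type} [Field k] [Finite k] (hk : (p : k) = 0) (c : k) {s : ℕ}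
    (a : Fin s → k) (e : Fin s → ℕ) (he : ∀ i, 0 < e i) :
    P (MvPolynomial (Fin s) k ⧸ Ideal.span {C c + ∑ i, C (a i) * X i ^ e i}) := by
  have hpp : Fact p.Prime := ⟨hp⟩
  have hfk : Algebra.FiniteType ℤ k := by
    have : Module.Finite ℤ k := Module.Finite.of_finite
    infer_instance
  set α : Option (Fin s) → Fin s →₀ ℕ := fun j => j.elim 0 fun i => Finsupp.single i (e i) with hα
  set cc : Option (Fin s) → k := fun j => j.elim c a with hcc
  have h1 : AffineIndependent ℚ (fun (j : Option (Fin s)) (i : Fin s) => ((α j i : ℕ) : ℚ)) := by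
    rw [affineIndependent_iff]
    intro S w hw0 hw1
    have h2 : ∀ i : Fin s, some i ∈ S → w (some i) = 0 := by
      intro i hi
      have h3 := congrFun hw1 i
      rw [Finset.sum_apply, Finset.sum_eq_single_of_mem (some i) hi] at h3
      · simp only [hα, Option.elim_some, Pi.smul_apply, Finsupp.single_eq_same, smul_eq_mul, Pi.zero_apply,
          mul_eq_zero] at h3
        rcases h3 with h3 | h3
        · exact h3
        · exact absurd h3 (by exact_mod_cast (he i).ne')
      · intro j _ hj
        rcases j with _ | j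
        · simp [hα]
        · have hij : j ≠ i := fun h => hj (by rw [h])
          simp [hα, Finsupp.single_apply, hij]
    intro j hj
    rcases j with _ | j
    · rw [Finset.sum_eq_single_of_mem none hj] at hw0
      · exact hw0
      · intro b hb hbn
        rcases b with _ | b
        · exact absurd rfl hbn
        · exact h2 b hb
    · exact h2 j hj
  have h3 : Pool.Agent.Helper87.CC.ProductFunctions p (Option (Fin s)) k cc := by
    have hd : ringKrullDim k ≤ 1 := by
      rw [ringKrullDim_eq_zero_of_field]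
      exact zero_le_one
    have h4 := Pool.Agent.Helper87.CC.ProductFunctions.tensor (ZMod p) k (fun _ => 1) cc
      Pool.Agent.Helper87.CC.ProductFunctions.one hfk hd
    have hch : CharP k p := (CharP.charP_iff_prime_eq_zero hp).2 hk
    have h : Pool.Agent.Helper87.CC.IsTen (ZMod.castHom (dvd_refl p) k) (RingHom.id k) := by
      refine ⟨?_, ?_⟩
      · intro E _ f g
        exact ⟨g, RingHom.ext_zmod _ _, RingHom.comp_id g⟩
      · intro E _ u v _ h2
        rwa [RingHom.comp_id, RingHom.comp_id] at h2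
    obtain ⟨e1, h11, h12⟩ := (Pool.Agent.Helper87.CC.isTen (ZMod p) k).equiv h
    have h5 := Pool.Agent.Helper87.CC.ProductFunctions.iso _ _ _ e1 h4
    have h6 : (fun j => e1 ((1 : ZMod p) ⊗ₜ[ℤ] cc j)) = cc := by
      funext j
      exact h12 (cc j)
    rw [h6] at h5
    exact h5
  have h7 := Pool.Agent.Helper87.CC.tameClosed_tame.simplex p (Option (Fin s)) s α h1 k cc h3
  have h8 : (∑ j, monomial (α j) (cc j) : MvPolynomial (Fin s) k) = C c + ∑ i, C (a i) * X i ^ e i := by
    rw [Fintype.sum_option]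
    congr 1
    refine Finset.sum_congr rfl fun i _ => ?_
    rw [MvPolynomial.C_mul_X_pow_eq_monomial]
    rfl
  rw [h8] at h7
  exact of_tame hp hP h7 (char_quot (char_mv hk) _)

/-- all sums of `b` with a diagonal polynomial in new variables define members of the class -/
def Tail (P : ∀ (A : Type) [CommRing A], Prop) {k τ : Type} [Field k] (b : MvPolynomial τ k) : Prop :=
  ∀ (s : ℕ) (a : Fin s → k) (e : Fin s → ℕ), (∀ i, 0 < e i) →
    P (MvPolynomial (τ ⊕ Fin s) k ⧸ Ideal.span {rename Sum.inl b + ∑ i, C (a i) * X (Sum.inr i) ^ e i})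

theorem tail_hom {k τ E : Type} [Field k] [CommRing E] {s : ℕ} (b : MvPolynomial τ k) (a : Fin s → k) (e : Fin s → ℕ)
    (u : k →+* E) (y : τ ⊕ Fin s → E) :
    eval₂ u y (rename Sum.inl b + ∑ i, C (a i) * X (Sum.inr i) ^ e i) =
      eval₂ u (fun t => y (Sum.inl t)) b + ∑ i, u (a i) * y (Sum.inr i) ^ e i := by
  rw [MvPolynomial.eval₂_add, MvPolynomial.eval₂_rename]
  congr 1
  rw [← MvPolynomial.coe_eval₂Hom, map_sum]
  refine Finset.sum_congr rfl fun i _ => ?_
  rw [map_mul, map_pow, MvPolynomial.eval₂Hom_C, MvPolynomial.eval₂Hom_X']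

/-- the step -/
theorem Tail.add (hP : FormalClass p P) {k : Type} [Field k] [Finite k] (hk : (p : k) = 0) {τ σ : Type}
    [Finite τ] [Fintype σ] {b : MvPolynomial τ k} (hb : Tail P b) {w : σ → ℕ} {d : ℕ} (hd : d ≠ 0)
    {g : MvPolynomial σ k} (hg : IsWeightedHomogeneous w g d) (h0 : P (MvPolynomial σ k ⧸ Ideal.span {g}))
    (h1 : P (MvPolynomial σ k ⧸ Ideal.span {g - 1})) :
    Tail P (rename Sum.inl b + rename Sum.inr g : MvPolynomial (τ ⊕ σ) k) := by
  intro s a e he
  have hR := isHyp_std (rename Sum.inl (rename Sum.inl b + rename Sum.inr g : MvPolynomial (τ ⊕ σ) k) +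
    ∑ i, C (a i) * X (Sum.inr i) ^ e i : MvPolynomial ((τ ⊕ σ) ⊕ Fin s) k)
  set F := (rename Sum.inl (rename Sum.inl b + rename Sum.inr g : MvPolynomial (τ ⊕ σ) k) +
    ∑ i, C (a i) * X (Sum.inr i) ^ e i : MvPolynomial ((τ ⊕ σ) ⊕ Fin s) k) with hF
  set R := MvPolynomial ((τ ⊕ σ) ⊕ Fin s) k ⧸ Ideal.span {F}
  set c : k →+* R := (Ideal.Quotient.mk (Ideal.span {F})).comp C
  set x : (τ ⊕ σ) ⊕ Fin s → R := fun i => Ideal.Quotient.mk (Ideal.span {F}) (X i)
  set b' : MvPolynomial (τ ⊕ Fin s) k := rename Sum.inl b + ∑ i, C (a i) * X (Sum.inr i) ^ e i with hb'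
  have hFe : ∀ (E : Type) [CommRing E] (u : k →+* E) (y : (τ ⊕ σ) ⊕ Fin s → E), eval₂ u y F =
      eval₂ u (fun t => y (Sum.inl (Sum.inl t))) b + eval₂ u (fun t => y (Sum.inl (Sum.inr t))) g +
        ∑ i, u (a i) * y (Sum.inr i) ^ e i := by
    intro E _ u y
    rw [hF, tail_hom, MvPolynomial.eval₂_add, MvPolynomial.eval₂_rename, MvPolynomial.eval₂_rename]
    rfl
  have hJ : IsJ (eval₂Hom c (Sum.elim (fun t => x (Sum.inl (Sum.inl t))) fun i => x (Sum.inr i)))
      (fun t => x (Sum.inl (Sum.inr t))) b' g := by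
    have hcC : (eval₂Hom c (Sum.elim (fun t => x (Sum.inl (Sum.inl t))) fun i => x (Sum.inr i))).comp
        (algebraMap k (MvPolynomial (τ ⊕ Fin s) k)) = c := by
      ext r
      change eval₂Hom c _ (C r) = c r
      rw [MvPolynomial.eval₂Hom_C]
    refine ⟨?_, ?_, ?_⟩
    · rw [hcC, MvPolynomial.coe_eval₂Hom, hb', tail_hom]
      have h2 := hR.rel
      rw [hFe] at h2
      rw [← h2]
      simp only [Sum.elim_inl, Sum.elim_inr]
      ring
    · intro E _ u y hy
      have h3 : ∀ q : MvPolynomial (τ ⊕ Fin s) k, u q = eval₂ (u.comp (algebraMap k _)) (fun i => u (X i)) q := by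
        intro q
        rw [← MvPolynomial.coe_eval₂Hom]
        congr 1
        apply MvPolynomial.ringHom_ext
        · intro r
          rw [MvPolynomial.eval₂Hom_C]
          rfl
        · intro i
          rw [MvPolynomial.eval₂Hom_X']
      obtain ⟨h, h4, h5⟩ := hR.ex E (u.comp (algebraMap k _)) (Sum.elim (Sum.elim (fun t => u (X (Sum.inl t))) y)
        fun i => u (X (Sum.inr i))) (by
          rw [hFe]
          rw [h3 b', hb', tail_hom] at hy
          rw [← hy]
          simp only [Sum.elim_inl, Sum.elim_inr]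
          ring)
      refine ⟨h, ?_, ?_⟩
      · apply MvPolynomial.ringHom_ext
        · intro r
          rw [RingHom.comp_apply, MvPolynomial.eval₂Hom_C]
          exact RingHom.congr_fun h4 r
        · intro i
          rw [RingHom.comp_apply, MvPolynomial.eval₂Hom_X']
          rcases i with i | i
          · exact h5 _
          · exact h5 _
      · intro t
        exact h5 _
    · intro E _ h h' h6 h7
      refine hR.uniq E _ _ ?_ ?_
      · ext r
        have h8 := RingHom.congr_fun h6 (C r)
        rw [RingHom.comp_apply, RingHom.comp_apply, MvPolynomial.eval₂Hom_C] at h8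
        exact h8
      · intro i
        rcases i with (i | i) | i
        · have h8 := RingHom.congr_fun h6 (X (Sum.inl i))
          rw [RingHom.comp_apply, RingHom.comp_apply, MvPolynomial.eval₂Hom_X'] at h8
          exact h8
        · exact h7 i
        · have h8 := RingHom.congr_fun h6 (X (Sum.inr i))
          rw [RingHom.comp_apply, RingHom.comp_apply, MvPolynomial.eval₂Hom_X'] at h8
          exact h8
  refine join hP ft_mv (char_mv hk) b' hd hg h0 h1 (hb s a e he) ?_ hJ
  -- the cover
  have hT := hb (s + 1) (Fin.snoc a 1) (Fin.snoc e d) (by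
    intro i
    refine Fin.lastCases ?_ (fun i => ?_) i
    · rw [Fin.snoc_last]
      exact Nat.pos_of_ne_zero hd
    · rw [Fin.snoc_castSucc]
      exact he i)
  have hT1 := isHyp_std (rename Sum.inl b + ∑ i, C ((Fin.snoc a 1 : Fin (s + 1) → k) i) *
    X (Sum.inr i) ^ (Fin.snoc e d : Fin (s + 1) → ℕ) i : MvPolynomial (τ ⊕ Fin (s + 1)) k)
  set F1 := (rename Sum.inl b + ∑ i, C ((Fin.snoc a 1 : Fin (s + 1) → k) i) *
    X (Sum.inr i) ^ (Fin.snoc e d : Fin (s + 1) → ℕ) i : MvPolynomial (τ ⊕ Fin (s + 1)) k) with hF1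
  have hF1e : ∀ (E : Type) [CommRing E] (u : k →+* E) (y : τ ⊕ Fin (s + 1) → E), eval₂ u y F1 =
      eval₂ u (fun t => y (Sum.inl t)) b + (∑ i : Fin s, u (a i) * y (Sum.inr i.castSucc) ^ e i +
        y (Sum.inr (Fin.last s)) ^ d) := by
    intro E _ u y
    rw [hF1, tail_hom, Fin.sum_univ_castSucc]
    simp only [Fin.snoc_castSucc, Fin.snoc_last, map_one, one_mul]
  obtain ⟨D, hD0, o, mu, hK, hPD⟩ : ∃ (D : Type) (_ : CommRing D) (o : MvPolynomial (τ ⊕ Fin s) k →+* D) (mu : D),
      IsKum o mu d (-b') ∧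
        (P D → P (AdjoinRoot (Polynomial.X ^ d - Polynomial.C (-b') : Polynomial (MvPolynomial (τ ⊕ Fin s) k)))) :=
    ⟨_, inferInstance, _, _, isKum_std d (-b'), id⟩
  apply hPD
  have hob : ∀ (E : Type) [CommRing E] (h : MvPolynomial (τ ⊕ Fin s) k →+* E), h b' =
      eval₂ (h.comp C) (fun t => h (X (Sum.inl t))) b + ∑ i : Fin s, h (C (a i)) * h (X (Sum.inr i)) ^ e i := by
    intro E _ h
    have h9 : eval₂Hom (h.comp C) (fun i => h (X i)) = h := by
      apply MvPolynomial.ringHom_ext
      · intro r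
        rw [MvPolynomial.eval₂Hom_C]
        rfl
      · intro i
        rw [MvPolynomial.eval₂Hom_X']
    have h10 := RingHom.congr_fun h9 b'
    rw [MvPolynomial.coe_eval₂Hom, hb', tail_hom] at h10
    rw [hb', ← h10]
    rfl
  have hDH : IsHyp (o.comp C) (Sum.elim (fun t => o (X (Sum.inl t))) (Fin.snoc (fun i => o (X (Sum.inr i))) mu :
      Fin (s + 1) → D)) F1 := by
    refine ⟨?_, ?_, ?_⟩
    · rw [hF1e]
      simp only [Sum.elim_inl, Sum.elim_inr, Fin.snoc_castSucc, Fin.snoc_last]
      rw [hK.rel, map_neg, hob D o]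
      have h11 : ∀ i, (o.comp C) (a i) = o (C (a i)) := fun i => rfl
      simp only [h11]
      ring
    · intro E _ u y hy
      rw [hF1e] at hy
      set v : MvPolynomial (τ ⊕ Fin s) k →+* E := eval₂Hom u (Sum.elim (fun t => y (Sum.inl t))
        fun i => y (Sum.inr i.castSucc)) with hv
      have hvC : v.comp C = u := by
        ext r
        rw [RingHom.comp_apply, hv, MvPolynomial.eval₂Hom_C]
      have hvX : ∀ i, v (X i) = Sum.elim (fun t => y (Sum.inl t)) (fun i => y (Sum.inr i.castSucc)) i := by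
        intro i
        rw [hv, MvPolynomial.eval₂Hom_X']
      obtain ⟨h, h12, h13⟩ := hK.ex E v (y (Sum.inr (Fin.last s))) (by
        rw [map_neg, hob E v, hvC]
        simp only [hvX, Sum.elim_inl, Sum.elim_inr]
        have h14 : ∀ i, v (C (a i)) = u (a i) := fun i => RingHom.congr_fun hvC (a i)
        simp only [h14]
        linear_combination hy)
      refine ⟨h, ?_, ?_⟩
      · rw [← RingHom.comp_assoc, h12, hvC]
      · intro i
        rcases i with i | i
        · have h15 := RingHom.congr_fun h12 (X (Sum.inl i))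
          rw [RingHom.comp_apply, hvX] at h15
          exact h15
        · refine Fin.lastCases ?_ (fun i => ?_) i
          · rw [Sum.elim_inr, Fin.snoc_last, h13]
          · rw [Sum.elim_inr, Fin.snoc_castSucc]
            have h15 := RingHom.congr_fun h12 (X (Sum.inr i))
            rw [RingHom.comp_apply, hvX] at h15
            exact h15
    · intro E _ h h' h16 h17
      refine hK.uniq E _ _ ?_ ?_
      · apply MvPolynomial.ringHom_ext
        · intro r
          exact RingHom.congr_fun h16 r
        · intro i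
          rcases i with i | i
          · exact h17 (Sum.inl i)
          · have h18 := h17 (Sum.inr i.castSucc)
            rw [Sum.elim_inr, Fin.snoc_castSucc] at h18
            exact h18
      · have h18 := h17 (Sum.inr (Fin.last s))
        rw [Sum.elim_inr, Fin.snoc_last] at h18
        exact h18
  obtain ⟨e1⟩ := hT1.equiv' hDH
  exact hP.iso _ _ e1 hT

end Pool.Agent.Helper67.CQ
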