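import Pool.Agent.Helper67.CQ.Join2

/-!
# Sums of many forms
-/

set_option autoImplicit false

namespace Pool.Agent.Helper67.CQ

open Pool.Agent.Helper87.CC (IsLC ft_of_surj ft_alg ft_loc Tame)
open Pool.Agent.Helper29.CQ (FormalClass)
open MvPolynomial (eval₂ eval₂Hom IsWeightedHomogeneous rename C X monomial)

variable {p : ℕ} {P : ∀ (A : Type) [CommRing A], Prop}

theorem Tail.equiv (hP : FormalClass p P) {k τ τ' : Type} [Field k] {b : MvPolynomial τ k} {b' : MvPolynomial τ' k}
    (e : τ ≃ τ') (he : rename e b = b') (h : Tail P b) : Tail P b' := by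
  subst he
  intro s a x hx
  obtain ⟨e1⟩ := (isHyp_std (rename Sum.inl (rename e b) + ∑ i, C (a i) * X (Sum.inr i) ^ x i :
    MvPolynomial (τ' ⊕ Fin s) k)).equiv (isHyp_std (rename Sum.inl b + ∑ i, C (a i) * X (Sum.inr i) ^ x i :
    MvPolynomial (τ ⊕ Fin s) k)) (Equiv.sumCongr e (Equiv.refl (Fin s))) (by
      rw [map_add, map_sum, MvPolynomial.rename_rename, MvPolynomial.rename_rename]
      congr 1
      refine Finset.sum_congr rfl fun i _ => ?_
      rw [map_mul, map_pow, MvPolynomial.rename_C, MvPolynomial.rename_X]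
      rfl)
  exact hP.iso _ _ e1.symm (h s a x hx)

theorem Tail.mem (hP : FormalClass p P) {k τ : Type} [Field k] {b : MvPolynomial τ k} (h : Tail P b) :
    P (MvPolynomial τ k ⧸ Ideal.span {b}) := by
  have h1 := h 0 (fun _ => 0) (fun _ => 1) (fun _ => Nat.one_pos)
  obtain ⟨e1⟩ := (isHyp_std b).equiv (isHyp_std (rename Sum.inl b + ∑ i : Fin 0, C ((fun _ => 0 : Fin 0 → k) i) *
    X (Sum.inr i) ^ (fun _ => 1 : Fin 0 → ℕ) i : MvPolynomial (τ ⊕ Fin 0) k)) (Equiv.sumEmpty τ (Fin 0)) (by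
      rw [Finset.univ_eq_empty, Finset.sum_empty, add_zero, MvPolynomial.rename_rename]
      have h2 : (Equiv.sumEmpty τ (Fin 0)) ∘ Sum.inl = id := rfl
      rw [h2, MvPolynomial.rename_id_apply])
  exact hP.iso _ _ e1.symm h1

theorem Tail.const (hp : p.Prime) (hP : FormalClass p P) {k : Type} [Field k] [Finite k] (hk : (p : k) = 0)
    {τ : Type} [IsEmpty τ] (c : k) : Tail P (C c : MvPolynomial τ k) := by
  intro s a x hx
  obtain ⟨e1⟩ := (isHyp_std (rename Sum.inl (C c) + ∑ i, C (a i) * X (Sum.inr i) ^ x i :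
    MvPolynomial (τ ⊕ Fin s) k)).equiv (isHyp_std (C c + ∑ i, C (a i) * X i ^ x i : MvPolynomial (Fin s) k))
    (Equiv.emptySum τ (Fin s)).symm (by
      rw [map_add, map_sum, MvPolynomial.rename_C, MvPolynomial.rename_C]
      congr 1
      refine Finset.sum_congr rfl fun i _ => ?_
      rw [map_mul, map_pow, MvPolynomial.rename_C, MvPolynomial.rename_X]
      rfl)
  exact hP.iso _ _ e1.symm (diag hp hP hk c a x hx)

/-- a weighted homogeneous polynomial of positive degree such that its zeros and its level set `1` define members of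
the class -/
def Good (P : ∀ (A : Type) [CommRing A], Prop) {k σ : Type} [Field k] (g : MvPolynomial σ k) : Prop :=
  ∃ (w : σ → ℕ) (d : ℕ), d ≠ 0 ∧ IsWeightedHomogeneous w g d ∧ P (MvPolynomial σ k ⧸ Ideal.span {g}) ∧
    P (MvPolynomial σ k ⧸ Ideal.span {g - 1})

/-- the variables of `m + 1` blocks -/
noncomputable def blockEquiv {m : ℕ} (σ : Fin (m + 1) → Type) :
    ((Σ j : Fin m, σ j.castSucc) ⊕ σ (Fin.last m)) ≃ (Σ j, σ j) :=
  Equiv.ofBijective (Sum.elim (fun x => ⟨x.1.castSucc, x.2⟩) fun x => ⟨Fin.last m, x⟩) (by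
    constructor
    · rintro (⟨i, x⟩ | x) (⟨j, y⟩ | y) h
      · simp only [Sum.elim_inl, Sigma.mk.injEq, Fin.castSucc_inj] at h
        obtain ⟨rfl, h⟩ := h
        rw [eq_of_heq h]
      · simp only [Sum.elim_inl, Sum.elim_inr, Sigma.mk.injEq] at h
        exact absurd h.1 (Fin.castSucc_lt_last i).ne
      · simp only [Sum.elim_inl, Sum.elim_inr, Sigma.mk.injEq] at h
        exact absurd h.1.symm (Fin.castSucc_lt_last j).ne
      · simp only [Sum.elim_inr, Sigma.mk.injEq, heq_eq_eq, true_and] at h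
        rw [h]
    · rintro ⟨j, x⟩
      revert x
      refine Fin.lastCases ?_ (fun i => ?_) j
      · intro x
        exact ⟨Sum.inr x, rfl⟩
      · intro x
        exact ⟨Sum.inl ⟨i, x⟩, rfl⟩)

theorem Tail.sum (hp : p.Prime) (hP : FormalClass p P) {k : Type} [Field k] [Finite k] (hk : (p : k) = 0) (c : k)
    (m : ℕ) (σ : Fin m → Type) [∀ j, Fintype (σ j)] (F : ∀ j, MvPolynomial (σ j) k) (hF : ∀ j, Good P (F j)) :
    Tail P (∑ j, rename (Sigma.mk j) (F j) + C c : MvPolynomial (Σ j, σ j) k) := by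
  induction m with
  | zero =>
    rw [Finset.univ_eq_empty, Finset.sum_empty, zero_add]
    exact Tail.const hp hP hk c
  | succ m ih =>
    obtain ⟨w, d, hd, hg, h0, h1⟩ := hF (Fin.last m)
    have h2 := ih (fun j => σ j.castSucc) (fun j => F j.castSucc) (fun j => hF j.castSucc)
    refine (h2.add hP hk hd hg h0 h1).equiv hP (blockEquiv σ) ?_
    rw [map_add, MvPolynomial.rename_rename, MvPolynomial.rename_rename, map_add, map_sum, MvPolynomial.rename_C,
      Fin.sum_univ_castSucc]
    have h3 : ∀ j : Fin m, rename (blockEquiv σ ∘ Sum.inl) (rename (Sigma.mk j) (F j.castSucc)) =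
        rename (Sigma.mk j.castSucc) (F j.castSucc) := by
      intro j
      rw [MvPolynomial.rename_rename]
      rfl
    have h4 : rename (blockEquiv σ ∘ Sum.inr) (F (Fin.last m)) = rename (Sigma.mk (Fin.last m)) (F (Fin.last m)) := rfl
    rw [h4, Finset.sum_congr rfl fun j _ => h3 j]
    ring

/-- sums of good forms in disjoint sets of variables -/
theorem sum_mem (hp : p.Prime) (hP : FormalClass p P) {k : Type} [Field k] [Finite k] (hk : (p : k) = 0) (c : k)
    (m : ℕ) (σ : Fin m → Type) [∀ j, Fintype (σ j)] (F : ∀ j, MvPolynomial (σ j) k) (hF : ∀ j, Good P (F j)) :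
    P (MvPolynomial (Σ j, σ j) k ⧸ Ideal.span {∑ j, rename (Sigma.mk j) (F j) - C c}) := by
  have h := (Tail.sum hp hP hk (-c) m σ F hF).mem hP
  rw [map_neg, ← sub_eq_add_neg] at h
  exact h

end Pool.Agent.Helper67.CQ
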