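import Pool.Agent.Helper67.CQ.Form

/-!
# Compositions of forms
-/

set_option autoImplicit false

namespace Pool.Agent.Helper67.CQ

open Pool.Agent.Helper29.CQ (FormalClass Cyc)
open MvPolynomial (eval₂ eval₂Hom IsWeightedHomogeneous rename C X monomial)

variable {p : ℕ} {P : ∀ (A : Type) [CommRing A], Prop}

section

variable {k : Type} [Field k] [Finite k]

theorem Basic.mem (hp : p.Prime) (hP : FormalClass p P) (hk : (p : k) = 0)
    (hC : ∀ (f : MvPolynomial (Fin 2) k), Low f → ∀ n : ℕ, 0 < n → P (Cyc n f)) {s : ℕ}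
    {h : MvPolynomial (Fin s) k} (hh : Basic P h) : Mem P h := by
  induction hh with
  | planar h hh => exact mem_planar hP hk hh
  | simplex h hh => exact mem_simplex hp hP hk hh
  | four h hh => exact mem_four hP hk hh
  | quadric h hh => exact mem_quadric hp hP hk hh
  | cubic h hs hh => exact mem_cubic hp hP hk hs hh
  | level G a b d c _ _ hd hG hL =>
    exact mem_three hP hk le_rfl (p_level hP hk hC (w := fun i => ((![a, b, 1] : Fin 3 → ℕ) i : ℤ)) rfl hd
      (whom_cast hG) hL c)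
  | member h hh => exact mem_member hP hk hh

theorem Form.good (hp : p.Prime) (hP : FormalClass p P) (hk : (p : k) = 0)
    (hC : ∀ (f : MvPolynomial (Fin 2) k), Low f → ∀ n : ℕ, 0 < n → P (Cyc n f)) {σ : Type}
    {F : MvPolynomial σ k} {d : ℕ} (hF : Form P F d) : GoodD P F d := by
  induction hF with
  | basic G w d hd hw h0 h1 =>
    exact ⟨hd.ne', ⟨w, hw⟩, (h0.mem hp hP hk hC).1, (h1.mem hp hP hk hC).1⟩
  | comp F d H w e _ he hw h0 h1 ih =>
    exact GoodD.comp hP hk ih he.ne' hw (h0.mem hp hP hk hC) (h1.mem hp hP hk hC)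

/-- **compositions of forms** -/
theorem compositions (hp : p.Prime) (hP : FormalClass p P) (hk : (p : k) = 0)
    (hC : ∀ (f : MvPolynomial (Fin 2) k), Low f → ∀ n : ℕ, 0 < n → P (Cyc n f)) {s : ℕ} {σ : Fin s → Type}
    [∀ j, Fintype (σ j)] {F : ∀ j, MvPolynomial (σ j) k} {d : Fin s → ℕ} (hF : ∀ j, Form P (F j) (d j))
    {H : MvPolynomial (Fin s) k} (hH : Basic P (pows H d)) :
    P (MvPolynomial (Σ j, σ j) k ⧸ Ideal.span {comp H F}) :=
  comp_mem hP hk (fun j => (hF j).good hp hP hk hC) (hH.mem hp hP hk hC)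

end

end Pool.Agent.Helper67.CQ
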