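import Pool.Agent.Helper67.CQ.Z
import Pool.Agent.Helper9.CQ.ConstOver

/-!
# Products over a finite field
-/

set_option autoImplicit false

namespace Pool.Agent.Helper67.CQ

open TensorProduct
open Pool.Agent.Helper87.CC (IsLC ft_of_surj)
open Pool.Agent.Helper29.CQ (FormalClass)

variable {p : ℕ} {P : ∀ (A : Type) [CommRing A], Prop}

/-- `X` is the tensor product over `k` -/
structure IsTK (k : Type) [Field k] {A W X : Type} [CommRing A] [CommRing W] [CommRing X] [Algebra k A] [Algebra k W]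
    (i : A →+* X) (j : W →+* X) : Prop where
  comm : ∀ s : k, i (algebraMap k A s) = j (algebraMap k W s)
  ex : ∀ (E : Type) [CommRing E] (u : A →+* E) (v : W →+* E),
    (∀ s : k, u (algebraMap k A s) = v (algebraMap k W s)) → ∃ h : X →+* E, h.comp i = u ∧ h.comp j = v
  uniq : ∀ (E : Type) [CommRing E] (h h' : X →+* E), h.comp i = h'.comp i → h.comp j = h'.comp j → h = h'

/-- the idempotent -/
theorem exists_idem67 (k K W : Type) [Field k] [Finite k] [CommRing K] [Algebra k K] [CommRing W]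
    [Algebra k W] : ∃ f : K ⊗[ℤ] W, f * f = f ∧
      (∀ s : k, (1 : K) ⊗ₜ[ℤ] (algebraMap k W s) - (algebraMap k K s) ⊗ₜ[ℤ] (1 : W) ∈
        Ideal.span {f}) ∧
      ∀ (E : Type) [CommRing E] (φ : K ⊗[ℤ] W →+* E), (∀ s : k,
        φ ((1 : K) ⊗ₜ[ℤ] (algebraMap k W s)) = φ ((algebraMap k K s) ⊗ₜ[ℤ] (1 : W))) →
        φ f = 0 := by
  obtain ⟨t, ht, ht1⟩ := Pool.Agent.Helper9.CQ.ConstOver.exists_elem k
  let m : k ⊗[ℤ] k →ₐ[ℤ] K ⊗[ℤ] W := Algebra.TensorProduct.map
    ((algebraMap k K).toIntAlgHom) ((algebraMap k W).toIntAlgHom)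
  have hmt : ∀ a b : k, m (a ⊗ₜ[ℤ] b) = (algebraMap k K a) ⊗ₜ[ℤ] (algebraMap k W b) :=
    fun a b => Algebra.TensorProduct.map_tmul _ _ _ _
  have hm : ∀ s : k, m ((1 : k) ⊗ₜ[ℤ] s - s ⊗ₜ[ℤ] (1 : k)) =
      (1 : K) ⊗ₜ[ℤ] (algebraMap k W s) - (algebraMap k K s) ⊗ₜ[ℤ] (1 : W) := by
    intro s
    rw [map_sub, hmt, hmt, map_one, map_one]
  have hann : ∀ x : k ⊗[ℤ] k, x * t =
      ((Algebra.TensorProduct.lmul' ℤ x) ⊗ₜ[ℤ] (1 : k)) * t := by
    intro x
    induction x using TensorProduct.induction_on with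
    | zero => simp
    | tmul a b =>
      have h1 := ht b
      rw [sub_mul, sub_eq_zero] at h1
      have h2 : a ⊗ₜ[ℤ] b = (a ⊗ₜ[ℤ] (1 : k)) * ((1 : k) ⊗ₜ[ℤ] b) := by
        rw [Algebra.TensorProduct.tmul_mul_tmul, mul_one, one_mul]
      rw [h2, mul_assoc, h1, ← mul_assoc, Algebra.TensorProduct.tmul_mul_tmul, mul_one]
      congr 2
      simp
    | add x y hx hy =>
      rw [add_mul, hx, hy, map_add, TensorProduct.add_tmul, add_mul]
  have htt : t * t = t := by
    rw [hann t, ht1]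
    have : ((1 : k) ⊗ₜ[ℤ] (1 : k)) = (1 : k ⊗[ℤ] k) := rfl
    rw [this, one_mul]
  have hee : m t * m t = m t := by
    rw [← map_mul, htt]
  refine ⟨1 - m t, ?_, ?_, ?_⟩
  · linear_combination hee
  · intro s
    have h1 : ((1 : K) ⊗ₜ[ℤ] (algebraMap k W s) - (algebraMap k K s) ⊗ₜ[ℤ] (1 : W)) * m t = 0 := by
      rw [← hm, ← map_mul, ht, map_zero]
    rw [Ideal.mem_span_singleton']
    refine ⟨(1 : K) ⊗ₜ[ℤ] (algebraMap k W s) - (algebraMap k K s) ⊗ₜ[ℤ] (1 : W), ?_⟩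
    rw [mul_sub, mul_one, h1, sub_zero]
  · intro E _ φ hφ
    have h1 : ∀ x : k ⊗[ℤ] k, φ (m x) =
        φ ((algebraMap k K (Algebra.TensorProduct.lmul' ℤ x)) ⊗ₜ[ℤ] (1 : W)) := by
      intro x
      induction x using TensorProduct.induction_on with
      | zero => simp
      | tmul a b =>
        have h2 : (algebraMap k K a) ⊗ₜ[ℤ] (algebraMap k W b) =
            ((algebraMap k K a) ⊗ₜ[ℤ] (1 : W)) * ((1 : K) ⊗ₜ[ℤ] (algebraMap k W b)) := by
          rw [Algebra.TensorProduct.tmul_mul_tmul, mul_one, one_mul]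
        have h3 : (algebraMap k K (a * b)) ⊗ₜ[ℤ] (1 : W) =
            ((algebraMap k K a) ⊗ₜ[ℤ] (1 : W)) * ((algebraMap k K b) ⊗ₜ[ℤ] (1 : W)) := by
          rw [Algebra.TensorProduct.tmul_mul_tmul, mul_one, map_mul]
        rw [hmt, h2, map_mul, hφ, Algebra.TensorProduct.lmul'_apply_tmul, h3, map_mul]
      | add x y hx hy =>
        rw [map_add, map_add, hx, hy, map_add, map_add, TensorProduct.add_tmul, map_add]
    rw [map_sub, map_one, h1, ht1, map_one]
    have h4 : ((1 : K) ⊗ₜ[ℤ] (1 : W)) = 1 := rfl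
    rw [h4, map_one, sub_self]

/-- products over `k` -/
theorem p_tk (hP : FormalClass p P) {k : Type} [Field k] [Finite k] {A W X : Type} [CommRing A] [CommRing W]
    [CommRing X] [Algebra k A] [Algebra k W] {i : A →+* X} {j : W →+* X} (h : IsTK k i j) (hA : P A) (hW : P W) :
    P X := by
  obtain ⟨f, hff, hf1, hf2⟩ := exists_idem67 k A W
  have hT := hP.summand (A ⊗[ℤ] W) f hff (hP.tensor A W hA hW)
  let a : A →+* A ⊗[ℤ] W := Algebra.TensorProduct.includeLeftRingHom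
  let b : W →+* A ⊗[ℤ] W := ((Algebra.TensorProduct.includeRight : W →ₐ[ℤ] A ⊗[ℤ] W) : W →+* A ⊗[ℤ] W)
  have key : ∀ (x : A) (y : W), x ⊗ₜ[ℤ] y = a x * b y := by
    intro x y
    change _ = (x ⊗ₜ[ℤ] (1 : W)) * ((1 : A) ⊗ₜ[ℤ] y)
    rw [Algebra.TensorProduct.tmul_mul_tmul, mul_one, one_mul]
  have hext : ∀ (E : Type) [CommRing E] (u v : A ⊗[ℤ] W →+* E), u.comp a = v.comp a → u.comp b = v.comp b → u = v := by
    intro E _ u v h1 h2
    refine RingHom.ext fun z => ?_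
    induction z using TensorProduct.induction_on with
    | zero => rw [map_zero, map_zero]
    | tmul x y =>
      rw [key, map_mul, map_mul]
      congr 1
      · exact RingHom.congr_fun h1 x
      · exact RingHom.congr_fun h2 y
    | add x y hx hy => rw [map_add, map_add, hx, hy]
  let mk := Ideal.Quotient.mk (Ideal.span {f})
  -- the map from the tensor product over `ℤ` to `X`
  let g : A ⊗[ℤ] W →ₐ[ℤ] X := Algebra.TensorProduct.lift i.toIntAlgHom j.toIntAlgHom (fun _ _ => Commute.all _ _)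
  have hga : ∀ x, g (a x) = i x := by
    intro x
    change g (x ⊗ₜ[ℤ] (1 : W)) = i x
    rw [Algebra.TensorProduct.lift_tmul, map_one, mul_one]
    rfl
  have hgb : ∀ x, g (b x) = j x := by
    intro x
    change g ((1 : A) ⊗ₜ[ℤ] x) = j x
    rw [Algebra.TensorProduct.lift_tmul, map_one, one_mul]
    rfl
  have hgf : (g : A ⊗[ℤ] W →+* X) f = 0 := by
    refine hf2 X (g : A ⊗[ℤ] W →+* X) fun s => ?_
    change g (b (algebraMap k W s)) = g (a (algebraMap k A s))
    rw [hga, hgb, h.comm]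
  let G : (A ⊗[ℤ] W) ⧸ Ideal.span {f} →+* X := Ideal.Quotient.lift _ (g : A ⊗[ℤ] W →+* X) (by
    intro x hx
    obtain ⟨y, rfl⟩ := Ideal.mem_span_singleton'.1 hx
    rw [map_mul, hgf, mul_zero])
  have hG : ∀ x, G (mk x) = g x := fun x => rfl
  obtain ⟨F, hF1, hF2⟩ := h.ex ((A ⊗[ℤ] W) ⧸ Ideal.span {f}) (mk.comp a) (mk.comp b) (by
    intro s
    have h1 := Ideal.Quotient.eq.2 (hf1 s)
    exact h1.symm)
  refine hP.iso _ _ (RingEquiv.ofRingHom G F ?_ ?_) hT
  · refine h.uniq _ _ _ ?_ ?_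
    · rw [RingHom.comp_assoc, hF1, RingHom.id_comp]
      ext x
      change G (mk (a x)) = i x
      rw [hG, hga]
    · rw [RingHom.comp_assoc, hF2, RingHom.id_comp]
      ext x
      change G (mk (b x)) = j x
      rw [hG, hgb]
  · apply Ideal.Quotient.ringHom_ext
    apply hext
    · ext x
      change F (G (mk (a x))) = mk (a x)
      rw [hG, hga]
      exact RingHom.congr_fun hF1 x
    · ext x
      change F (G (mk (b x))) = mk (b x)
      rw [hG, hgb]
      exact RingHom.congr_fun hF2 x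

end Pool.Agent.Helper67.CQ
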