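import Pool.Agent.Helper67.CQ.Blocks

/-!
# Quasi-homogeneous polynomials in three variables
-/

set_option autoImplicit false

namespace Pool.Agent.Helper67.CQ

open Pool.Agent.Helper87.CC (IsLC ft_of_surj ft_alg ft_loc Tame dim_le_one)
open Pool.Agent.Helper29.CQ (FormalClass Cyc)
open MvPolynomial (eval₂ eval₂Hom IsWeightedHomogeneous IsHomogeneous rename C X monomial)

variable {p : ℕ} {P : ∀ (A : Type) [CommRing A], Prop}

/-- `L` represents the points `(a, z)` with `z` invertible and `z ^ d f(a) = η` -/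
structure IsM {k L : Type} [Field k] [CommRing L] (c : k →+* L) (a : Fin 2 → L) (z z' : L) (d : ℕ)
    (f : MvPolynomial (Fin 2) k) (η : k) : Prop where
  inv : z * z' = 1
  rel : z ^ d * eval₂ c a f = c η
  ex : ∀ (E : Type) [CommRing E] (u : k →+* E) (y : Fin 2 → E) (s s' : E), s * s' = 1 →
    s ^ d * eval₂ u y f = u η → ∃ h : L →+* E, h.comp c = u ∧ (∀ i, h (a i) = y i) ∧ h z = s
  uniq : ∀ (E : Type) [CommRing E] (h h' : L →+* E), h.comp c = h'.comp c → (∀ i, h (a i) = h' (a i)) →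
    h z = h' z → h = h'

theorem fin2 {E : Type} (a : Fin 2 → E) : ![a 0, a 1] = a := by
  funext i
  fin_cases i
  · rfl
  · rfl

/-- the part `z ≠ 0` of `G = η` -/
theorem open_m {k R L : Type} [Field k] [CommRing R] [CommRing L] {w : Fin 3 → ℤ} (hw : w 2 = 1)
    {G : MvPolynomial (Fin 3) k} {d : ℕ} (hG : IsWeightedHomogeneous w G (d : ℤ)) {η : k} {c : k →+* R}
    {x : Fin 3 → R} (hR : IsHyp c x (G - C η)) {c' : k →+* L} {a : Fin 2 → L} {z z' : L}
    (hL : IsM c' a z z' d (deh G) η) : ∃ r : R →+* L, IsLC r ⊥ (x 2) := by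
  obtain ⟨Z, hZ⟩ : ∃ Z : Lˣ, (Z : L) = z := ⟨⟨z, z', hL.inv, by rw [mul_comm]; exact hL.inv⟩, rfl⟩
  obtain ⟨r, r1, r2⟩ := hR.ex L c' ![((Z ^ w 0 : Lˣ) : L) * a 0, ((Z ^ w 1 : Lˣ) : L) * a 1, (Z : L)] (by
    rw [MvPolynomial.eval₂_sub, MvPolynomial.eval₂_C, hom_deh hw hG, fin2, hZ, hL.rel, sub_self])
  have r0 : r (x 0) = ((Z ^ w 0 : Lˣ) : L) * a 0 := r2 0
  have r1' : r (x 1) = ((Z ^ w 1 : Lˣ) : L) * a 1 := r2 1
  have r2' : r (x 2) = z := (r2 2).trans hZ
  have hcan : ∀ {E : Type} [CommRing E] (T : Eˣ) (n : ℤ) (e : E), ((T⁻¹ ^ n : Eˣ) : E) * (((T ^ n : Eˣ) : E) * e) = e := by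
    intro E _ T n e
    rw [← mul_assoc, ← Units.val_mul, ← mul_zpow, inv_mul_cancel, one_zpow, Units.val_one, one_mul]
  have hcan' : ∀ {E : Type} [CommRing E] (T : Eˣ) (n : ℤ) (e : E), ((T ^ n : Eˣ) : E) * (((T⁻¹ ^ n : Eˣ) : E) * e) = e := by
    intro E _ T n e
    rw [← mul_assoc, ← Units.val_mul, ← mul_zpow, mul_inv_cancel, one_zpow, Units.val_one, one_mul]
  have ha0 : a 0 = ((Z⁻¹ ^ w 0 : Lˣ) : L) * r (x 0) := by rw [r0, hcan]
  have ha1 : a 1 = ((Z⁻¹ ^ w 1 : Lˣ) : L) * r (x 1) := by rw [r1', hcan]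
  refine ⟨r, ?_, ?_, ?_, ?_⟩
  · intro b hb
    rw [Ideal.mem_bot.1 hb, map_zero]
  · rw [r2', ← hZ]
    exact Z.isUnit
  · intro E _ v _ hv
    obtain ⟨S, hS⟩ := hv
    have h1 : (S : E) ^ d * eval₂ (v.comp c) ![((S⁻¹ ^ w 0 : Eˣ) : E) * v (x 0), ((S⁻¹ ^ w 1 : Eˣ) : E) * v (x 1)]
        (deh G) = (v.comp c) η := by
      rw [← hom_deh hw hG, hcan', hcan']
      have h2 := congrArg v hR.rel
      rw [map_zero, eval₂_comp_hom, MvPolynomial.eval₂_sub, MvPolynomial.eval₂_C, sub_eq_zero] at h2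
      have h5 : (![v (x 0), v (x 1), (S : E)] : Fin 3 → E) = fun i => v (x i) := by
        funext i
        fin_cases i
        · rfl
        · rfl
        · exact hS
      rw [h5]
      exact h2
    obtain ⟨h, h3, h4, h5⟩ := hL.ex E (v.comp c) _ (S : E) ((S⁻¹ : Eˣ) : E) (Units.mul_inv S) h1
    have hm : Units.map (h : L →* E) Z = S := by
      apply Units.ext
      rw [Units.coe_map, hZ]
      exact h5
    have hm2 : ∀ n : ℤ, h ((Z ^ n : Lˣ) : L) = ((S ^ n : Eˣ) : E) := by
      intro n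
      have h8 : Units.map (h : L →* E) (Z ^ n) = S ^ n := by rw [map_zpow, hm]
      rw [← h8]
      rfl
    refine ⟨h, hR.uniq E _ _ ?_ ?_⟩
    · rw [RingHom.comp_assoc, r1, h3]
    · intro i
      fin_cases i
      · change h (r (x 0)) = v (x 0)
        rw [r0, map_mul, hm2, h4]
        exact hcan' S _ _
      · change h (r (x 1)) = v (x 1)
        rw [r1', map_mul, hm2, h4]
        exact hcan' S _ _
      · change h (r (x 2)) = v (x 2)
        rw [r2', h5, hS]
  · intro E _ h h' hh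
    have h6 : ∀ t, h (r t) = h' (r t) := fun t => RingHom.congr_fun hh t
    have hz2 : h z = h' z := by rw [← r2', h6]
    have hm : Units.map (h : L →* E) Z = Units.map (h' : L →* E) Z := by
      apply Units.ext
      rw [Units.coe_map, Units.coe_map, hZ]
      exact hz2
    have hm2 : ∀ n : ℤ, h ((Z⁻¹ ^ n : Lˣ) : L) = h' ((Z⁻¹ ^ n : Lˣ) : L) := by
      intro n
      have h8 : Units.map (h : L →* E) (Z⁻¹ ^ n) = Units.map (h' : L →* E) (Z⁻¹ ^ n) := by
        rw [map_zpow, map_zpow, map_inv, map_inv, hm]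
      exact congrArg (fun s : Eˣ => (s : E)) h8
    refine hL.uniq E _ _ ?_ ?_ hz2
    · rw [← r1, ← RingHom.comp_assoc, hh, RingHom.comp_assoc]
    · intro i
      fin_cases i
      · change h (a 0) = h' (a 0)
        rw [ha0, map_mul, map_mul, hm2, h6]
      · change h (a 1) = h' (a 1)
        rw [ha1, map_mul, map_mul, hm2, h6]

/-- the model for `η = 0` -/
theorem isM_zero {k A : Type} [Field k] [CommRing A] {c : k →+* A} {a : Fin 2 → A} {f : MvPolynomial (Fin 2) k}
    (hA : IsHyp c a f) (d : ℕ) : ∃ z' : Localization.Away (Polynomial.X : Polynomial A),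
      IsM ((algebraMap (Polynomial A) (Localization.Away (Polynomial.X : Polynomial A))).comp
        (Polynomial.C.comp c)) (fun i => algebraMap (Polynomial A) _ (Polynomial.C (a i)))
        (algebraMap (Polynomial A) _ Polynomial.X) z' d f 0 := by
  have hL := isLC_away (Polynomial.X : Polynomial A)
  obtain ⟨z', hz'⟩ := hL.unit.exists_right_inv
  refine ⟨z', hz', ?_, ?_, ?_⟩
  · have h1 := congrArg ((algebraMap (Polynomial A) (Localization.Away (Polynomial.X : Polynomial A))).comp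
      Polynomial.C) hA.rel
    rw [map_zero, eval₂_comp_hom] at h1
    rw [map_zero]
    exact (congrArg _ h1).trans (mul_zero _)
  · intro E _ u y s s' hs h1
    have hsu : IsUnit s := IsUnit.of_mul_eq_one _ hs
    have h2 : eval₂ u y f = 0 := by
      rw [map_zero] at h1
      exact (hsu.pow d).mul_right_eq_zero.1 h1
    obtain ⟨g, g1, g2⟩ := hA.ex E u y h2
    obtain ⟨h, hh⟩ := hL.ex E (Polynomial.eval₂RingHom g s) (fun b hb => by
      rw [Ideal.mem_bot.1 hb, map_zero]) (by rw [Polynomial.coe_eval₂RingHom, Polynomial.eval₂_X]; exact hsu)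
    have h3 : ∀ t, h (algebraMap (Polynomial A) _ t) = Polynomial.eval₂RingHom g s t := fun t =>
      RingHom.congr_fun hh t
    refine ⟨h, ?_, ?_, ?_⟩
    · rw [← RingHom.comp_assoc, hh, ← g1]
      refine RingHom.ext fun t => ?_
      simp
    · intro i
      rw [h3, Polynomial.coe_eval₂RingHom, Polynomial.eval₂_C, g2]
    · rw [h3, Polynomial.coe_eval₂RingHom, Polynomial.eval₂_X]
  · intro E _ h h' h1 h2 h3
    apply hL.uniq
    refine Polynomial.ringHom_ext' ?_ h3
    exact hA.uniq E _ _ h1 h2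

/-- the model for `η = 1` -/
theorem isM_one {k B : Type} [Field k] [CommRing B] {d : ℕ} {f : MvPolynomial (Fin 2) k}
    {i : MvPolynomial (Fin 2) k →+* B} {v : B} (hB : IsKum i v d f) :
    ∃ z : Localization.Away v,
      IsM ((algebraMap B (Localization.Away v)).comp (i.comp C)) (fun j => algebraMap B _ (i (X j)))
        z (algebraMap B _ v) d f 1 := by
  have hL := isLC_away v
  obtain ⟨z, hz⟩ := hL.unit.exists_right_inv
  have hev : ∀ {E : Type} [CommRing E] (g : MvPolynomial (Fin 2) k →+* E),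
      eval₂ (g.comp C) (fun j => g (X j)) f = g f := by
    intro E _ g
    have h9 : eval₂Hom (g.comp C) (fun i => g (X i)) = g := by
      apply MvPolynomial.ringHom_ext
      · intro r
        rw [MvPolynomial.eval₂Hom_C]
        rfl
      · intro i
        rw [MvPolynomial.eval₂Hom_X']
    exact RingHom.congr_fun h9 f
  refine ⟨z, by rw [mul_comm]; exact hz, ?_, ?_, ?_⟩
  · have h1 := hev ((algebraMap B (Localization.Away v)).comp i)
    have h2 : ((algebraMap B (Localization.Away v)).comp i) f = algebraMap B (Localization.Away v) v ^ d := by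
      rw [RingHom.comp_apply, ← hB.rel, map_pow]
    rw [map_one]
    change z ^ d * eval₂ (((algebraMap B (Localization.Away v)).comp i).comp C)
      (fun j => ((algebraMap B (Localization.Away v)).comp i) (X j)) f = 1
    rw [h1, h2, ← mul_pow, mul_comm, hz, one_pow]
  · intro E _ u y s s' hs h1
    rw [map_one] at h1
    have h2 : eval₂ u y f = s' ^ d := by
      have h3 : s' ^ d * (s ^ d * eval₂ u y f) = s' ^ d := by rw [h1, mul_one]
      rw [← mul_assoc, ← mul_pow, mul_comm s', hs, one_pow, one_mul] at h3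
      exact h3
    obtain ⟨g, g1, g2⟩ := hB.ex E (eval₂Hom u y) s' (by rw [MvPolynomial.coe_eval₂Hom, h2])
    have hs' : IsUnit s' := IsUnit.of_mul_eq_one s (by rw [mul_comm]; exact hs)
    obtain ⟨h, hh⟩ := hL.ex E g (fun b hb => by rw [Ideal.mem_bot.1 hb, map_zero]) (by rw [g2]; exact hs')
    have h3 : ∀ t, h (algebraMap B _ t) = g t := fun t => RingHom.congr_fun hh t
    refine ⟨h, ?_, ?_, ?_⟩
    · rw [← RingHom.comp_assoc, hh, ← RingHom.comp_assoc, g1]
      refine RingHom.ext fun t => ?_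
      rw [RingHom.comp_apply, MvPolynomial.eval₂Hom_C]
    · intro j
      rw [h3, ← RingHom.comp_apply, g1, MvPolynomial.eval₂Hom_X']
    · have h4 : h z * s' = 1 := by
        rw [← g2, ← h3, ← map_mul, mul_comm, hz, map_one]
      calc h z = h z * (s * s') := by rw [hs, mul_one]
        _ = s * (h z * s') := by ring
        _ = s := by rw [h4, mul_one]
  · intro E _ h h' h1 h2 h3
    apply hL.uniq
    refine hB.uniq E _ _ ?_ ?_
    · apply MvPolynomial.ringHom_ext
      · intro r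
        exact RingHom.congr_fun h1 r
      · exact h2
    · have h4 : h (algebraMap B _ v) * h z = 1 := by rw [← map_mul, hz, map_one]
      have h5 : h' (algebraMap B _ v) * h z = 1 := by rw [h3, ← map_mul, hz, map_one]
      change h (algebraMap B _ v) = h' (algebraMap B _ v)
      calc h (algebraMap B _ v) = h (algebraMap B _ v) * (h' (algebraMap B _ v) * h z) := by rw [h5, mul_one]
        _ = h' (algebraMap B _ v) * (h (algebraMap B _ v) * h z) := by ring
        _ = h' (algebraMap B _ v) := by rw [h4, mul_one]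

section

variable {k : Type} [Field k] [Finite k]

theorem ft_hyp {r : ℕ} (G : MvPolynomial (Fin r) k) :
    Algebra.FiniteType ℤ (MvPolynomial (Fin r) k ⧸ Ideal.span {G}) :=
  ft_of_surj ft_mv (Ideal.Quotient.mk _) Ideal.Quotient.mk_surjective

theorem tern_zero (hP : FormalClass p P) (hk : (p : k) = 0) {w : Fin 3 → ℤ} (hw : w 2 = 1) {d : ℕ}
    {G : MvPolynomial (Fin 3) k} (hG : IsWeightedHomogeneous w G (d : ℤ)) :
    P (MvPolynomial (Fin 3) k ⧸ Ideal.span {G}) := by
  have hR : IsHyp ((Ideal.Quotient.mk (Ideal.span {G})).comp C)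
      (fun i => Ideal.Quotient.mk (Ideal.span {G}) (X i)) (G - C 0) := by
    rw [map_zero, sub_zero]
    exact isHyp_std G
  obtain ⟨q, hq⟩ := z_closed hR
  have hA : P (MvPolynomial (Fin 2) k ⧸ Ideal.span {deh G}) := p_two hP hk le_rfl _
  obtain ⟨z', hM⟩ := isM_zero (isHyp_std (deh G)) d
  obtain ⟨r, hr⟩ := open_m hw hG hR hM
  refine glue' hP (Ideal.Quotient.mk (Ideal.span {G}) (X 2)) (ft_hyp G) (char_quot (char_mv hk) _) hq hr
    (p_two hP hk le_rfl _) (hP.opn _ _ (hP.poly _ hA) ?_)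
  refine hP.iso _ _ (Polynomial.quotientSpanXSubCAlgEquiv (0 : MvPolynomial (Fin 2) k ⧸ Ideal.span {deh G})).symm.toRingEquiv.symm.symm hA |> fun h => ?_
  rw [map_zero, sub_zero] at h
  exact h

theorem tern_one (hP : FormalClass p P) (hk : (p : k) = 0) {w : Fin 3 → ℤ} (hw : w 2 = 1) {d : ℕ} (hd : d ≠ 0)
    {G : MvPolynomial (Fin 3) k} (hG : IsWeightedHomogeneous w G (d : ℤ)) (hC : P (Cyc d (deh G))) :
    P (MvPolynomial (Fin 3) k ⧸ Ideal.span {G - 1}) := by
  have hR : IsHyp ((Ideal.Quotient.mk (Ideal.span {G - C 1})).comp C)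
      (fun i => Ideal.Quotient.mk (Ideal.span {G - C 1}) (X i)) (G - C 1) := isHyp_std (G - C 1)
  obtain ⟨q, hq⟩ := z_closed hR
  have hK := isKum_std d (deh G)
  obtain ⟨z, hM⟩ := isM_one hK
  obtain ⟨r, hr⟩ := open_m hw hG hR hM
  obtain ⟨q', -, -, hq'⟩ := hK.closed hd
  have hA : P (MvPolynomial (Fin 2) k ⧸ Ideal.span {deh G}) := p_two hP hk le_rfl _
  have h1 := glue' hP (Ideal.Quotient.mk (Ideal.span {G - C 1}) (X 2)) (ft_hyp _) (char_quot (char_mv hk) _) hq hr
    (p_two hP hk le_rfl _) (opn' hP _ hq' (isLC_away _) hC hA)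
  rw [map_one] at h1
  exact h1

end

end Pool.Agent.Helper67.CQ
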