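import Pool.Agent.Helper67.CQ.Main
import Pool.Agent.Helper9.CT.Final

/-!
# Compositions of forms, unconditionally
-/

set_option autoImplicit false

namespace Pool.Agent.Helper67.CQ

open Pool.Agent.Helper29.CQ (FormalClass Cyc)

theorem low_mem {p : ℕ} (hp : p.Prime) (hp2 : p ≠ 2) {P : ∀ (A : Type) [CommRing A], Prop}
    (hP : FormalClass p P) {k : Type} [Field k] [Finite k] [CharP k p] (f : MvPolynomial (Fin 2) k) (hf : Low f)
    (n : ℕ) (hn : 0 < n) : P (Cyc n f) := by
  rcases hf with hf | hf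
  · exact Pool.Agent.Helper29.CQ.cyclic_quartics hp hp2 hP k f hf n hn
  · exact Pool.Agent.Helper9.CT.wgts hp hp2 hP k f hf n hn

theorem compositions_main {p : ℕ} (hp : p.Prime) (hp2 : p ≠ 2) {P : ∀ (A : Type) [CommRing A], Prop}
    (hP : FormalClass p P) {k : Type} [Field k] [Finite k] [CharP k p] {s : ℕ} {σ : Fin s → Type}
    [∀ j, Fintype (σ j)] {F : ∀ j, MvPolynomial (σ j) k} {d : Fin s → ℕ} (hF : ∀ j, Form P (F j) (d j))
    {H : MvPolynomial (Fin s) k} (hH : Basic P (pows H d)) :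
    P (MvPolynomial (Σ j, σ j) k ⧸ Ideal.span {comp H F}) :=
  compositions hp hP (CharP.cast_eq_zero k p) (fun f hf n hn => low_mem hp hp2 hP f hf n hn) hF hH

end Pool.Agent.Helper67.CQ
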